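import Pool.Agent.J4.H93.D3.Defs

set_option autoImplicit false

open Filter Topology

namespace Pool.Agent.J4.H93.D3

namespace CFG

/-- the vector `(a, b, w)` -/
noncomputable def vec {m : ℕ} (a b : ℝ) (w : Fin m → ℝ) : E (m + 2) :=
  WithLp.toLp 2 (Fin.cons a (Fin.cons b w))

theorem inner_vec {m : ℕ} (a b a' b' : ℝ) (w w' : Fin m → ℝ) :
    inner ℝ (vec a b w) (vec a' b' w') = a * a' + (b * b' + ∑ i, w i * w' i) := by
  unfold vec
  rw [PiLp.inner_apply, Fin.sum_univ_succ, Fin.sum_univ_succ]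
  simp [mul_comm]

theorem unit_of {n : ℕ} {v : E n} (h : inner ℝ v v = 1) : ‖v‖ = 1 := by
  rw [real_inner_self_eq_norm_sq] at h
  exact (pow_eq_one_iff_of_nonneg (norm_nonneg v) two_ne_zero).1 h

/-- the fixed vectors -/
noncomputable def ww {m : ℕ} (τ ν : ℝ) (j i : Fin m) : ℝ := ((if i = j then 1 else 0) - τ) / ν

theorem sum_tt {m : ℕ} (t : ℝ) : ∑ _i : Fin m, (-t) * (-t) = m * t ^ 2 := by
  rw [Finset.sum_const, Finset.card_univ, Fintype.card_fin, nsmul_eq_mul]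
  ring

theorem sum_tw {m : ℕ} (t τ ν : ℝ) (j : Fin m) :
    ∑ i, (-t) * ww τ ν j i = -t * ((1 - m * τ) / ν) := by
  unfold ww
  rw [← Finset.mul_sum, ← Finset.sum_div, Finset.sum_sub_distrib]
  simp

theorem sum_wt {m : ℕ} (t τ ν : ℝ) (j : Fin m) :
    ∑ i, ww τ ν j i * (-t) = -t * ((1 - m * τ) / ν) := by
  rw [← sum_tw]
  exact Finset.sum_congr rfl fun i _ => mul_comm _ _

theorem sum_ww {m : ℕ} (τ ν : ℝ) (j k : Fin m) :
    ∑ i, ww τ ν j i * ww τ ν k i = ((if j = k then 1 else 0) - 2 * τ + m * τ ^ 2) / ν ^ 2 := by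
  unfold ww
  have h : ∀ i : Fin m, ((if i = j then (1 : ℝ) else 0) - τ) / ν * (((if i = k then 1 else 0) - τ) / ν)
      = ((if i = j then (if j = k then 1 else 0) else 0) - τ * (if i = j then 1 else 0) -
        τ * (if i = k then 1 else 0) + τ ^ 2) / ν ^ 2 := by
    intro i
    rw [div_mul_div_comm, ← pow_two ν]
    congr 1
    by_cases h1 : i = j
    · subst h1
      simp only [if_true]
      split_ifs <;> ring
    · simp only [if_neg h1]
      split_ifs <;> ring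
  rw [Finset.sum_congr rfl fun i _ => h i, ← Finset.sum_div]
  congr 1
  simp only [Finset.sum_add_distrib, Finset.sum_sub_distrib, ← Finset.mul_sum, Finset.sum_ite_eq',
    Finset.mem_univ, if_true, Finset.sum_const, Finset.card_univ, Fintype.card_fin, nsmul_eq_mul]
  ring

/-- the configuration -/
noncomputable def cf (m : ℕ) (t τ ν α : ℝ) : Fin (m + 4) → E (m + 2) :=
  Fin.cons (vec α 0 fun _ => -t) (Fin.cons (vec (-α) 0 fun _ => -t)
    (Fin.cons (vec 0 α fun _ => -t) (Fin.cons (vec 0 (-α) fun _ => -t)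
      fun j => vec 0 0 (ww τ ν j))))

end CFG

open CFG in
theorem t_CFG : S_CFG := by
  intro d hd
  obtain ⟨m, rfl⟩ : ∃ m, d = m + 1 := ⟨d - 1, by omega⟩
  have hm0 : (0 : ℝ) ≤ m := Nat.cast_nonneg m
  obtain ⟨D, hD⟩ : ∃ D : ℝ, D = (m : ℝ) + 1 := ⟨_, rfl⟩
  have hD1 : 1 ≤ D := by rw [hD]; linarith
  have hmD : (m : ℝ) = D - 1 := by rw [hD]; ring
  obtain ⟨τ, hτ⟩ : ∃ τ : ℝ, τ = 1 / (2 * D) := ⟨_, rfl⟩
  have hτ0 : 0 < τ := by rw [hτ]; positivity
  have hτD : τ * D = 1 / 2 := by rw [hτ]; field_simp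
  have hmτ : (m : ℝ) * τ ≤ 1 / 2 := by rw [hmD]; nlinarith
  have hmτ0 : 0 ≤ (m : ℝ) * τ := mul_nonneg hm0 hτ0.le
  refine ⟨1 / (2 * D), D, 1 / (2 * D), by positivity, by linarith, by positivity, ?_, ?_⟩
  · have h1 : D * (1 / (2 * D)) ^ 2 = τ * (1 / 2) := by rw [hτ]; field_simp
    rw [h1]
    nlinarith
  intro t ht ht1
  rw [← hτ] at ht1
  have htτ : τ ≤ 1 / 2 := by nlinarith
  have hmt : (m : ℝ) * t ^ 2 ≤ 1 / 4 := by
    have h1 : t ^ 2 ≤ τ ^ 2 := pow_le_pow_left₀ ht.le ht1 2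
    have h2 : (m : ℝ) * t ^ 2 ≤ m * τ ^ 2 := mul_le_mul_of_nonneg_left h1 hm0
    nlinarith
  have hmt0 : 0 ≤ (m : ℝ) * t ^ 2 := by positivity
  obtain ⟨α, hα⟩ : ∃ α : ℝ, α = √(1 - m * t ^ 2) := ⟨_, rfl⟩
  have hα2 : α * α = 1 - m * t ^ 2 := by
    rw [hα, Real.mul_self_sqrt (by linarith)]
  obtain ⟨ν, hν⟩ : ∃ ν : ℝ, ν = √(1 - 2 * τ + m * τ ^ 2) := ⟨_, rfl⟩
  have hpos : ∀ _j : Fin m, 0 < 1 - 2 * τ + m * τ ^ 2 := by
    intro j
    have h1 : 1 ≤ m := by have := j.2; omega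
    have h2 : (1 : ℝ) ≤ m := by exact_mod_cast h1
    have h3 : 2 ≤ D := by rw [hD]; linarith
    nlinarith [mul_pos hτ0 hτ0]
  have hν2 : ∀ _j : Fin m, ν ^ 2 = 1 - 2 * τ + m * τ ^ 2 := by
    intro j
    rw [hν, Real.sq_sqrt (hpos j).le]
  have hν0 : ∀ _j : Fin m, 0 < ν := by
    intro j
    rw [hν]
    exact Real.sqrt_pos.2 (hpos j)
  have hle : 1 - 2 * τ + m * τ ^ 2 ≤ 1 := by nlinarith
  have hν1 : ν ≤ 1 := by
    rw [hν]
    exact Real.sqrt_le_one.2 hle
  have hct : 1 / (2 * D) * t ≤ τ / 2 := by rw [← hτ]; nlinarith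
  -- the inner products of a moving and a fixed vector
  have hmix : ∀ j : Fin m, -t * ((1 - m * τ) / ν) ≤ -(1 / (2 * D)) * t := by
    intro j
    have h1 : 1 / 2 ≤ (1 - m * τ) / ν := by
      rw [le_div_iff₀ (hν0 j)]
      nlinarith [hν0 j]
    rw [← hτ]
    nlinarith
  have hfix : ∀ j k : Fin m, j ≠ k → ((if j = k then (1 : ℝ) else 0) - 2 * τ + m * τ ^ 2) / ν ^ 2 ≤
      -(1 / (2 * D)) * t := by
    intro j k hjk
    rw [if_neg hjk, div_le_iff₀ (by have := hν0 j; positivity), ← hτ]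
    have h1 : ν ^ 2 ≤ 1 := by rw [hν2 j]; exact hle
    have h2 : 0 < ν ^ 2 := by have := hν0 j; positivity
    have h3 : τ * t * ν ^ 2 ≤ τ * t := by nlinarith [mul_pos hτ0 ht]
    nlinarith
  have hs0 : ∀ i j : ℕ, Sp i j ↔ (i < 2 ∧ 2 ≤ j ∧ j < 4) ∨ (j < 2 ∧ 2 ≤ i ∧ i < 4) := fun _ _ => Iff.rfl
  refine ⟨cf m t τ ν α, ?_, ?_, ?_⟩
  · intro i
    apply unit_of
    refine Fin.cases ?_ (fun i => Fin.cases ?_ (fun i => Fin.cases ?_ (fun i => Fin.cases ?_
      (fun i => ?_) i) i) i) i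
    · simp only [cf, Fin.cons_zero, inner_vec, sum_tt]
      linarith
    · simp only [cf, Fin.cons_zero, Fin.cons_succ, inner_vec, sum_tt]
      linarith
    · simp only [cf, Fin.cons_zero, Fin.cons_succ, inner_vec, sum_tt]
      linarith
    · simp only [cf, Fin.cons_zero, Fin.cons_succ, inner_vec, sum_tt]
      linarith
    · simp only [cf, Fin.cons_succ, inner_vec, sum_ww, if_true]
      rw [← hν2 i, div_self (by have := hν0 i; positivity)]
      ring
  · intro i j hij hns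
    have e1 : α * -α + (0 * 0 + (m : ℝ) * t ^ 2) ≤ -(1 / (2 * D)) * t := by
      have : α * -α = -(1 - m * t ^ 2) := by rw [mul_neg, hα2]
      rw [this]
      linarith
    have e2 : -α * α + (0 * 0 + (m : ℝ) * t ^ 2) ≤ -(1 / (2 * D)) * t := by
      have : -α * α = -(1 - m * t ^ 2) := by rw [neg_mul, hα2]
      rw [this]
      linarith
    have e3 : 0 * 0 + (α * -α + (m : ℝ) * t ^ 2) ≤ -(1 / (2 * D)) * t := by linarith
    have e4 : 0 * 0 + (-α * α + (m : ℝ) * t ^ 2) ≤ -(1 / (2 * D)) * t := by linarith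
    revert hij hns
    refine Fin.cases ?_ (fun i => Fin.cases ?_ (fun i => Fin.cases ?_ (fun i => Fin.cases ?_
      (fun i => ?_) i) i) i) i <;>
    refine Fin.cases ?_ (fun j => Fin.cases ?_ (fun j => Fin.cases ?_ (fun j => Fin.cases ?_
      (fun j => ?_) j) j) j) j <;> intro hij hns
    all_goals first
      | exact absurd rfl hij
      | (exfalso; simp only [Sp, Fin.val_zero, Fin.val_succ] at hns; omega)
      | skip
    all_goals simp only [cf, Fin.cons_zero, Fin.cons_succ, inner_vec, sum_tt, sum_tw, sum_wt,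
      sum_ww]
    all_goals first
      | exact e1
      | exact e2
      | exact e3
      | exact e4
      | (have := hmix j; simpa using this)
      | (have := hmix i; simpa using this)
      | (have := hfix i j (fun h => hij (by rw [h])); simpa using this)
  · intro i j hs
    have hmt2 : (m : ℝ) * t ^ 2 ≤ D * t ^ 2 := by
      rw [hmD]
      nlinarith [sq_nonneg t]
    revert hs
    refine Fin.cases ?_ (fun i => Fin.cases ?_ (fun i => Fin.cases ?_ (fun i => Fin.cases ?_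
      (fun i => ?_) i) i) i) i <;>
    refine Fin.cases ?_ (fun j => Fin.cases ?_ (fun j => Fin.cases ?_ (fun j => Fin.cases ?_
      (fun j => ?_) j) j) j) j <;> intro hs
    all_goals first
      | (exfalso; simp only [Sp, Fin.val_zero, Fin.val_succ] at hs; omega)
      | skip
    all_goals simp only [cf, Fin.cons_zero, Fin.cons_succ, inner_vec, sum_tt]
    all_goals linarith

end Pool.Agent.J4.H93.D3
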