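import Pool.Agent.J4.H93.D3.Defs

/-! # Project D3, piece COR -/

set_option autoImplicit false

open Filter Topology

namespace Pool.Agent.J4.H93.D3

namespace CORAux

/-- the second condition of `Near` for given indices -/
def Q (d : ℕ) (x : Fin (d + 3) → E (d + 1)) (ε : ℝ)
    (q : Fin (d + 3) × Fin (d + 3) × Fin (d + 3) × Fin (d + 3)) : Prop :=
  q.1 ≠ q.2.1 ∧ q.2.2.1 ≠ q.2.2.2 ∧ q.1 ≠ q.2.2.1 ∧ q.1 ≠ q.2.2.2 ∧ q.2.1 ≠ q.2.2.1 ∧
    q.2.1 ≠ q.2.2.2 ∧ ‖x q.1 + x q.2.1‖ ≤ ε ∧ ‖x q.2.2.1 + x q.2.2.2‖ ≤ ε ∧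
    |inner ℝ (x q.1) (x q.2.2.1)| ≤ ε ∧
    ∀ k, k ≠ q.1 → k ≠ q.2.1 → k ≠ q.2.2.1 → k ≠ q.2.2.2 →
      |inner ℝ (x k) (x q.1)| ≤ ε ∧ |inner ℝ (x k) (x q.2.2.1)| ≤ ε

lemma Q_mono {d : ℕ} {x : Fin (d + 3) → E (d + 1)} {ε ε' : ℝ} (h : ε ≤ ε')
    {q : Fin (d + 3) × Fin (d + 3) × Fin (d + 3) × Fin (d + 3)} (hq : Q d x ε q) : Q d x ε' q := by
  obtain ⟨h1, h2, h3, h4, h5, h6, h7, h8, h9, h10⟩ := hq
  exact ⟨h1, h2, h3, h4, h5, h6, h7.trans h, h8.trans h, h9.trans h,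
    fun k a b c e => ⟨(h10 k a b c e).1.trans h, (h10 k a b c e).2.trans h⟩⟩

lemma exists_all {d : ℕ} {x : Fin (d + 3) → E (d + 1)} (h : ∀ ε : ℝ, 0 < ε → Near d ε x) :
    ∃ q, ∀ ε : ℝ, 0 < ε → Q d x ε q := by
  by_contra hc
  push Not at hc
  choose e he using hc
  obtain ⟨m, hm⟩ := Finite.exists_min (f := e)
  obtain ⟨-, i, i', j, j', h2⟩ := h (e m) (he m).1
  exact (he (i, i', j, j')).2 (Q_mono (hm _) h2)

lemma row {d : ℕ} (f : Fin (d + 3) → ℝ) (r a b c : Fin (d + 3)) (hf : ∀ j, 0 ≤ f j)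
    (hab : a ≠ b) (hac : a ≠ c) (hbc : b ≠ c) (har : a ≠ r) (hbr : b ≠ r) (hcr : c ≠ r)
    (ha : f a = 1) (hb : f b = 1) (hc : f c = 1) : 3 ≤ ∑ j ∈ Finset.univ.erase r, f j := by
  have h1 : ({a, b, c} : Finset (Fin (d + 3))) ⊆ Finset.univ.erase r := by
    intro y hy
    simp only [Finset.mem_insert, Finset.mem_singleton] at hy
    rw [Finset.mem_erase]
    rcases hy with rfl | rfl | rfl
    · exact ⟨har, Finset.mem_univ _⟩
    · exact ⟨hbr, Finset.mem_univ _⟩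
    · exact ⟨hcr, Finset.mem_univ _⟩
  have h2 := Finset.sum_le_sum_of_subset_of_nonneg h1 (fun j _ _ => hf j)
  refine le_trans (le_of_eq ?_) h2
  rw [Finset.sum_insert (by simp [hab, hac]), Finset.sum_insert (by simp [hbc]),
    Finset.sum_singleton, ha, hb, hc]
  norm_num

end CORAux

open CORAux

theorem t_COR : S_PT → S_UPP → S_STR → S_COR := by
  intro hPT hUPP hSTR d hd x
  by_contra hc
  push Not at hc
  -- upper bounds for the energy of `x`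
  have hup : ∀ ε : ℝ, 0 < ε → ∀ S : ℝ, ∃ s, S ≤ s ∧ 1 ≤ s ∧ IsConf d x ∧
      (2 : ℝ) ^ (s / 2) * riesz s x ≤ 8 + ε := by
    intro ε hε S
    obtain ⟨S1, -, hS1⟩ := hUPP d (by omega) ε hε
    obtain ⟨s, hs, hmin⟩ := hc (max S (max S1 1))
    obtain ⟨y, hy, hy2⟩ := hS1 s ((le_max_left _ _).trans ((le_max_right _ _).trans hs))
    refine ⟨s, (le_max_left _ _).trans hs, (le_max_right _ _).trans ((le_max_right _ _).trans hs),
      hmin.1, le_trans ?_ hy2⟩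
    exact mul_le_mul_of_nonneg_left (hmin.2 y hy) (Real.rpow_nonneg (by norm_num) _)
  have hnear : ∀ ε : ℝ, 0 < ε → Near d ε x := by
    intro ε hε
    obtain ⟨S, δ, -, hδ, h⟩ := hSTR d ε hε
    obtain ⟨s, hs, -, hx, hle⟩ := hup δ hδ S
    exact h s hs x hx hle
  obtain ⟨⟨i, i', j, j'⟩, hq⟩ := exists_all hnear
  obtain ⟨h1, h2, h3, h4, h5, h6, -⟩ := hq 1 one_pos
  simp only at h1 h2 h3 h4 h5 h6
  have hii : x i' = - x i := by
    have h7 : ‖x i + x i'‖ ≤ 0 := le_of_forall_pos_le_add fun ε hε => by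
      rw [zero_add]; exact (hq ε hε).2.2.2.2.2.2.1
    have h8 := norm_le_zero_iff.1 h7
    exact eq_neg_of_add_eq_zero_right h8
  have hjj : x j' = - x j := by
    have h7 : ‖x j + x j'‖ ≤ 0 := le_of_forall_pos_le_add fun ε hε => by
      rw [zero_add]; exact (hq ε hε).2.2.2.2.2.2.2.1
    have h8 := norm_le_zero_iff.1 h7
    exact eq_neg_of_add_eq_zero_right h8
  have hij : inner ℝ (x i) (x j) = 0 := by
    have h7 : |inner ℝ (x i) (x j)| ≤ 0 := le_of_forall_pos_le_add fun ε hε => by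
      rw [zero_add]; exact (hq ε hε).2.2.2.2.2.2.2.2.1
    exact abs_nonpos_iff.1 h7
  obtain ⟨k, hk1, hk2, hk3, hk4⟩ : ∃ k, k ≠ i ∧ k ≠ i' ∧ k ≠ j ∧ k ≠ j' := by
    by_contra hno
    push Not at hno
    have h7 : (Finset.univ : Finset (Fin (d + 3))) ⊆ {i, i', j, j'} := by
      intro k _
      simp only [Finset.mem_insert, Finset.mem_singleton]
      by_contra hk
      push Not at hk
      exact hk.2.2.2 (hno k hk.1 hk.2.1 hk.2.2.1)
    have h8 := (Finset.card_le_card h7).trans Finset.card_le_four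
    rw [Finset.card_univ, Fintype.card_fin] at h8
    omega
  have hki : inner ℝ (x k) (x i) = 0 := by
    have h7 : |inner ℝ (x k) (x i)| ≤ 0 := le_of_forall_pos_le_add fun ε hε => by
      rw [zero_add]; exact ((hq ε hε).2.2.2.2.2.2.2.2.2 k hk1 hk2 hk3 hk4).1
    exact abs_nonpos_iff.1 h7
  have hkj : inner ℝ (x k) (x j) = 0 := by
    have h7 : |inner ℝ (x k) (x j)| ≤ 0 := le_of_forall_pos_le_add fun ε hε => by
      rw [zero_add]; exact ((hq ε hε).2.2.2.2.2.2.2.2.2 k hk1 hk2 hk3 hk4).2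
    exact abs_nonpos_iff.1 h7
  obtain ⟨s, -, hs1, hx, hle⟩ := hup 1 one_pos 1
  have hs0 : 0 < s := by linarith
  -- orthogonal pairs
  have hone : ∀ a b, a ≠ b → inner ℝ (x a) (x b) = 0 →
      (2 : ℝ) ^ (s / 2) * ‖x a - x b‖ ^ (-s) = 1 := by
    intro a b hab h0
    rw [(hPT (d + 1) s (x a) (x b) hs0 (hx.2 a) (hx.2 b) (hx.1.ne hab)).1, h0, sub_zero,
      Real.one_rpow]
  let f : Fin (d + 3) → Fin (d + 3) → ℝ := fun a b => (2 : ℝ) ^ (s / 2) * ‖x a - x b‖ ^ (-s)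
  have hf0 : ∀ a b, 0 ≤ f a b := fun a b =>
    mul_nonneg (Real.rpow_nonneg (by norm_num) _) (Real.rpow_nonneg (norm_nonneg _) _)
  have hsum : (2 : ℝ) ^ (s / 2) * riesz s x = ∑ a, ∑ b ∈ Finset.univ.erase a, f a b := by
    unfold riesz
    rw [Finset.mul_sum]
    exact Finset.sum_congr rfl fun a _ => Finset.mul_sum _ _ _
  have hin : ∀ a b, inner ℝ (x a) (x b) = inner ℝ (x b) (x a) := fun a b =>
    (real_inner_comm (x b) (x a)).symm ▸ rfl
  have e1 : inner ℝ (x i) (x j') = 0 := by rw [hjj, inner_neg_right, hij, neg_zero]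
  have e2 : inner ℝ (x i') (x j) = 0 := by rw [hii, inner_neg_left, hij, neg_zero]
  have e3 : inner ℝ (x i') (x j') = 0 := by rw [hii, inner_neg_left, e1, neg_zero]
  have e4 : inner ℝ (x k) (x i') = 0 := by rw [hii, inner_neg_right, hki, neg_zero]
  have e5 : inner ℝ (x k) (x j') = 0 := by rw [hjj, inner_neg_right, hkj, neg_zero]
  have hsym : ∀ a b, inner ℝ (x a) (x b) = 0 → inner ℝ (x b) (x a) = 0 := fun a b h => by
    rw [real_inner_comm]; exact h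
  have r1 := row (f i) i j j' k (hf0 i) h2 hk3.symm hk4.symm h3.symm h4.symm hk1
    (hone _ _ h3 hij) (hone _ _ h4 e1) (hone _ _ hk1.symm (hsym _ _ hki))
  have r2 := row (f i') i' j j' k (hf0 i') h2 hk3.symm hk4.symm h5.symm h6.symm hk2
    (hone _ _ h5 e2) (hone _ _ h6 e3) (hone _ _ hk2.symm (hsym _ _ e4))
  have r3 := row (f j) j i i' k (hf0 j) h1 hk1.symm hk2.symm h3 h5 hk3
    (hone _ _ h3.symm (hsym _ _ hij)) (hone _ _ h5.symm (hsym _ _ e2))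
    (hone _ _ hk3.symm (hsym _ _ hkj))
  have r4 := row (f j') j' i i' k (hf0 j') h1 hk1.symm hk2.symm h4 h6 hk4
    (hone _ _ h4.symm (hsym _ _ e1)) (hone _ _ h6.symm (hsym _ _ e3))
    (hone _ _ hk4.symm (hsym _ _ e5))
  have h12 : (12 : ℝ) ≤ ∑ a, ∑ b ∈ Finset.univ.erase a, f a b := by
    have h9 := Finset.sum_le_sum_of_subset_of_nonneg
      (f := fun a => ∑ b ∈ Finset.univ.erase a, f a b)
      (Finset.subset_univ ({i, i', j, j'} : Finset (Fin (d + 3))))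
      (fun a _ _ => Finset.sum_nonneg fun b _ => hf0 a b)
    rw [Finset.sum_insert (by simp [h1, h3, h4]), Finset.sum_insert (by simp [h5, h6]),
      Finset.sum_insert (by simp [h2]), Finset.sum_singleton] at h9
    linarith
  rw [hsum] at hle
  linarith

end Pool.Agent.J4.H93.D3
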