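import Pool.Agent.J4.H93.D3.Defs

/-!
# Project D3, piece FIN: the upper bound
-/

set_option autoImplicit false

open Filter Topology

namespace Pool.Agent.J4.H93.D3

namespace FIN

theorem card_Sp (d : ℕ) (hd : 1 ≤ d) : (by classical exact
    ((Finset.univ : Finset (Fin (d + 3) × Fin (d + 3))).filter
      (fun p => Sp p.1 p.2)).card ≤ 8) := by
  classical
  have h4 : 4 ≤ d + 3 := by omega
  have h1 : (Finset.univ : Finset (Fin (d + 3) × Fin (d + 3))).filter (fun p => Sp p.1 p.2) ⊆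
      ((Finset.univ : Finset (Fin 4 × Fin 4)).filter (fun q : Fin 4 × Fin 4 =>
        ((q.1 : ℕ) < 2 ∧ 2 ≤ (q.2 : ℕ) ∧ (q.2 : ℕ) < 4) ∨
          ((q.2 : ℕ) < 2 ∧ 2 ≤ (q.1 : ℕ) ∧ (q.1 : ℕ) < 4))).image
        (Prod.map (Fin.castLE h4) (Fin.castLE h4)) := by
    rintro ⟨i, j⟩ hp
    rw [Finset.mem_filter] at hp
    have hp2 : Sp i j := hp.2
    have hi : (i : ℕ) < 4 := by
      rcases hp2 with h | h
      · omega
      · omega
    have hj : (j : ℕ) < 4 := by
      rcases hp2 with h | h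
      · omega
      · omega
    rw [Finset.mem_image]
    refine ⟨(⟨i, hi⟩, ⟨j, hj⟩), ?_, ?_⟩
    · rw [Finset.mem_filter]
      exact ⟨Finset.mem_univ _, hp2⟩
    · rfl
  refine (Finset.card_le_card h1).trans (Finset.card_image_le.trans ?_)
  have h2 : ((Finset.univ : Finset (Fin 4 × Fin 4)).filter (fun q : Fin 4 × Fin 4 =>
        ((q.1 : ℕ) < 2 ∧ 2 ≤ (q.2 : ℕ) ∧ (q.2 : ℕ) < 4) ∨
          ((q.2 : ℕ) < 2 ∧ 2 ≤ (q.1 : ℕ) ∧ (q.1 : ℕ) < 4))).card = 8 := by decide
  exact le_of_eq (by convert h2)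

theorem boundA {C t s u : ℝ} (hs : 0 < s) (hCt : C * t ^ 2 ≤ 1 / 2) (h0 : 0 ≤ C * t ^ 2)
    (hu : u ≤ C * t ^ 2) : (1 - u) ^ (-(s / 2)) ≤ Real.exp (s * (C * t ^ 2)) := by
  have h1 : 0 < 1 - C * t ^ 2 := by linarith
  have h2 : 0 < 1 - u := by linarith
  rw [Real.rpow_def_of_pos h2]
  apply Real.exp_le_exp.2
  have h3 : Real.log (1 - C * t ^ 2) ≤ Real.log (1 - u) := Real.log_le_log h1 (by linarith)
  have h4 : -(2 * (C * t ^ 2)) ≤ Real.log (1 - C * t ^ 2) := by
    have h5 := Real.one_sub_inv_le_log_of_pos h1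
    have h6 : (1 - C * t ^ 2)⁻¹ ≤ 1 + 2 * (C * t ^ 2) := by
      rw [inv_eq_one_div, div_le_iff₀ h1]
      nlinarith
    linarith
  nlinarith

theorem boundB {c t s u : ℝ} (hs : 0 < s) (hct : c * t ≤ 1) (h0 : 0 ≤ c * t)
    (hu : u ≤ -c * t) : (1 - u) ^ (-(s / 2)) ≤ Real.exp (-(s * (c * t) / 4)) := by
  have h2 : 0 < 1 - u := by linarith
  rw [Real.rpow_def_of_pos h2]
  apply Real.exp_le_exp.2
  have h1 : 0 < 1 + c * t := by linarith
  have h3 : Real.log (1 + c * t) ≤ Real.log (1 - u) := Real.log_le_log h1 (by linarith)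
  have h4 : c * t / 2 ≤ Real.log (1 + c * t) := by
    have h5 := Real.one_sub_inv_le_log_of_pos h1
    have h6 : (1 + c * t)⁻¹ ≤ 1 - c * t / 2 := by
      rw [inv_eq_one_div, div_le_iff₀ h1]
      nlinarith
    linarith
  nlinarith

end FIN

open FIN in
theorem t_FIN : S_FIN := by
  classical
  intro hPT hCFG d hd ε hε
  obtain ⟨c, C, t0, hc, hC, ht0, hCt, h⟩ := hCFG d hd
  have e1 : Tendsto (fun s : ℝ => s ^ (-(3 / 4) : ℝ)) atTop (𝓝 0) :=
    tendsto_rpow_neg_atTop (by norm_num)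
  have e2 : Tendsto (fun s : ℝ => s ^ (-(1 / 2) : ℝ)) atTop (𝓝 0) :=
    tendsto_rpow_neg_atTop (by norm_num)
  have e3 : Tendsto (fun s : ℝ => s ^ (1 / 4 : ℝ)) atTop atTop :=
    tendsto_rpow_atTop (by norm_num)
  have e4 : Tendsto (fun s : ℝ => 8 * Real.exp (C * s ^ (-(1 / 2) : ℝ)) +
      ((d : ℝ) + 3) ^ 2 * Real.exp (-(c / 4 * s ^ (1 / 4 : ℝ)))) atTop
      (𝓝 (8 * Real.exp (C * 0) + ((d : ℝ) + 3) ^ 2 * 0)) := by
    refine ((Real.continuous_exp.tendsto _).comp (e2.const_mul C)).const_mul 8 |>.add ?_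
    refine Tendsto.const_mul _ ?_
    refine Real.tendsto_exp_atBot.comp ?_
    exact tendsto_neg_atTop_atBot.comp (e3.const_mul_atTop (by positivity))
  have e5 : 8 * Real.exp (C * 0) + ((d : ℝ) + 3) ^ 2 * 0 < 8 + ε := by
    simp
    exact hε
  have ev := e4.eventually (eventually_lt_nhds e5)
  have hm : 0 < min (min t0 1) (min (1 / (2 * C)) (1 / c)) := by positivity
  have ev1 := e1.eventually (eventually_lt_nhds hm)
  obtain ⟨S, hS⟩ := eventually_atTop.1 (ev.and ev1)
  refine ⟨max S 1, by positivity, fun s hs => ?_⟩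
  have hs1 : 1 ≤ s := (le_max_right _ _).trans hs
  have hs0 : 0 < s := by linarith
  obtain ⟨hA, hB⟩ := hS s ((le_max_left _ _).trans hs)
  set t : ℝ := s ^ (-(3 / 4) : ℝ) with ht
  have htpos : 0 < t := Real.rpow_pos_of_pos hs0 _
  have ht1 : t ≤ t0 := (hB.trans_le ((min_le_left _ _).trans (min_le_left _ _))).le
  have ht2 : t ≤ 1 := (hB.trans_le ((min_le_left _ _).trans (min_le_right _ _))).le
  have ht3 : t ≤ 1 / (2 * C) := (hB.trans_le ((min_le_right _ _).trans (min_le_left _ _))).le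
  have ht4 : t ≤ 1 / c := (hB.trans_le ((min_le_right _ _).trans (min_le_right _ _))).le
  have hct : c * t ≤ 1 := by
    rw [le_div_iff₀ hc] at ht4
    linarith
  have hCt2 : C * t ^ 2 ≤ 1 / 2 := by
    rw [le_div_iff₀ (by positivity)] at ht3
    have : t ^ 2 ≤ t := by nlinarith
    nlinarith
  obtain ⟨x, hx1, hx2, hx3⟩ := h t htpos ht1
  have hinner : ∀ i j : Fin (d + 3), i ≠ j → inner ℝ (x i) (x j) < 1 := by
    intro i j hij
    by_cases hS' : Sp i j
    · have := hx3 i j hS'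
      linarith
    · have h6 := hx2 i j hij hS'
      have h7 : 0 < c * t := by positivity
      linarith
  have hinj : Function.Injective x := by
    intro i j hij
    by_contra hne
    have h6 := hinner i j hne
    rw [hij, real_inner_self_eq_norm_sq, hx1] at h6
    norm_num at h6
  refine ⟨x, ⟨hinj, hx1⟩, ?_⟩
  have hsum : (2 : ℝ) ^ (s / 2) * riesz s x =
      ∑ i, ∑ j ∈ Finset.univ.erase i, (1 - inner ℝ (x i) (x j)) ^ (-(s / 2)) := by
    unfold riesz
    rw [Finset.mul_sum]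
    refine Finset.sum_congr rfl fun i _ => ?_
    rw [Finset.mul_sum]
    refine Finset.sum_congr rfl fun j hj => ?_
    have hne : x i ≠ x j := fun hx => (Finset.ne_of_mem_erase hj) (hinj hx).symm
    exact (hPT (d + 1) s (x i) (x j) hs0 (hx1 i) (hx1 j) hne).1
  have hpow1 : s * (C * t ^ 2) = C * s ^ (-(1 / 2) : ℝ) := by
    have h8 : t ^ 2 = s ^ (-(3 / 2) : ℝ) := by
      rw [ht, ← Real.rpow_natCast, ← Real.rpow_mul hs0.le]
      norm_num
    have h9 : s * s ^ (-(3 / 2) : ℝ) = s ^ (-(1 / 2) : ℝ) := by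
      conv_lhs => rw [← Real.rpow_one s]
      rw [Real.rpow_one, ← Real.rpow_one_add' hs0.le (by norm_num)]
      norm_num
    rw [h8]
    calc s * (C * s ^ (-(3 / 2) : ℝ)) = C * (s * s ^ (-(3 / 2) : ℝ)) := by ring
      _ = _ := by rw [h9]
  have hpow2 : s * (c * t) / 4 = c / 4 * s ^ (1 / 4 : ℝ) := by
    have h9 : s * t = s ^ (1 / 4 : ℝ) := by
      rw [ht, ← Real.rpow_one_add' hs0.le (by norm_num)]
      norm_num
    calc s * (c * t) / 4 = c / 4 * (s * t) := by ring
      _ = _ := by rw [h9]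
  set A : ℝ := Real.exp (C * s ^ (-(1 / 2) : ℝ)) with hAdef
  set B : ℝ := Real.exp (-(c / 4 * s ^ (1 / 4 : ℝ))) with hBdef
  have hA0 : 0 ≤ A := (Real.exp_pos _).le
  have hB0 : 0 ≤ B := (Real.exp_pos _).le
  have hterm : ∀ i j : Fin (d + 3), i ≠ j → (1 - inner ℝ (x i) (x j)) ^ (-(s / 2)) ≤
      (if Sp i j then A else 0) + B := by
    intro i j hij
    by_cases hS' : Sp i j
    · rw [if_pos hS']
      have h6 := boundA (s := s) hs0 hCt2 (by positivity) (hx3 i j hS')
      rw [hpow1] at h6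
      linarith
    · rw [if_neg hS', zero_add]
      have h6 := boundB (s := s) hs0 hct (by positivity) (hx2 i j hij hS')
      rw [hpow2] at h6
      exact h6
  rw [hsum]
  calc ∑ i, ∑ j ∈ Finset.univ.erase i, (1 - inner ℝ (x i) (x j)) ^ (-(s / 2)) ≤
      ∑ i : Fin (d + 3), ∑ j ∈ Finset.univ.erase i, ((if Sp i j then A else 0) + B) :=
        Finset.sum_le_sum fun i _ => Finset.sum_le_sum fun j hj =>
          hterm i j (Finset.ne_of_mem_erase hj).symm
    _ ≤ ∑ i : Fin (d + 3), ∑ j : Fin (d + 3), ((if Sp i j then A else 0) + B) := by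
        refine Finset.sum_le_sum fun i _ => ?_
        refine Finset.sum_le_sum_of_subset_of_nonneg (Finset.erase_subset _ _) fun j _ _ => ?_
        split_ifs <;> positivity
    _ = (∑ p : Fin (d + 3) × Fin (d + 3), (if Sp p.1 p.2 then A else 0)) +
        ((d : ℝ) + 3) ^ 2 * B := by
        rw [← Finset.sum_product', Finset.sum_add_distrib]
        congr 1
        rw [Finset.sum_const, Finset.card_product]
        simp only [Finset.card_univ, Fintype.card_fin, nsmul_eq_mul]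
        push_cast
        ring
    _ ≤ 8 * A + ((d : ℝ) + 3) ^ 2 * B := by
        have h7 : (∑ p : Fin (d + 3) × Fin (d + 3), (if Sp p.1 p.2 then A else 0)) =
            (((Finset.univ : Finset (Fin (d + 3) × Fin (d + 3))).filter
              (fun p => Sp p.1 p.2)).card : ℝ) * A := by
          rw [← Finset.sum_filter, Finset.sum_const, nsmul_eq_mul]
        rw [h7]
        have h8 : ((((Finset.univ : Finset (Fin (d + 3) × Fin (d + 3))).filter
              (fun p => Sp p.1 p.2)).card : ℕ) : ℝ) ≤ 8 := by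
          have := card_Sp d hd
          exact_mod_cast this
        have h9 := mul_le_mul_of_nonneg_right h8 hA0
        linarith
    _ ≤ 8 + ε := hA.le

end Pool.Agent.J4.H93.D3
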