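import Pool.Agent.J4.H93.D3.Defs

/-!
# Project D3, KER: a linear relation with coefficient sum zero
-/

set_option autoImplicit false

open Filter Topology

namespace Pool.Agent.J4.H93.D3

theorem t_KER : S_KER := by
  intro d x
  let Φ : (Fin (d + 3) → ℝ) →ₗ[ℝ] (E (d + 1) × ℝ) :=
    (Fintype.linearCombination ℝ x).prod (Fintype.linearCombination ℝ (fun _ => (1 : ℝ)))
  have hlt : Module.finrank ℝ (E (d + 1) × ℝ) < Module.finrank ℝ (Fin (d + 3) → ℝ) := by
    rw [Module.finrank_prod, Module.finrank_fintype_fun_eq_card, finrank_euclideanSpace_fin,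
      Module.finrank_self, Fintype.card_fin]
    omega
  have hker := LinearMap.ker_ne_bot_of_finrank_lt (f := Φ) hlt
  obtain ⟨c, hc, hc0⟩ := (Submodule.ne_bot_iff _).1 hker
  have hc2 : Φ c = 0 := hc
  have h1 : ∑ i, c i • x i = 0 := by
    have := congrArg Prod.fst hc2
    simpa [Φ, Fintype.linearCombination_apply] using this
  have h2 : ∑ i, c i = 0 := by
    have := congrArg Prod.snd hc2
    simpa [Φ, Fintype.linearCombination_apply] using this
  set P := ∑ i, max (c i) 0 with hP
  have hN : ∑ i, max (-c i) 0 = P := by
    have h3 : ∑ i, (max (c i) 0 - max (-c i) 0) = 0 := by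
      refine Eq.trans (Finset.sum_congr rfl fun i _ => ?_) h2
      rcases le_total 0 (c i) with h | h
      · rw [max_eq_left h, max_eq_right (by linarith)]; ring
      · rw [max_eq_right h, max_eq_left (by linarith)]; ring
    rw [Finset.sum_sub_distrib] at h3
    linarith
  have hPpos : 0 < P := by
    have h0 : 0 ≤ P := Finset.sum_nonneg fun i _ => le_max_right _ _
    rcases h0.eq_or_lt with h | h
    · exfalso
      apply hc0
      funext i
      have h4 : max (c i) 0 = 0 := by
        rw [eq_comm, hP, Finset.sum_eq_zero_iff_of_nonneg (fun i _ => le_max_right _ _)] at h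
        exact h i (Finset.mem_univ i)
      have h5 : max (-c i) 0 = 0 := by
        have h6 : ∑ i, max (-c i) 0 = 0 := by rw [hN]; exact h.symm
        rw [Finset.sum_eq_zero_iff_of_nonneg (fun i _ => le_max_right _ _)] at h6
        exact h6 i (Finset.mem_univ i)
      have h7 := le_max_left (c i) 0
      have h8 := le_max_left (-c i) 0
      rw [h4] at h7
      rw [h5] at h8
      show c i = 0
      linarith
    · exact h
  refine ⟨fun i => max (c i) 0 / P, fun i => max (-c i) 0 / P, fun i => by positivity,
    fun i => by positivity, fun i => ?_, ?_, ?_, ?_⟩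
  · rcases le_total 0 (c i) with h | h
    · simp [max_eq_right (show -c i ≤ 0 by linarith)]
    · simp [max_eq_right h]
  · rw [← Finset.sum_div, ← hP, div_self hPpos.ne']
  · rw [← Finset.sum_div, hN, div_self hPpos.ne']
  · rw [← sub_eq_zero, ← Finset.sum_sub_distrib]
    have h9 : ∀ i, (max (c i) 0 / P) • x i - (max (-c i) 0 / P) • x i = P⁻¹ • (c i • x i) := by
      intro i
      rw [← sub_smul, smul_smul]
      congr 1
      rcases le_total 0 (c i) with h | h
      · rw [max_eq_left h, max_eq_right (by linarith)]; ring
      · rw [max_eq_right h, max_eq_left (by linarith)]; ring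
    simp_rw [h9]
    rw [← Finset.smul_sum, h1, smul_zero]

end Pool.Agent.J4.H93.D3
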