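import Pool.Agent.J4.H93.D3.Defs

set_option autoImplicit false

open Filter Topology Finset

namespace Pool.Agent.J4.H93.D3

/-- the energy in terms of the inner products -/
theorem riesz_eq (h3 : S_PT) {d : ℕ} {s : ℝ} (hs : 0 < s) {x : Fin (d + 3) → E (d + 1)}
    (hx : IsConf d x) :
    (2:ℝ)^(s/2) * riesz s x = ∑ i, ∑ j ∈ univ.erase i, (1 - inner ℝ (x i) (x j))^(-(s/2)) := by
  obtain ⟨hinj, hu⟩ := hx
  unfold riesz
  rw [mul_sum]
  refine sum_congr rfl fun i _ => ?_
  rw [mul_sum]
  refine sum_congr rfl fun j hj => ?_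
  have hij : x i ≠ x j := fun h => (ne_of_mem_erase hj) (hinj h).symm
  exact (h3 _ s (x i) (x j) hs (hu i) (hu j) hij).1

theorem exp_le_term (h3 : S_PT) {d : ℕ} {s : ℝ} (hs : 0 < s) {x : Fin (d + 3) → E (d + 1)}
    (hx : IsConf d x) {i j : Fin (d + 3)} (hij : i ≠ j) :
    Real.exp (s / 2 * inner ℝ (x i) (x j)) ≤ (1 - inner ℝ (x i) (x j))^(-(s/2)) := by
  obtain ⟨hinj, hu⟩ := hx
  have hij' : x i ≠ x j := fun h => hij (hinj h)
  exact (h3 _ s (x i) (x j) hs (hu i) (hu j) hij').2.2

theorem t_LOW (h1 : S_KER) (h2 : S_ZZ) (h3 : S_PT) : S_LOW := by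
  intro d s hs x hx
  rw [riesz_eq h3 hs hx]
  have hexp : ∀ i j, i ≠ j → Real.exp (s/2 * inner ℝ (x i) (x j)) ≤
      (1 - inner ℝ (x i) (x j))^(-(s/2)) := fun i j hij => exp_le_term h3 hs hx hij
  obtain ⟨hinj, hu⟩ := hx
  have hT : ∑ i, ∑ j ∈ univ.erase i, Real.exp (s/2 * inner ℝ (x i) (x j)) ≤
      ∑ i, ∑ j ∈ univ.erase i, (1 - inner ℝ (x i) (x j))^(-(s/2)) := by
    refine sum_le_sum fun i _ => sum_le_sum fun j hj => ?_
    exact hexp i j (ne_of_mem_erase hj).symm
  refine le_trans ?_ hT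
  clear hT hexp
  set η := 4 * Real.log 2 / s with hηd
  have hlog : 0 < Real.log 2 := Real.log_pos (by norm_num)
  have hη : 0 < η := by positivity
  have hsq : 0 ≤ Real.sqrt η := Real.sqrt_nonneg _
  have hle8 : 8 / (1 + Real.sqrt η) ^ 2 ≤ 8 := by
    apply div_le_self (by norm_num)
    nlinarith
  by_cases hcase : ∃ i j, i ≠ j ∧ η < inner ℝ (x i) (x j)
  · obtain ⟨i, j, hij, hlt⟩ := hcase
    refine le_trans hle8 ?_
    have he4 : ∀ i j, η < inner ℝ (x i) (x j) → 4 ≤ Real.exp (s/2 * inner ℝ (x i) (x j)) := by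
      intro i j hlt
      have h1 : Real.log 4 ≤ s/2 * inner ℝ (x i) (x j) := by
        have : s / 2 * η ≤ s/2 * inner ℝ (x i) (x j) := by
          apply mul_le_mul_of_nonneg_left hlt.le (by positivity)
        have h4 : Real.log 4 = 2 * Real.log 2 := by
          rw [show (4:ℝ) = 2 ^ 2 by norm_num, Real.log_pow]; push_cast; ring
        have h5 : s / 2 * η = 2 * Real.log 2 := by
          rw [hηd]; field_simp; ring
        linarith
      calc (4:ℝ) = Real.exp (Real.log 4) := (Real.exp_log (by norm_num)).symm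
        _ ≤ _ := Real.exp_le_exp.mpr h1
    have hi : ∀ i j, i ≠ j → η < inner ℝ (x i) (x j) →
        4 ≤ ∑ j ∈ univ.erase i, Real.exp (s/2 * inner ℝ (x i) (x j)) := by
      intro i j hij hlt
      refine le_trans (he4 i j hlt) ?_
      exact single_le_sum (f := fun j => Real.exp (s/2 * inner ℝ (x i) (x j)))
        (fun k _ => (Real.exp_pos _).le) (mem_erase.mpr ⟨hij.symm, mem_univ _⟩)
    have hji : η < inner ℝ (x j) (x i) := by rw [real_inner_comm]; exact hlt
    have h2 : ∑ k ∈ ({i, j} : Finset (Fin (d+3))), ∑ l ∈ univ.erase k,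
        Real.exp (s/2 * inner ℝ (x k) (x l)) ≤
        ∑ k, ∑ l ∈ univ.erase k, Real.exp (s/2 * inner ℝ (x k) (x l)) := by
      refine sum_le_sum_of_subset_of_nonneg (subset_univ _) fun k _ _ => ?_
      exact sum_nonneg fun l _ => (Real.exp_pos _).le
    rw [sum_pair hij] at h2
    have := hi i j hij hlt
    have := hi j i hij.symm hji
    linarith
  · push Not at hcase
    obtain ⟨a, b, ha, hb, hab, hsa, hsb, hz⟩ := h1 d x
    obtain ⟨hzz, hM⟩ := h2 (d + 3) (d + 1) x a b hu ha hb hsa hsb hz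
    set z := ∑ i, a i • x i with hzd
    have hzle : ‖z‖ ^ 2 ≤ η := by
      rw [hzz]
      have h4 : ∑ i, ∑ j, a i * b j * inner ℝ (x i) (x j) ≤ ∑ i, ∑ j, a i * b j * η := by
        refine sum_le_sum fun i _ => sum_le_sum fun j _ => ?_
        by_cases hij : i = j
        · subst hij
          rw [hab i]; simp
        · exact mul_le_mul_of_nonneg_left (hcase i j hij) (mul_nonneg (ha i) (hb j))
      have h5 : ∑ i, ∑ j, a i * b j * η = η := by
        have : ∀ i, ∑ j, a i * b j * η = a i * η := by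
          intro i
          rw [← sum_mul, ← mul_sum, hsb, mul_one]
        simp_rw [this]
        rw [← sum_mul, hsa, one_mul]
      linarith
    have hznorm : ‖z‖ ≤ Real.sqrt η := Real.le_sqrt_of_sq_le hzle
    set M := (1 + Real.sqrt η) / 2 with hMd
    have hMpos : 0 < M := by positivity
    have haM : ∀ i, a i ≤ M := fun i => le_trans (hM i).1 (by rw [hMd]; linarith)
    have hbM : ∀ i, b i ≤ M := fun i => le_trans (hM i).2 (by rw [hMd]; linarith)
    have hw : ∀ i j, a i * b j + b i * a j ≤ M ^ 2 := by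
      intro i j
      rcases mul_eq_zero.mp (hab i) with h | h
      · rw [h, zero_mul, zero_add, sq]
        exact mul_le_mul (hbM i) (haM j) (ha j) hMpos.le
      · rw [h, zero_mul, add_zero, sq]
        exact mul_le_mul (haM i) (hbM j) (hb j) hMpos.le
    have hF : ∀ i j, 1 + s/2 * inner ℝ (x i) (x j) ≤ Real.exp (s/2 * inner ℝ (x i) (x j)) := by
      intro i j
      have := Real.add_one_le_exp (s/2 * inner ℝ (x i) (x j))
      linarith
    -- the two weighted sums
    have hW1 : ∑ i, ∑ j, a i * b j * (1 + s/2 * inner ℝ (x i) (x j)) = 1 + s/2 * ‖z‖^2 := by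
      rw [hzz]
      have h6 : ∀ i, ∑ j, a i * b j * (1 + s/2 * inner ℝ (x i) (x j)) =
          a i + s/2 * ∑ j, a i * b j * inner ℝ (x i) (x j) := by
        intro i
        have : ∑ j, a i * b j = a i := by rw [← mul_sum, hsb, mul_one]
        rw [mul_sum]
        nth_rewrite 2 [← this]
        rw [← sum_add_distrib]
        refine sum_congr rfl fun j _ => ?_
        ring
      simp_rw [h6]
      rw [sum_add_distrib, hsa, ← mul_sum]
    have hW2 : ∑ i, ∑ j, b i * a j * (1 + s/2 * inner ℝ (x i) (x j)) = 1 + s/2 * ‖z‖^2 := by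
      rw [← hW1, sum_comm]
      refine sum_congr rfl fun i _ => sum_congr rfl fun j _ => ?_
      rw [real_inner_comm (x i) (x j)]
      ring
    have hdrop : ∀ i, ∑ j, (a i * b j + b i * a j) * (1 + s/2 * inner ℝ (x i) (x j)) =
        ∑ j ∈ univ.erase i, (a i * b j + b i * a j) * (1 + s/2 * inner ℝ (x i) (x j)) := by
      intro i
      rw [← add_sum_erase univ _ (mem_univ i)]
      have : a i * b i + b i * a i = 0 := by rw [mul_comm (b i) (a i), hab i]; simp
      rw [this]; simp
    have hmain : 2 * (1 + s/2 * ‖z‖^2) ≤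
        M ^ 2 * ∑ i, ∑ j ∈ univ.erase i, Real.exp (s/2 * inner ℝ (x i) (x j)) := by
      have h7 : 2 * (1 + s/2 * ‖z‖^2) =
          ∑ i, ∑ j, (a i * b j + b i * a j) * (1 + s/2 * inner ℝ (x i) (x j)) := by
        have : ∑ i, ∑ j, (a i * b j + b i * a j) * (1 + s/2 * inner ℝ (x i) (x j)) =
          (∑ i, ∑ j, a i * b j * (1 + s/2 * inner ℝ (x i) (x j))) +
          ∑ i, ∑ j, b i * a j * (1 + s/2 * inner ℝ (x i) (x j)) := by
          rw [← sum_add_distrib]
          refine sum_congr rfl fun i _ => ?_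
          rw [← sum_add_distrib]
          refine sum_congr rfl fun j _ => ?_
          ring
        rw [this, hW1, hW2]; ring
      rw [h7, mul_sum]
      refine sum_le_sum fun i _ => ?_
      rw [hdrop i, mul_sum]
      refine sum_le_sum fun j _ => ?_
      have hw0 : 0 ≤ a i * b j + b i * a j :=
        add_nonneg (mul_nonneg (ha i) (hb j)) (mul_nonneg (hb i) (ha j))
      calc (a i * b j + b i * a j) * (1 + s/2 * inner ℝ (x i) (x j))
          ≤ (a i * b j + b i * a j) * Real.exp (s/2 * inner ℝ (x i) (x j)) :=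
            mul_le_mul_of_nonneg_left (hF i j) hw0
        _ ≤ M ^ 2 * Real.exp (s/2 * inner ℝ (x i) (x j)) :=
            mul_le_mul_of_nonneg_right (hw i j) (Real.exp_pos _).le
    have hM2 : 8 / (1 + Real.sqrt η) ^ 2 = 2 / M ^ 2 := by
      rw [hMd]; field_simp; ring
    rw [hM2, div_le_iff₀ (by positivity)]
    have hz0 : 0 ≤ s/2 * ‖z‖^2 := by positivity
    nlinarith
 
end Pool.Agent.J4.H93.D3
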