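import Pool.Agent.J4.H93.D3.Defs

set_option autoImplicit false

open Filter Topology

namespace Pool.Agent.J4.H93.D3

theorem t_PT : S_PT := by
  intro n s x y hs hx hy hxy
  have h1 : ‖x - y‖ ^ 2 = 2 * (1 - inner ℝ x y) := by
    rw [@norm_sub_sq ℝ, hx, hy]
    simp only [RCLike.re_to_real]
    ring
  have h2 : 0 < ‖x - y‖ := norm_pos_iff.2 (sub_ne_zero.2 hxy)
  have h3 : inner ℝ x y < 1 := by
    have : 0 < ‖x - y‖ ^ 2 := by positivity
    linarith
  have h4 : (0 : ℝ) < 1 - inner ℝ x y := by linarith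
  refine ⟨?_, h3, ?_⟩
  · have h5 : ‖x - y‖ ^ (-s) = (2 * (1 - inner ℝ x y)) ^ (-(s / 2)) := by
      rw [← h1, ← Real.rpow_natCast, ← Real.rpow_mul h2.le]
      congr 1
      push_cast
      ring
    rw [h5, Real.mul_rpow (by norm_num) h4.le, ← mul_assoc, ← Real.rpow_add (by norm_num),
      add_neg_cancel, Real.rpow_zero, one_mul]
  · have h6 : 1 - inner ℝ x y ≤ Real.exp (-inner ℝ x y) := by
      have := Real.add_one_le_exp (-(inner ℝ x y : ℝ))
      linarith
    calc Real.exp (s / 2 * inner ℝ x y) = (Real.exp (-inner ℝ x y)) ^ (-(s / 2)) := by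
          rw [← Real.exp_mul]
          congr 1
          ring
      _ ≤ (1 - inner ℝ x y) ^ (-(s / 2)) :=
          Real.rpow_le_rpow_of_nonpos h4 h6 (by linarith)

end Pool.Agent.J4.H93.D3
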