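import Pool.Agent.J4.H93.D3.Defs

/-! Project D3, piece ZZ. -/

set_option autoImplicit false

open Filter Topology

namespace Pool.Agent.J4.H93.D3

namespace ZZ

theorem coef_le {N n : ℕ} (x : Fin N → E n) (a : Fin N → ℝ) (hx : ∀ i, ‖x i‖ = 1)
    (ha : ∀ i, 0 ≤ a i) (hs : ∑ i, a i = 1) (i : Fin N) :
    a i ≤ (1 + ‖∑ i, a i • x i‖) / 2 := by
  classical
  have h1 : a i • x i = ∑ j, a j • x j - ∑ j ∈ Finset.univ.erase i, a j • x j := by
    rw [← Finset.add_sum_erase Finset.univ (fun j => a j • x j) (Finset.mem_univ i)]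
    simp
  have h2 : ‖a i • x i‖ = a i := by
    rw [norm_smul, hx, mul_one, Real.norm_of_nonneg (ha i)]
  have h3 : ‖∑ j ∈ Finset.univ.erase i, a j • x j‖ ≤ ∑ j ∈ Finset.univ.erase i, a j := by
    refine (norm_sum_le _ _).trans (le_of_eq (Finset.sum_congr rfl fun j _ => ?_))
    rw [norm_smul, hx, mul_one, Real.norm_of_nonneg (ha j)]
  have h4 : a i + ∑ j ∈ Finset.univ.erase i, a j = 1 := by
    rw [Finset.add_sum_erase Finset.univ a (Finset.mem_univ i), hs]
  have h5 : ‖a i • x i‖ ≤ ‖∑ j, a j • x j‖ + ‖∑ j ∈ Finset.univ.erase i, a j • x j‖ := by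
    rw [h1]
    exact norm_sub_le _ _
  rw [h2] at h5
  linarith

end ZZ

theorem t_ZZ : S_ZZ := by
  intro N n x a b hx ha hb hsa hsb hz
  refine ⟨?_, fun i => ⟨ZZ.coef_le x a hx ha hsa i, ?_⟩⟩
  · rw [← real_inner_self_eq_norm_sq]
    conv_lhs => rw [hz]
    conv_lhs => rw [← hz]
    have h1 : inner ℝ (∑ i, a i • x i) (∑ i, a i • x i) =
        inner ℝ (∑ i, a i • x i) (∑ i, b i • x i) := by rw [hz]
    rw [h1, sum_inner]
    refine Finset.sum_congr rfl fun i _ => ?_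
    rw [inner_sum]
    refine Finset.sum_congr rfl fun j _ => ?_
    rw [real_inner_smul_left, real_inner_smul_right]
    ring
  · rw [hz]
    exact ZZ.coef_le x b hx hb hsb i

end Pool.Agent.J4.H93.D3
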