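import Pool.Agent.J4.H93.D3.Fin
import Pool.Agent.J4.H93.D3.T_KER
import Pool.Agent.J4.H93.D3.T_ZZ
import Pool.Agent.J4.H93.D3.T_PT
import Pool.Agent.J4.H93.D3.T_LOW
import Pool.Agent.J4.H93.D3.T_CFG
import Pool.Agent.J4.H93.D3.T_FIN
import Pool.Agent.J4.H93.D3.T_COR

set_option autoImplicit false

open Filter Topology

namespace Pool.Agent.J4.H93.D3

theorem upp : S_UPP := t_FIN t_PT t_CFG

theorem low : S_LOW := t_LOW t_KER t_ZZ t_PT

end Pool.Agent.J4.H93.D3
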