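import Mathlib

/-!
# Project D3: minimal Riesz energy of `d+3` points on the `d`-sphere for large exponents

Definitions and the statements of the pieces.
-/

set_option autoImplicit false

open Filter Topology

namespace Pool.Agent.J4.H93.D3

/-- Euclidean space -/
abbrev E (n : ℕ) := EuclideanSpace ℝ (Fin n)

/-- the Riesz `s`-energy of a configuration (sum over ordered pairs of different indices) -/
noncomputable def riesz {N n : ℕ} (s : ℝ) (x : Fin N → E n) : ℝ :=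
  ∑ i, ∑ j ∈ Finset.univ.erase i, ‖x i - x j‖ ^ (-s)

/-- configurations of `d+3` distinct points on the unit sphere of `ℝ^(d+1)` -/
def IsConf (d : ℕ) (x : Fin (d + 3) → E (d + 1)) : Prop :=
  Function.Injective x ∧ ∀ i, ‖x i‖ = 1

/-- minimisers of the Riesz `s`-energy among the configurations of `d+3` points -/
def IsMin (d : ℕ) (s : ℝ) (x : Fin (d + 3) → E (d + 1)) : Prop :=
  IsConf d x ∧ ∀ y, IsConf d y → riesz s x ≤ riesz s y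

/-- up to `ε`, the configuration contains `p, -p, q, -q` with `p ⟂ q`, and all its other points
are orthogonal to `p` and to `q`, with pairwise nonpositive inner products -/
def Near (d : ℕ) (ε : ℝ) (x : Fin (d + 3) → E (d + 1)) : Prop :=
  (∀ k l, k ≠ l → inner ℝ (x k) (x l) ≤ ε) ∧
  ∃ i i' j j' : Fin (d + 3), i ≠ i' ∧ j ≠ j' ∧ i ≠ j ∧ i ≠ j' ∧ i' ≠ j ∧ i' ≠ j' ∧
    ‖x i + x i'‖ ≤ ε ∧ ‖x j + x j'‖ ≤ ε ∧ |inner ℝ (x i) (x j)| ≤ ε ∧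
    ∀ k, k ≠ i → k ≠ i' → k ≠ j → k ≠ j' → |inner ℝ (x k) (x i)| ≤ ε ∧ |inner ℝ (x k) (x j)| ≤ ε

/-! ### pieces -/

/-- KER: `d+3` vectors in `ℝ^(d+1)` have a linear relation with coefficient sum zero; `a`, `b`
its positive and negative parts, normalised. -/
def S_KER : Prop := ∀ (d : ℕ) (x : Fin (d + 3) → E (d + 1)),
  ∃ a b : Fin (d + 3) → ℝ, (∀ i, 0 ≤ a i) ∧ (∀ i, 0 ≤ b i) ∧ (∀ i, a i * b i = 0) ∧
    ∑ i, a i = 1 ∧ ∑ i, b i = 1 ∧ ∑ i, a i • x i = ∑ i, b i • x i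

/-- ZZ: `z = ∑ a x = ∑ b x`: `|z|² = ∑∑ a b ⟨x_i, x_j⟩`, and `a, b ≤ (1+|z|)/2`
(`a_i x_i = z - ∑_{j≠i} a_j x_j`). -/
def S_ZZ : Prop := ∀ (N n : ℕ) (x : Fin N → E n) (a b : Fin N → ℝ), (∀ i, ‖x i‖ = 1) →
  (∀ i, 0 ≤ a i) → (∀ i, 0 ≤ b i) → ∑ i, a i = 1 → ∑ i, b i = 1 →
  ∑ i, a i • x i = ∑ i, b i • x i →
  ‖∑ i, a i • x i‖ ^ 2 = ∑ i, ∑ j, a i * b j * inner ℝ (x i) (x j) ∧
  ∀ i, a i ≤ (1 + ‖∑ i, a i • x i‖) / 2 ∧ b i ≤ (1 + ‖∑ i, a i • x i‖) / 2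

/-- PT: one term: `2^(s/2) |x-y|^(-s) = (1-⟨x,y⟩)^(-s/2)`. -/
def S_PT : Prop := ∀ (n : ℕ) (s : ℝ) (x y : E n), 0 < s → ‖x‖ = 1 → ‖y‖ = 1 → x ≠ y →
  (2 : ℝ) ^ (s / 2) * ‖x - y‖ ^ (-s) = (1 - inner ℝ x y) ^ (-(s / 2)) ∧
  inner ℝ x y < 1 ∧
  Real.exp (s / 2 * inner ℝ x y) ≤ (1 - inner ℝ x y) ^ (-(s / 2))

/-- LOW: the lower bound for all `s` and all configurations. -/
def S_LOW : Prop := ∀ (d : ℕ) (s : ℝ), 0 < s → ∀ x, IsConf d x →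
  8 / (1 + Real.sqrt (4 * Real.log 2 / s)) ^ 2 ≤ 2 ^ (s / 2) * riesz s x

/-- the eight ordered pairs between `{0,1}` and `{2,3}` -/
def Sp (i j : ℕ) : Prop := (i < 2 ∧ 2 ≤ j ∧ j < 4) ∨ (j < 2 ∧ 2 ≤ i ∧ i < 4)

/-- CFG: configurations `±α e₁ - t u`, `±α e₂ - t u`, `y₁, …, y_{d-1}` where `y_j` are fixed unit
vectors of `span(e₃, …, e_{d+1})` with negative inner products and `⟨u, y_j⟩ > 0`
(e.g. `u = ∑ e_j`, `y_j` = normalised `e_j - τ u`, `τ = 1/(2d)`), `α² = 1 - t² |u|²`. -/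
def S_CFG : Prop := ∀ d : ℕ, 1 ≤ d → ∃ c C t0 : ℝ, 0 < c ∧ 0 < C ∧ 0 < t0 ∧ C * t0 ^ 2 < 1 ∧
  ∀ t : ℝ, 0 < t → t ≤ t0 → ∃ x : Fin (d + 3) → E (d + 1), (∀ i, ‖x i‖ = 1) ∧
    (∀ i j : Fin (d + 3), i ≠ j → ¬ Sp i j → inner ℝ (x i) (x j) ≤ -c * t) ∧
    (∀ i j : Fin (d + 3), Sp i j → inner ℝ (x i) (x j) ≤ C * t ^ 2)

/-- the upper bound -/
def S_UPP : Prop := ∀ d : ℕ, 1 ≤ d → ∀ ε : ℝ, 0 < ε → ∃ S : ℝ, 0 < S ∧ ∀ s, S ≤ s →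
  ∃ x, IsConf d x ∧ 2 ^ (s / 2) * riesz s x ≤ 8 + ε

/-- FIN: `t = s^(-3/4)`: the eight special pairs give at most `8 (1-C t²)^(-s/2) → 8`, the others
at most `(d+3)² (1+c t)^(-s/2) → 0`. -/
def S_FIN : Prop := S_PT → S_CFG → S_UPP

/-- LIM: the limit of almost minimisers. Proof: KER for `X k`, `a_k, b_k` (compactness: along a
subsequence) `→ a, b`; all inner products of the limit are `≤ 0` (else the energy tends to
infinity), so `|z|² ≤ 0`, `z = 0`, `a, b ≤ 1/2`. With `w = a_i b_j`, `F = exp(s/2 ⟨x_i,x_j⟩)`,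
`M = (1+|z_k|)/2`: `∑ w F ≥ 1` and `2 ∑_{ij: w > 0} F ≤ 8+δ_k`; `w ≤ M²`; so
`(M² - w_ij) F_ij ≤ M² (4+δ_k/2) - 1 → 0`; and `w_ij log F_ij ≥ -log 9` (as `∑ w log F ≥ 0`,
`F ≤ 9`), so in the limit `a_i b_j = 0` or `= 1/4`: `a = (1_i + 1_i')/2`, `b = (1_j + 1_j')/2`,
`z = 0` gives `x_i' = -x_i`, `x_j' = -x_j`, and nonpositive inner products with `±p, ±q`
are zero. -/
def S_LIM : Prop := ∀ (d : ℕ) (s δ : ℕ → ℝ) (X : ℕ → Fin (d + 3) → E (d + 1))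
  (x : Fin (d + 3) → E (d + 1)), (∀ k, 0 < s k) → Tendsto s atTop atTop → Tendsto δ atTop (𝓝 0) →
  (∀ k, IsConf d (X k)) → (∀ k, 2 ^ (s k / 2) * riesz (s k) (X k) ≤ 8 + δ k) →
  Tendsto X atTop (𝓝 x) → Near d 0 x

/-- CPT: from LIM by compactness of the product of the spheres (by contradiction; `Near d 0 x`
for the limit gives `Near d ε (X k)` for large `k`: all conditions are continuous). -/
def S_STR : Prop := ∀ (d : ℕ) (ε : ℝ), 0 < ε → ∃ S δ : ℝ, 0 < S ∧ 0 < δ ∧ ∀ s, S ≤ s → ∀ x,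
  IsConf d x → 2 ^ (s / 2) * riesz s x ≤ 8 + δ → Near d ε x

/-- COR: for `d ≥ 2` no configuration is a minimiser for arbitrarily large `s`: by UPP and STR
(`ε → 0`) it would satisfy `Near d 0 x`; with a fifth point, at least 16 ordered pairs are
orthogonal and `2^(s/2) riesz s x ≥ 16`, a contradiction to UPP. -/
def S_COR : Prop := ∀ d : ℕ, 2 ≤ d → ∀ x, ∃ S : ℝ, ∀ s, S ≤ s → ¬ IsMin d s x

end Pool.Agent.J4.H93.D3
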