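import Pool.Agent.J4.H93.D3.Defs

/-!
# Project D3: the remaining pairs of points
-/

set_option autoImplicit false

open Filter Topology

namespace Pool.Agent.J4.H93.D3

/-- the ordered pairs between `{i, i'}` and `{j, j'}` -/
def Four {N : ℕ} (i i' j j' k l : Fin N) : Prop :=
  ((k = i ∨ k = i') ∧ (l = j ∨ l = j')) ∨ ((k = j ∨ k = j') ∧ (l = i ∨ l = i'))

open Classical in
/-- the part of the energy that comes from all the other pairs -/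
noncomputable def rest {N n : ℕ} (i i' j j' : Fin N) (s : ℝ) (x : Fin N → E n) : ℝ :=
  ∑ k, ∑ l ∈ Finset.univ.erase k, if Four i i' j j' k l then 0 else ‖x k - x l‖ ^ (-s)

/-- the exact structure of the limit -/
def Shape (d : ℕ) (i i' j j' : Fin (d + 3)) (ε : ℝ) (x : Fin (d + 3) → E (d + 1)) : Prop :=
  (∀ k l, k ≠ l → inner ℝ (x k) (x l) ≤ ε) ∧
  i ≠ i' ∧ j ≠ j' ∧ i ≠ j ∧ i ≠ j' ∧ i' ≠ j ∧ i' ≠ j' ∧
    ‖x i + x i'‖ ≤ ε ∧ ‖x j + x j'‖ ≤ ε ∧ |inner ℝ (x i) (x j)| ≤ ε ∧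
    ∀ k, k ≠ i → k ≠ i' → k ≠ j → k ≠ j' → |inner ℝ (x k) (x i)| ≤ ε ∧ |inner ℝ (x k) (x j)| ≤ ε

/-- LIM2: as LIM, and along a subsequence the normalised energy of all the other pairs tends to
zero: `∑ a_k b_l F_kl ≥ 1` with `a_k b_l → 1/4` on the four pairs and `→ 0` on the others (`F ≤ 9`),
so the four pairs have `∑ F ≥ 4 - o(1)` and the others at most `δ + o(1)`. -/
def S_LIM2 : Prop := ∀ (d : ℕ) (s δ : ℕ → ℝ) (X : ℕ → Fin (d + 3) → E (d + 1))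
  (x : Fin (d + 3) → E (d + 1)), (∀ k, 0 < s k) → Tendsto s atTop atTop → Tendsto δ atTop (𝓝 0) →
  (∀ k, IsConf d (X k)) → (∀ k, 2 ^ (s k / 2) * riesz (s k) (X k) ≤ 8 + δ k) →
  Tendsto X atTop (𝓝 x) → ∃ i i' j j' : Fin (d + 3), Shape d i i' j j' 0 x ∧
    ∃ φ : ℕ → ℕ, StrictMono φ ∧
      Tendsto (fun k => 2 ^ (s (φ k) / 2) * rest i i' j j' (s (φ k)) (X (φ k))) atTop (𝓝 0)

/-- STR2: for large `s` almost minimisers have the shape, the other pairs contribute at most `ε`,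
and all the other distances are larger than `√2`. -/
def S_STR2 : Prop := ∀ (d : ℕ) (ε : ℝ), 0 < ε → ∃ S δ : ℝ, 0 < S ∧ 0 < δ ∧ ∀ s, S ≤ s → ∀ x,
  IsConf d x → 2 ^ (s / 2) * riesz s x ≤ 8 + δ → ∃ i i' j j' : Fin (d + 3),
    Shape d i i' j j' ε x ∧ 2 ^ (s / 2) * rest i i' j j' s x ≤ ε ∧
    ∀ k l, k ≠ l → ¬ Four i i' j j' k l → Real.sqrt 2 < ‖x k - x l‖

end Pool.Agent.J4.H93.D3
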