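import Pool.Agent.J4.H93.D3.Defs2

/-!
# Project D3, round 2: the second order term and the full limit shape
-/

set_option autoImplicit false

open Filter Topology

namespace Pool.Agent.J4.H93.D3

/-- MM: `τ m ≤ |⟨z, ∑ y⟩| ≤ |z| |∑ y|`, `|∑ y|² = m - σ`, `m²/(m-σ) ≥ m + σ`. -/
def S_MM : Prop := ∀ (N n : ℕ) (x : Fin N → E n) (Y : Finset (Fin N)) (z : E n) (τ : ℝ), 0 < τ →
  (∀ l, ‖x l‖ = 1) → (∀ l ∈ Y, inner ℝ z (x l) ≤ -τ) →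
  (∀ k ∈ Y, ∀ l ∈ Y, k ≠ l → inner ℝ (x k) (x l) ≤ 0) →
  τ ^ 2 * ((Y.card : ℝ) + ∑ k ∈ Y, ∑ l ∈ Y.erase k, |inner ℝ (x k) (x l)|) ≤ ‖z‖ ^ 2

/-- the indices of the other points -/
def oth {N : ℕ} (i i' j j' : Fin N) : Finset (Fin N) := Finset.univ \ {i, i', j, j'}

/-- sum of the absolute values of the inner products between the other points -/
noncomputable def sig {N n : ℕ} (i i' j j' : Fin N) (x : Fin N → E n) : ℝ :=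
  ∑ k ∈ oth i i' j j', ∑ l ∈ (oth i i' j j').erase k, |inner ℝ (x k) (x l)|

/-- LOWZ: the proof of `LOW` gives `T ≥ 8 (1+s|z|²/2)/(1+|z|)²`; for an other point `x_l`, `a_l = 0`
or `b_l = 0`, hence `⟨z, x_l⟩ = ∑ a_i ⟨x_i, x_l⟩ ≤ -τ` (or with `b`); then MM, `u = |z|`,
`card (oth) = d - 1`. -/
def S_LOWZ : Prop := ∀ (d : ℕ) (s τ : ℝ), 0 < s → 0 < τ → ∀ x, IsConf d x →
  ∀ i i' j j' : Fin (d + 3), i ≠ i' → j ≠ j' → i ≠ j → i ≠ j' → i' ≠ j → i' ≠ j' →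
  (∀ k l, k ≠ l → ¬ Four i i' j j' k l → inner ℝ (x k) (x l) ≤ -τ) →
  ∃ u : ℝ, 0 ≤ u ∧ 8 * (1 + s * u ^ 2 / 2) / (1 + u) ^ 2 ≤ 2 ^ (s / 2) * riesz s x ∧
    τ ^ 2 * (((d : ℝ) - 1) + sig i i' j j' x) ≤ u ^ 2

/-- the bound for the other pairs -/
noncomputable def tau (C s : ℝ) : ℝ := 2 / s * (Real.log s - 2 * Real.log (Real.log s) - C)

/-- TAU: STR2 with a small `ε₀ ≤ ε`; KER for `x`; `∑ a_k b_l ⟨x_k,x_l⟩ = |z|² ≥ 0`, where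
`⟨x_k,x_l⟩ ≤ (2/s) log 9` on the four pairs and `≤ -(2/s) log (1/ε₀)` on the others, so
`a_k b_l ≤ log 9/log(1/ε₀) ≤ 1/16` on the others; with `M = (1+|z|)/2`,
`M² T/2 ≥ 1 + (s/2)|z|² + ∑_{others} (M² - w) F` (unordered pairs; `w = a_k b_l + a_l b_k`), so
`F/8 ≤ M²(4 + (K/2) (log s)²/s) - 1 - (s/2)|z|² ≤ C' (log s)²/s` on the others. -/
def S_TAU : Prop := ∀ (d : ℕ) (K ε : ℝ), 0 < K → 0 < ε → ∃ S C : ℝ, 0 < S ∧ ∀ s, S ≤ s → ∀ x,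
  IsConf d x → 2 ^ (s / 2) * riesz s x ≤ 8 + K * (Real.log s) ^ 2 / s →
  ∃ i i' j j' : Fin (d + 3), Shape d i i' j j' ε x ∧ 2 ^ (s / 2) * rest i i' j j' s x ≤ ε ∧
    (∀ k l, k ≠ l → ¬ Four i i' j j' k l → Real.sqrt 2 < ‖x k - x l‖) ∧
    ∀ k l, k ≠ l → ¬ Four i i' j j' k l → inner ℝ (x k) (x l) ≤ -tau C s

/-- CFG2: as CFG with the vectors `±α e₁ - t u`, `±α e₂ - t u`, `u = e₃ + … + e_{d+1}`,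
`y_j = (e_j - t (u - e_j)) / norm`. -/
def S_CFG2 : Prop := ∀ d : ℕ, 1 ≤ d → ∃ C t0 : ℝ, 0 < C ∧ 0 < t0 ∧ C * t0 ≤ 1 / 2 ∧
  (d : ℝ) * t0 ^ 2 ≤ 1 / 2 ∧
  ∀ t : ℝ, 0 < t → t ≤ t0 → ∃ x : Fin (d + 3) → E (d + 1), (∀ i, ‖x i‖ = 1) ∧
    (∀ i j : Fin (d + 3), i ≠ j → ¬ Sp i j → inner ℝ (x i) (x j) ≤ -(t * (1 - C * t))) ∧
    (∀ i j : Fin (d + 3), Sp i j → inner ℝ (x i) (x j) ≤ ((d : ℝ) - 1) * t ^ 2)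

/-- UPP2 (from PT and CFG2 with `t = (2+ε') log s / s`) -/
def S_UPP2 : Prop := ∀ d : ℕ, 1 ≤ d → ∀ ε : ℝ, 0 < ε → ∃ S : ℝ, 0 < S ∧ ∀ s, S ≤ s →
  ∃ x, IsConf d x ∧
    2 ^ (s / 2) * riesz s x ≤ 8 + (16 * ((d : ℝ) - 1) + ε) * (Real.log s) ^ 2 / s

/-- FIN2: `8 (1-m t²)^(-s/2) + (d+3)² (1+t(1-Ct))^(-s/2)` with `t = (2+ε') log s / s`. -/
def S_FIN2 : Prop := S_PT → S_CFG2 → S_UPP2

/-- ORT: real analysis. `u ≥ τ √m`, so `s u → ∞` and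
`s u²/2 (1-o(1)) ≤ (1+u)² (1 + (2m+δ/8) (log s)²/s) - 1` etc. -/
def S_ORT : Prop := ∀ m C ε : ℝ, 1 ≤ m → 0 < ε → ∃ S δ : ℝ, 0 < S ∧ 0 < δ ∧ ∀ s, S ≤ s →
  0 < tau C s ∧
  ∀ u σ T : ℝ, 0 ≤ u → 0 ≤ σ → tau C s ^ 2 * (m + σ) ≤ u ^ 2 →
    8 * (1 + s * u ^ 2 / 2) / (1 + u) ^ 2 ≤ T → T ≤ 8 + (16 * m + δ) * (Real.log s) ^ 2 / s →
    σ ≤ ε ∧ 8 + (16 * m - ε) * (Real.log s) ^ 2 / s ≤ T

end Pool.Agent.J4.H93.D3
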