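import Pool.Agent.J4.H93.D3.Defs2

set_option autoImplicit false

open Filter Topology

namespace Pool.Agent.J4.H93.D3

/-- the minimal Riesz `s`-energy of `d+3` points on the `d`-sphere -/
noncomputable def Emin (d : ℕ) (s : ℝ) : ℝ :=
  sInf {e : ℝ | ∃ x : Fin (d + 3) → E (d + 1), IsConf d x ∧ e = riesz s x}

theorem riesz_nonneg {N n : ℕ} (s : ℝ) (x : Fin N → E n) : 0 ≤ riesz s x :=
  Finset.sum_nonneg fun _ _ => Finset.sum_nonneg fun _ _ => Real.rpow_nonneg (norm_nonneg _) _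

theorem emin_tendsto (hL : S_LOW) (hU : S_UPP) (d : ℕ) (hd : 1 ≤ d) :
    Tendsto (fun s : ℝ => (2:ℝ) ^ (s / 2) * Emin d s) atTop (𝓝 8) := by
  have hbdd : ∀ s : ℝ, BddBelow {e : ℝ | ∃ x : Fin (d + 3) → E (d + 1), IsConf d x ∧ e = riesz s x} := by
    intro s
    refine ⟨0, ?_⟩
    rintro e ⟨x, -, rfl⟩
    exact riesz_nonneg s x
  have hlow : Tendsto (fun s : ℝ => 8 / (1 + Real.sqrt (4 * Real.log 2 / s)) ^ 2) atTop (𝓝 8) := by
    have h1 : Tendsto (fun s : ℝ => 4 * Real.log 2 / s) atTop (𝓝 0) :=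
      tendsto_const_nhds.div_atTop tendsto_id
    have h2 : Tendsto (fun s : ℝ => Real.sqrt (4 * Real.log 2 / s)) atTop (𝓝 0) := by
      have := (Real.continuous_sqrt.tendsto 0).comp h1
      rw [Real.sqrt_zero] at this
      exact this
    have h3 : Tendsto (fun s : ℝ => 8 / (1 + Real.sqrt (4 * Real.log 2 / s)) ^ 2) atTop
        (𝓝 (8 / (1 + 0) ^ 2)) :=
      tendsto_const_nhds.div ((tendsto_const_nhds.add h2).pow 2) (by norm_num)
    simpa using h3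
  refine tendsto_order.2 ⟨fun a ha => ?_, fun a ha => ?_⟩
  · obtain ⟨S, hS, hUS⟩ := hU d hd 1 one_pos
    filter_upwards [hlow.eventually (lt_mem_nhds ha), eventually_gt_atTop (0:ℝ),
      eventually_ge_atTop S] with s h1 h2 h3
    refine lt_of_lt_of_le h1 ?_
    obtain ⟨x0, hx0, -⟩ := hUS s h3
    have hpos : (0:ℝ) < 2 ^ (s/2) := Real.rpow_pos_of_pos (by norm_num) _
    have h5 : 8 / (1 + Real.sqrt (4 * Real.log 2 / s)) ^ 2 / 2 ^ (s/2) ≤ Emin d s := by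
      refine le_csInf ⟨_, x0, hx0, rfl⟩ ?_
      rintro e ⟨x, hx, rfl⟩
      rw [div_le_iff₀ hpos]
      have h6 := hL d s h2 x hx
      linarith
    rw [div_le_iff₀ hpos] at h5
    linarith
  · obtain ⟨S, hS, hUS⟩ := hU d hd ((a - 8) / 2) (by linarith)
    filter_upwards [eventually_ge_atTop S] with s h3
    obtain ⟨x0, hx0, h4⟩ := hUS s h3
    have hpos : (0:ℝ) < 2 ^ (s/2) := Real.rpow_pos_of_pos (by norm_num) _
    have h5 : Emin d s ≤ riesz s x0 := csInf_le (hbdd s) ⟨x0, hx0, rfl⟩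
    have h6 := mul_le_mul_of_nonneg_left h5 hpos.le
    linarith

/-- `LIM` follows from `LIM2`. -/
theorem lim_of_lim2 (h : S_LIM2) : S_LIM := by
  intro d s δ X x h1 h2 h3 h4 h5 h6
  obtain ⟨i, i', j, j', hS, -⟩ := h d s δ X x h1 h2 h3 h4 h5 h6
  exact ⟨hS.1, i, i', j, j', hS.2⟩

theorem near_of_shape {d : ℕ} {ε : ℝ} {x : Fin (d + 3) → E (d + 1)} {i i' j j' : Fin (d + 3)}
    (h : Shape d i i' j j' ε x) : Near d ε x := ⟨h.1, i, i', j, j', h.2⟩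

theorem str_of_str2 (h : S_STR2) : S_STR := by
  intro d ε hε
  obtain ⟨S, δ, hS, hδ, hh⟩ := h d ε hε
  refine ⟨S, δ, hS, hδ, fun s hs x hx hE => ?_⟩
  obtain ⟨i, i', j, j', hsh, -⟩ := hh s hs x hx hE
  exact near_of_shape hsh

/-- minimisers, from `STR2` -/
theorem min_str2 (hU : S_UPP) (hST : S_STR2) (d : ℕ) (hd : 1 ≤ d) (ε : ℝ) (hε : 0 < ε) :
    ∃ S : ℝ, 0 < S ∧ ∀ s, S ≤ s → ∀ x, IsMin d s x → ∃ i i' j j' : Fin (d + 3),
      Shape d i i' j j' ε x ∧ 2 ^ (s / 2) * rest i i' j j' s x ≤ ε ∧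
      ∀ k l, k ≠ l → ¬ Four i i' j j' k l → Real.sqrt 2 < ‖x k - x l‖ := by
  obtain ⟨S1, δ, hS1, hδ, hh⟩ := hST d ε hε
  obtain ⟨S2, hS2, hUS⟩ := hU d hd δ hδ
  refine ⟨max S1 S2, lt_max_of_lt_left hS1, fun s hs x hx => ?_⟩
  obtain ⟨y, hy, hyE⟩ := hUS s (le_trans (le_max_right _ _) hs)
  have hpos : (0:ℝ) < 2 ^ (s/2) := Real.rpow_pos_of_pos (by norm_num) _
  exact hh s (le_trans (le_max_left _ _) hs) x hx.1
    (le_trans (mul_le_mul_of_nonneg_left (hx.2 y hy) hpos.le) hyE)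

/-- minimisers, from `STR` -/
theorem min_str (hU : S_UPP) (hST : S_STR) (d : ℕ) (hd : 1 ≤ d) (ε : ℝ) (hε : 0 < ε) :
    ∃ S : ℝ, 0 < S ∧ ∀ s, S ≤ s → ∀ x, IsMin d s x → Near d ε x := by
  obtain ⟨S1, δ, hS1, hδ, hh⟩ := hST d ε hε
  obtain ⟨S2, hS2, hUS⟩ := hU d hd δ hδ
  refine ⟨max S1 S2, lt_max_of_lt_left hS1, fun s hs x hx => ?_⟩
  obtain ⟨y, hy, hyE⟩ := hUS s (le_trans (le_max_right _ _) hs)
  have hpos : (0:ℝ) < 2 ^ (s/2) := Real.rpow_pos_of_pos (by norm_num) _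
  exact hh s (le_trans (le_max_left _ _) hs) x hx.1
    (le_trans (mul_le_mul_of_nonneg_left (hx.2 y hy) hpos.le) hyE)

end Pool.Agent.J4.H93.D3
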