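import Pool.Agent.J4.H93.D3.Defs

/-! Project D3, piece CPT: compactness. -/

set_option autoImplicit false

open Filter Topology

namespace Pool.Agent.J4.H93.D3

namespace CPT

theorem ev_le {X : Type} [TopologicalSpace X] {Y : ℕ → X} {x : X} (hY : Tendsto Y atTop (𝓝 x))
    {g : X → ℝ} (hg : Continuous g) {ε : ℝ} (hε : 0 < ε) (hx : g x ≤ 0) :
    ∀ᶠ k in atTop, g (Y k) ≤ ε := by
  have h1 : Tendsto (fun k => g (Y k)) atTop (𝓝 (g x)) := (hg.tendsto x).comp hY
  filter_upwards [h1.eventually (gt_mem_nhds (lt_of_le_of_lt hx hε))] with k hk using hk.le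

theorem near_ev {d : ℕ} {ε : ℝ} (hε : 0 < ε) {Y : ℕ → Fin (d + 3) → E (d + 1)}
    {x : Fin (d + 3) → E (d + 1)} (hY : Tendsto Y atTop (𝓝 x)) (hx : Near d 0 x) :
    ∀ᶠ k in atTop, Near d ε (Y k) := by
  obtain ⟨h1, i, i', j, j', n1, n2, n3, n4, n5, n6, h2, h3, h4, h5⟩ := hx
  have e1 : ∀ᶠ m in atTop, ∀ k l, k ≠ l → inner ℝ (Y m k) (Y m l) ≤ ε := by
    rw [eventually_all]
    intro k
    rw [eventually_all]
    intro l
    by_cases hkl : k = l
    · exact Eventually.of_forall fun m h => absurd hkl h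
    · refine (ev_le hY (g := fun y => inner ℝ (y k) (y l)) ?_ hε (h1 k l hkl)).mono fun m hm _ => hm
      exact (continuous_apply k).inner (continuous_apply l)
  have e2 := ev_le hY (g := fun y => ‖y i + y i'‖)
    (((continuous_apply i).add (continuous_apply i')).norm) hε h2
  have e3 := ev_le hY (g := fun y => ‖y j + y j'‖)
    (((continuous_apply j).add (continuous_apply j')).norm) hε h3
  have e4 := ev_le hY (g := fun y => |inner ℝ (y i) (y j)|)
    (((continuous_apply i).inner (𝕜 := ℝ) (continuous_apply j)).abs) hε h4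
  have e5 : ∀ᶠ m in atTop, ∀ k, k ≠ i → k ≠ i' → k ≠ j → k ≠ j' →
      |inner ℝ (Y m k) (Y m i)| ≤ ε ∧ |inner ℝ (Y m k) (Y m j)| ≤ ε := by
    rw [eventually_all]
    intro k
    by_cases hk : k ≠ i ∧ k ≠ i' ∧ k ≠ j ∧ k ≠ j'
    · obtain ⟨a1, a2, a3, a4⟩ := hk
      obtain ⟨b1, b2⟩ := h5 k a1 a2 a3 a4
      have f1 := ev_le hY (g := fun y => |inner ℝ (y k) (y i)|)
        (((continuous_apply k).inner (𝕜 := ℝ) (continuous_apply i)).abs) hε b1
      have f2 := ev_le hY (g := fun y => |inner ℝ (y k) (y j)|)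
        (((continuous_apply k).inner (𝕜 := ℝ) (continuous_apply j)).abs) hε b2
      filter_upwards [f1, f2] with m g1 g2 _ _ _ _ using ⟨g1, g2⟩
    · exact Eventually.of_forall fun m a1 a2 a3 a4 => absurd ⟨a1, a2, a3, a4⟩ hk
  filter_upwards [e1, e2, e3, e4, e5] with m f1 f2 f3 f4 f5
  exact ⟨f1, i, i', j, j', n1, n2, n3, n4, n5, n6, f2, f3, f4, f5⟩

end CPT

theorem t_CPT (hL : S_LIM) : S_STR := by
  intro d ε hε
  by_contra hcon
  push Not at hcon
  have hk : ∀ k : ℕ, ∃ (s : ℝ) (x : Fin (d + 3) → E (d + 1)), (k : ℝ) + 1 ≤ s ∧ IsConf d x ∧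
      2 ^ (s / 2) * riesz s x ≤ 8 + 1 / ((k : ℝ) + 1) ∧ ¬ Near d ε x := by
    intro k
    obtain ⟨s, hs, x, hx, h1, h2⟩ := hcon ((k : ℝ) + 1) (1 / ((k : ℝ) + 1)) (by positivity)
      (by positivity)
    exact ⟨s, x, hs, hx, h1, h2⟩
  choose s X hs hX hE hN using hk
  have hcomp : IsCompact (Set.pi Set.univ fun _ : Fin (d + 3) =>
      Metric.closedBall (0 : E (d + 1)) 1) :=
    isCompact_univ_pi fun _ => isCompact_closedBall _ _
  obtain ⟨x, -, φ, hφ, hlim⟩ := hcomp.tendsto_subseq (x := X) (fun k => by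
    rw [Set.mem_univ_pi]
    intro i
    rw [mem_closedBall_zero_iff, (hX k).2 i])
  have hst : Tendsto s atTop atTop :=
    tendsto_atTop_mono hs (tendsto_natCast_atTop_atTop.atTop_add tendsto_const_nhds)
  have hnear : Near d 0 x := hL d (fun k => s (φ k)) (fun k => 1 / (((φ k : ℕ) : ℝ) + 1))
    (fun k => X (φ k)) x (fun k => lt_of_lt_of_le (by positivity) (hs (φ k)))
    (hst.comp hφ.tendsto_atTop)
    (tendsto_one_div_add_atTop_nhds_zero_nat.comp hφ.tendsto_atTop)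
    (fun k => hX (φ k)) (fun k => hE (φ k)) hlim
  obtain ⟨k, hk⟩ := (CPT.near_ev hε hlim hnear).exists
  exact hN (φ k) hk

end Pool.Agent.J4.H93.D3
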