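import Pool.Agent.J4.H93.D3.Defs2
import Pool.Agent.J4.H93.D3.T_CPT

/-! Project D3, piece CPT2: compactness, with the remaining pairs. -/

set_option autoImplicit false

open Filter Topology

namespace Pool.Agent.J4.H93.D3

namespace CPT2

open CPT

theorem shape_ev {d : ℕ} {ε : ℝ} (hε : 0 < ε) {Y : ℕ → Fin (d + 3) → E (d + 1)}
    {x : Fin (d + 3) → E (d + 1)} (hY : Tendsto Y atTop (𝓝 x)) {i i' j j' : Fin (d + 3)}
    (hx : Shape d i i' j j' 0 x) : ∀ᶠ k in atTop, Shape d i i' j j' ε (Y k) := by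
  obtain ⟨h1, n1, n2, n3, n4, n5, n6, h2, h3, h4, h5⟩ := hx
  have e1 : ∀ᶠ m in atTop, ∀ k l, k ≠ l → inner ℝ (Y m k) (Y m l) ≤ ε := by
    rw [eventually_all]
    intro k
    rw [eventually_all]
    intro l
    by_cases hkl : k = l
    · exact Eventually.of_forall fun m h => absurd hkl h
    · refine (ev_le hY (g := fun y => inner ℝ (y k) (y l)) ?_ hε (h1 k l hkl)).mono fun m hm _ => hm
      exact (continuous_apply k).inner (continuous_apply l)
  have e2 := ev_le hY (g := fun y => ‖y i + y i'‖)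
    (((continuous_apply i).add (continuous_apply i')).norm) hε h2
  have e3 := ev_le hY (g := fun y => ‖y j + y j'‖)
    (((continuous_apply j).add (continuous_apply j')).norm) hε h3
  have e4 := ev_le hY (g := fun y => |inner ℝ (y i) (y j)|)
    (((continuous_apply i).inner (𝕜 := ℝ) (continuous_apply j)).abs) hε h4
  have e5 : ∀ᶠ m in atTop, ∀ k, k ≠ i → k ≠ i' → k ≠ j → k ≠ j' →
      |inner ℝ (Y m k) (Y m i)| ≤ ε ∧ |inner ℝ (Y m k) (Y m j)| ≤ ε := by
    rw [eventually_all]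
    intro k
    by_cases hk : k ≠ i ∧ k ≠ i' ∧ k ≠ j ∧ k ≠ j'
    · obtain ⟨a1, a2, a3, a4⟩ := hk
      obtain ⟨b1, b2⟩ := h5 k a1 a2 a3 a4
      have f1 := ev_le hY (g := fun y => |inner ℝ (y k) (y i)|)
        (((continuous_apply k).inner (𝕜 := ℝ) (continuous_apply i)).abs) hε b1
      have f2 := ev_le hY (g := fun y => |inner ℝ (y k) (y j)|)
        (((continuous_apply k).inner (𝕜 := ℝ) (continuous_apply j)).abs) hε b2
      filter_upwards [f1, f2] with m g1 g2 _ _ _ _ using ⟨g1, g2⟩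
    · exact Eventually.of_forall fun m a1 a2 a3 a4 => absurd ⟨a1, a2, a3, a4⟩ hk
  filter_upwards [e1, e2, e3, e4, e5] with m f1 f2 f3 f4 f5
  exact ⟨f1, n1, n2, n3, n4, n5, n6, f2, f3, f4, f5⟩

theorem far {N n : ℕ} {i i' j j' : Fin N} {s : ℝ} (hs : 0 < s) {x : Fin N → E n}
    (hinj : Function.Injective x) (h : 2 ^ (s / 2) * rest i i' j j' s x ≤ 1 / 2) {k l : Fin N}
    (hkl : k ≠ l) (hF : ¬ Four i i' j j' k l) : Real.sqrt 2 < ‖x k - x l‖ := by
  classical
  by_contra hcon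
  push Not at hcon
  have hpos : 0 < ‖x k - x l‖ := norm_pos_iff.mpr (sub_ne_zero.mpr fun h => hkl (hinj h))
  have h1 : ‖x k - x l‖ ^ (-s) ≤ rest i i' j j' s x := by
    unfold rest
    have hin : ∀ k' l' : Fin N, 0 ≤ (if Four i i' j j' k' l' then (0 : ℝ) else ‖x k' - x l'‖ ^ (-s)) := by
      intro k' l'
      split_ifs
      · exact le_rfl
      · exact Real.rpow_nonneg (norm_nonneg _) _
    calc ‖x k - x l‖ ^ (-s) = (if Four i i' j j' k l then (0 : ℝ) else ‖x k - x l‖ ^ (-s)) := by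
          rw [if_neg hF]
      _ ≤ ∑ l' ∈ Finset.univ.erase k,
            (if Four i i' j j' k l' then (0 : ℝ) else ‖x k - x l'‖ ^ (-s)) :=
          Finset.single_le_sum (f := fun l' =>
            (if Four i i' j j' k l' then (0 : ℝ) else ‖x k - x l'‖ ^ (-s)))
            (fun l' _ => hin k l') (Finset.mem_erase.mpr ⟨hkl.symm, Finset.mem_univ _⟩)
      _ ≤ _ := Finset.single_le_sum (f := fun k' => ∑ l' ∈ Finset.univ.erase k',
            (if Four i i' j j' k' l' then (0 : ℝ) else ‖x k' - x l'‖ ^ (-s)))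
            (fun k' _ => Finset.sum_nonneg fun l' _ => hin k' l') (Finset.mem_univ k)
  have h2 : (Real.sqrt 2) ^ (-s) ≤ ‖x k - x l‖ ^ (-s) :=
    Real.rpow_le_rpow_of_nonpos hpos hcon (by linarith)
  have h3 : (2 : ℝ) ^ (s / 2) * (Real.sqrt 2) ^ (-s) = 1 := by
    rw [Real.sqrt_eq_rpow, ← Real.rpow_mul (by norm_num), ← Real.rpow_add (by norm_num)]
    rw [show s / 2 + 1 / 2 * -s = 0 by ring, Real.rpow_zero]
  have h4 : (0 : ℝ) < 2 ^ (s / 2) := Real.rpow_pos_of_pos (by norm_num) _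
  have h5 : (2 : ℝ) ^ (s / 2) * (Real.sqrt 2) ^ (-s) ≤ 2 ^ (s / 2) * rest i i' j j' s x :=
    mul_le_mul_of_nonneg_left (h2.trans h1) h4.le
  rw [h3] at h5
  linarith

end CPT2

theorem t_CPT2 (hL : S_LIM2) (_h3 : S_PT) : S_STR2 := by
  intro d ε hε
  by_contra hcon
  push Not at hcon
  have hk : ∀ k : ℕ, ∃ (s : ℝ) (x : Fin (d + 3) → E (d + 1)), (k : ℝ) + 1 ≤ s ∧ IsConf d x ∧
      2 ^ (s / 2) * riesz s x ≤ 8 + 1 / ((k : ℝ) + 1) ∧
      ∀ i i' j j' : Fin (d + 3), Shape d i i' j j' ε x → 2 ^ (s / 2) * rest i i' j j' s x ≤ ε →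
        ∃ k l, k ≠ l ∧ ¬ Four i i' j j' k l ∧ ‖x k - x l‖ ≤ Real.sqrt 2 := by
    intro k
    obtain ⟨s, hs, x, hx, h1, h2⟩ := hcon ((k : ℝ) + 1) (1 / ((k : ℝ) + 1)) (by positivity)
      (by positivity)
    exact ⟨s, x, hs, hx, h1, h2⟩
  choose s X hs hX hE hN using hk
  have hcomp : IsCompact (Set.pi Set.univ fun _ : Fin (d + 3) =>
      Metric.closedBall (0 : E (d + 1)) 1) :=
    isCompact_univ_pi fun _ => isCompact_closedBall _ _
  obtain ⟨x, -, φ, hφ, hlim⟩ := hcomp.tendsto_subseq (x := X) (fun k => by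
    rw [Set.mem_univ_pi]
    intro i
    rw [mem_closedBall_zero_iff, (hX k).2 i])
  have hst : Tendsto s atTop atTop :=
    tendsto_atTop_mono hs (tendsto_natCast_atTop_atTop.atTop_add tendsto_const_nhds)
  obtain ⟨i, i', j, j', hsh, ψ, hψ, hrest⟩ := hL d (fun k => s (φ k))
    (fun k => 1 / (((φ k : ℕ) : ℝ) + 1))
    (fun k => X (φ k)) x (fun k => lt_of_lt_of_le (by positivity) (hs (φ k)))
    (hst.comp hφ.tendsto_atTop)
    (tendsto_one_div_add_atTop_nhds_zero_nat.comp hφ.tendsto_atTop)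
    (fun k => hX (φ k)) (fun k => hE (φ k)) hlim
  have e1 := CPT2.shape_ev hε (hlim.comp hψ.tendsto_atTop) hsh
  have e2 := hrest.eventually (gt_mem_nhds (show (0 : ℝ) < min ε (1 / 2) by positivity))
  obtain ⟨m, g1, g2⟩ := (e1.and e2).exists
  have g3 : 2 ^ (s (φ (ψ m)) / 2) * rest i i' j j' (s (φ (ψ m))) (X (φ (ψ m))) < min ε (1 / 2) := g2
  obtain ⟨k, l, hkl, hF, hd⟩ := hN (φ (ψ m)) i i' j j' g1 (g3.le.trans (min_le_left _ _))
  have h5 := CPT2.far (lt_of_lt_of_le (by positivity) (hs (φ (ψ m)))) (hX (φ (ψ m))).1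
    (g3.le.trans (min_le_right _ _)) hkl hF
  linarith

end Pool.Agent.J4.H93.D3
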