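import Pool.Agent.J4.H93.D3.Defs

set_option autoImplicit false

open Filter Topology

namespace Pool.Agent.J4.H93.D3

namespace Lim

theorem single_le {N : ℕ} (f : Fin N → Fin N → ℝ) (hf : ∀ i j, 0 ≤ f i j) (i j : Fin N) :
    f i j ≤ ∑ i, ∑ j, f i j :=
  (Finset.single_le_sum (f := fun j => f i j) (fun j _ => hf i j) (Finset.mem_univ j)).trans
    (Finset.single_le_sum (f := fun i => ∑ j, f i j)
      (fun i _ => Finset.sum_nonneg fun j _ => hf i j) (Finset.mem_univ i))

/-- the inequalities for one configuration -/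
theorem level (hK : S_KER) (hZ : S_ZZ) (hP : S_PT) (d : ℕ) (s δ C : ℝ) (hs : 0 < s)
    (X : Fin (d + 3) → E (d + 1)) (hX : IsConf d X)
    (hE : 2 ^ (s / 2) * riesz s X ≤ 8 + δ) (hC : 8 + δ ≤ C) (hC1 : 1 ≤ C) :
    ∃ a b : Fin (d + 3) → ℝ, (∀ i, 0 ≤ a i) ∧ (∀ i, 0 ≤ b i) ∧ (∀ i, a i * b i = 0) ∧
      ∑ i, a i = 1 ∧ ∑ i, b i = 1 ∧ ∑ i, a i • X i = ∑ i, b i • X i ∧
      (∀ i j, i ≠ j → s / 2 * inner ℝ (X i) (X j) ≤ Real.log C) ∧
      (∀ i, a i ≤ (1 + ‖∑ i, a i • X i‖) / 2) ∧ (∀ i, b i ≤ (1 + ‖∑ i, a i • X i‖) / 2) ∧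
      ‖∑ i, a i • X i‖ ^ 2 = ∑ i, ∑ j, a i * b j * inner ℝ (X i) (X j) ∧
      (∀ i j, 0 < a i * b j →
        (((1 + ‖∑ i, a i • X i‖) / 2) ^ 2 - a i * b j) * Real.exp (s / 2 * inner ℝ (X i) (X j)) ≤
          ((1 + ‖∑ i, a i • X i‖) / 2) ^ 2 * (4 + δ / 2) - 1) ∧
      (∀ i j, 0 < a i * b j → -Real.log C ≤ a i * b j * (s / 2 * inner ℝ (X i) (X j))) := by
  obtain ⟨a, b, ha, hb, hab, hsa, hsb, hrel⟩ := hK d X
  obtain ⟨hz2, hM⟩ := hZ (d + 3) (d + 1) X a b hX.2 ha hb hsa hsb hrel
  set z : ℝ := ‖∑ i, a i • X i‖ with hz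
  have hz0 : 0 ≤ z := norm_nonneg _
  set M : ℝ := (1 + z) / 2 with hMdef
  have hM0 : 0 ≤ M := by rw [hMdef]; linarith
  set G : Fin (d + 3) → Fin (d + 3) → ℝ := fun i j => Real.exp (s / 2 * inner ℝ (X i) (X j))
    with hG
  have hG0 : ∀ i j, 0 < G i j := fun i j => Real.exp_pos _
  have hGsym : ∀ i j, G i j = G j i := by
    intro i j
    simp only [hG]
    rw [real_inner_comm]
  -- the energy
  set T : ℝ := ∑ i, ∑ j, (if i = j then 0 else G i j) with hT
  have hT8 : T ≤ 8 + δ := by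
    refine le_trans ?_ hE
    rw [riesz, Finset.mul_sum, hT]
    refine Finset.sum_le_sum fun i _ => ?_
    rw [Finset.mul_sum]
    have h1 : ∑ j, (if i = j then 0 else G i j) =
        ∑ j ∈ Finset.univ.erase i, (if i = j then 0 else G i j) := by
      rw [Finset.sum_erase]
      simp
    rw [h1]
    refine Finset.sum_le_sum fun j hj => ?_
    have hne : j ≠ i := (Finset.mem_erase.1 hj).1
    rw [if_neg (fun h => hne h.symm)]
    have hxy : X i ≠ X j := fun h => hne (hX.1 h).symm
    obtain ⟨p1, _, p3⟩ := hP (d + 1) s (X i) (X j) hs (hX.2 i) (hX.2 j) hxy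
    rw [p1]
    exact p3
  have hij : ∀ i j, 0 < a i * b j → i ≠ j := by
    rintro i j h rfl
    rw [hab i] at h
    exact lt_irrefl _ h
  have hGT : ∀ i j, i ≠ j → G i j ≤ T := by
    intro i j hne
    have := single_le (fun i j => if i = j then 0 else G i j)
      (fun i j => by by_cases h : i = j <;> simp [h, (hG0 i j).le]) i j
    simpa [hne] using this
  have hlog : ∀ i j, i ≠ j → s / 2 * inner ℝ (X i) (X j) ≤ Real.log C := by
    intro i j hne
    have h1 : Real.exp (s / 2 * inner ℝ (X i) (X j)) ≤ C := ((hGT i j hne).trans hT8).trans hC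
    rw [Real.le_log_iff_exp_le (by linarith)]
    exact h1
  have hwnn : ∀ i j, 0 ≤ a i * b j := fun i j => mul_nonneg (ha i) (hb j)
  have hwM : ∀ i j, a i * b j ≤ M ^ 2 := by
    intro i j
    rw [sq]
    exact mul_le_mul (hM i).1 (hM j).2 (hb j) hM0
  have hw1 : ∑ i, ∑ j, a i * b j = 1 := by
    rw [← Finset.sum_mul_sum, hsa, hsb, one_mul]
  have hwt : ∑ i, ∑ j, a i * b j * (s / 2 * inner ℝ (X i) (X j)) = s / 2 * z ^ 2 := by
    rw [hz2, Finset.mul_sum]
    refine Finset.sum_congr rfl fun i _ => ?_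
    rw [Finset.mul_sum]
    refine Finset.sum_congr rfl fun j _ => ?_
    ring
  have hsz : 0 ≤ s / 2 * z ^ 2 := by positivity
  -- `∑ w F ≥ 1`
  have hwG : 1 ≤ ∑ i, ∑ j, a i * b j * G i j := by
    calc (1 : ℝ) ≤ 1 + s / 2 * z ^ 2 := by linarith
      _ = ∑ i, ∑ j, (a i * b j + a i * b j * (s / 2 * inner ℝ (X i) (X j))) := by
          simp only [Finset.sum_add_distrib]
          rw [hw1, hwt]
      _ ≤ _ := by
          refine Finset.sum_le_sum fun i _ => Finset.sum_le_sum fun j _ => ?_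
          have := Real.add_one_le_exp (s / 2 * inner ℝ (X i) (X j))
          have h2 := mul_le_mul_of_nonneg_left this (hwnn i j)
          simp only [hG]
          linarith
  -- `2 ∑_{w > 0} F ≤ T`
  set S1 : ℝ := ∑ i, ∑ j, (if 0 < a i * b j then G i j else 0) with hS1
  have hS1' : S1 = ∑ i, ∑ j, (if 0 < a j * b i then G i j else 0) := by
    rw [hS1, Finset.sum_comm]
    refine Finset.sum_congr rfl fun i _ => Finset.sum_congr rfl fun j _ => ?_
    rw [hGsym j i]
  have h2S : 2 * S1 ≤ T := by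
    calc 2 * S1 = S1 + S1 := by ring
      _ = ∑ i, ∑ j, ((if 0 < a i * b j then G i j else 0) +
          (if 0 < a j * b i then G i j else 0)) := by
          simp only [Finset.sum_add_distrib]
          rw [← hS1, ← hS1']
      _ ≤ T := by
          rw [hT]
          refine Finset.sum_le_sum fun i _ => Finset.sum_le_sum fun j _ => ?_
          by_cases h1 : 0 < a i * b j
          · have hne := hij i j h1
            have h2 : ¬ 0 < a j * b i := by
              intro h2
              have hai : 0 < a i := by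
                rcases (ha i).lt_or_eq with h | h
                · exact h
                · rw [← h, zero_mul] at h1; exact absurd h1 (lt_irrefl _)
              have hbi : 0 < b i := by
                rcases (hb i).lt_or_eq with h | h
                · exact h
                · rw [← h, mul_zero] at h2; exact absurd h2 (lt_irrefl _)
              have := mul_pos hai hbi
              rw [hab i] at this
              exact lt_irrefl _ this
            rw [if_pos h1, if_neg h2, if_neg hne, add_zero]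
          · rw [if_neg h1, zero_add]
            by_cases h2 : 0 < a j * b i
            · have hne := hij j i h2
              rw [if_pos h2, if_neg hne.symm]
            · rw [if_neg h2]
              by_cases h : i = j
              · rw [if_pos h]
              · rw [if_neg h]; exact (hG0 i j).le
  refine ⟨a, b, ha, hb, hab, hsa, hsb, hrel, hlog, fun i => (hM i).1, fun i => (hM i).2, hz2,
    ?_, ?_⟩
  · intro i0 j0 h0
    set f : Fin (d + 3) → Fin (d + 3) → ℝ :=
      fun i j => if 0 < a i * b j then (M ^ 2 - a i * b j) * G i j else 0 with hf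
    have hf0 : ∀ i j, 0 ≤ f i j := by
      intro i j
      simp only [hf]
      split_ifs
      · exact mul_nonneg (sub_nonneg.2 (hwM i j)) (hG0 i j).le
      · exact le_rfl
    have h1 := single_le f hf0 i0 j0
    have h2 : f i0 j0 = (M ^ 2 - a i0 * b j0) * G i0 j0 := by simp only [hf]; rw [if_pos h0]
    rw [h2] at h1
    have h3 : ∑ i, ∑ j, f i j = M ^ 2 * S1 - ∑ i, ∑ j, a i * b j * G i j := by
      rw [hS1, Finset.mul_sum, ← Finset.sum_sub_distrib]
      refine Finset.sum_congr rfl fun i _ => ?_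
      rw [Finset.mul_sum, ← Finset.sum_sub_distrib]
      refine Finset.sum_congr rfl fun j _ => ?_
      simp only [hf]
      by_cases h : 0 < a i * b j
      · rw [if_pos h, if_pos h]; ring
      · rw [if_neg h, if_neg h]
        have : a i * b j = 0 := le_antisymm (not_lt.1 h) (hwnn i j)
        rw [this]; ring
    have h4 : M ^ 2 * S1 ≤ M ^ 2 * (4 + δ / 2) :=
      mul_le_mul_of_nonneg_left (by linarith) (sq_nonneg M)
    have h5 : (M ^ 2 - a i0 * b j0) * G i0 j0 ≤ M ^ 2 * (4 + δ / 2) - 1 := by linarith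
    exact h5
  · intro i0 j0 h0
    set f : Fin (d + 3) → Fin (d + 3) → ℝ :=
      fun i j => a i * b j * (Real.log C - s / 2 * inner ℝ (X i) (X j)) with hf
    have hf0 : ∀ i j, 0 ≤ f i j := by
      intro i j
      simp only [hf]
      by_cases h : 0 < a i * b j
      · exact mul_nonneg (hwnn i j) (sub_nonneg.2 (hlog i j (hij i j h)))
      · have : a i * b j = 0 := le_antisymm (not_lt.1 h) (hwnn i j)
        rw [this, zero_mul]
    have h1 := single_le f hf0 i0 j0
    have h3 : ∑ i, ∑ j, f i j = Real.log C - s / 2 * z ^ 2 := by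
      rw [← hwt, ← one_mul (Real.log C), ← hw1, Finset.sum_mul, ← Finset.sum_sub_distrib]
      refine Finset.sum_congr rfl fun i _ => ?_
      rw [Finset.sum_mul, ← Finset.sum_sub_distrib]
      refine Finset.sum_congr rfl fun j _ => ?_
      simp only [hf]
      ring
    rw [h3] at h1
    simp only [hf] at h1
    have hlC : 0 ≤ Real.log C := Real.log_nonneg hC1
    have h5 : 0 ≤ a i0 * b j0 * Real.log C := mul_nonneg (hwnn _ _) hlC
    nlinarith [h1, h5, hsz]

end Lim

theorem t_LIM (hK : S_KER) (hZ : S_ZZ) (hP : S_PT) : S_LIM := by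
  intro d s δ X x hs hsT hδ hX hE hXx
  -- bound
  obtain ⟨C0, hC0⟩ := hδ.bddAbove_range
  set C : ℝ := max (8 + C0) 1 with hCdef
  have hC : ∀ k, 8 + δ k ≤ C := fun k =>
    le_trans (by have := hC0 (Set.mem_range_self k); linarith) (le_max_left _ _)
  have hC1 : 1 ≤ C := le_max_right _ _
  have hlC : 0 ≤ Real.log C := Real.log_nonneg hC1
  choose A B hA hB hAB hsA hsB hrel hlog hAM hBM hz2 hMw hwl using fun k =>
    Lim.level hK hZ hP d (s k) (δ k) C (hs k) (X k) (hX k) (hE k) (hC k) hC1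
  have hA1 : ∀ k i, A k i ≤ 1 := by
    intro k i
    rw [← hsA k]
    exact Finset.single_le_sum (fun j _ => hA k j) (Finset.mem_univ i)
  have hB1 : ∀ k i, B k i ≤ 1 := by
    intro k i
    rw [← hsB k]
    exact Finset.single_le_sum (fun j _ => hB k j) (Finset.mem_univ i)
  have hcomp : IsCompact ((Set.univ.pi fun _ : Fin (d + 3) => Set.Icc (0 : ℝ) 1) ×ˢ
      (Set.univ.pi fun _ : Fin (d + 3) => Set.Icc (0 : ℝ) 1)) :=
    (isCompact_univ_pi fun _ => isCompact_Icc).prod (isCompact_univ_pi fun _ => isCompact_Icc)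
  obtain ⟨ab, -, φ, hφ, hlim⟩ := hcomp.tendsto_subseq (x := fun k => (A k, B k)) (fun k =>
    ⟨fun i _ => ⟨hA k i, hA1 k i⟩, fun i _ => ⟨hB k i, hB1 k i⟩⟩)
  obtain ⟨a, b⟩ := ab
  have ha : ∀ i, Tendsto (fun k => A (φ k) i) atTop (𝓝 (a i)) := by
    have h1 : Tendsto (fun k => A (φ k)) atTop (𝓝 a) :=
      (continuous_fst.tendsto (a, b)).comp hlim
    exact fun i => (tendsto_pi_nhds.1 h1) i
  have hb : ∀ i, Tendsto (fun k => B (φ k) i) atTop (𝓝 (b i)) := by
    have h1 : Tendsto (fun k => B (φ k)) atTop (𝓝 b) :=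
      (continuous_snd.tendsto (a, b)).comp hlim
    exact fun i => (tendsto_pi_nhds.1 h1) i
  have hφT : Tendsto φ atTop atTop := hφ.tendsto_atTop
  have hx : ∀ i, Tendsto (fun k => X (φ k) i) atTop (𝓝 (x i)) := fun i =>
    ((tendsto_pi_nhds.1 hXx) i).comp hφT
  have hs' : Tendsto (fun k => s (φ k)) atTop atTop := hsT.comp hφT
  have hδ' : Tendsto (fun k => δ (φ k)) atTop (𝓝 0) := hδ.comp hφT
  have hin : ∀ i j, Tendsto (fun k => (inner ℝ (X (φ k) i) (X (φ k) j) : ℝ)) atTop
      (𝓝 (inner ℝ (x i) (x j))) := fun i j => (hx i).inner (hx j)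
  -- nonpositive inner products
  have hneg : ∀ i j, i ≠ j → (inner ℝ (x i) (x j) : ℝ) ≤ 0 := by
    intro i j hij
    have h1 : Tendsto (fun k => 2 * Real.log C / s (φ k)) atTop (𝓝 0) :=
      Tendsto.div_atTop tendsto_const_nhds hs'
    refine le_of_tendsto_of_tendsto' (hin i j) h1 fun k => ?_
    have h2 := hlog (φ k) i j hij
    have h3 := hs (φ k)
    rw [le_div_iff₀ h3]
    nlinarith [h2]
  have ha0 : ∀ i, 0 ≤ a i := fun i => ge_of_tendsto' (ha i) fun k => hA (φ k) i
  have hb0 : ∀ i, 0 ≤ b i := fun i => ge_of_tendsto' (hb i) fun k => hB (φ k) i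
  have hab : ∀ i, a i * b i = 0 := by
    intro i
    refine tendsto_nhds_unique ((ha i).mul (hb i)) ?_
    simp only [hAB]
    exact tendsto_const_nhds
  have hsa : ∑ i, a i = 1 := by
    refine tendsto_nhds_unique (tendsto_finsetSum _ fun i _ => ha i) ?_
    simp only [hsA]
    exact tendsto_const_nhds
  have hsb : ∑ i, b i = 1 := by
    refine tendsto_nhds_unique (tendsto_finsetSum _ fun i _ => hb i) ?_
    simp only [hsB]
    exact tendsto_const_nhds
  have hzT : Tendsto (fun k => ∑ i, A (φ k) i • X (φ k) i) atTop (𝓝 (∑ i, a i • x i)) :=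
    tendsto_finsetSum _ fun i _ => (ha i).smul (hx i)
  have hzT' : Tendsto (fun k => ∑ i, A (φ k) i • X (φ k) i) atTop (𝓝 (∑ i, b i • x i)) := by
    have h1 : Tendsto (fun k => ∑ i, B (φ k) i • X (φ k) i) atTop (𝓝 (∑ i, b i • x i)) :=
      tendsto_finsetSum _ fun i _ => (hb i).smul (hx i)
    exact h1.congr fun k => (hrel (φ k)).symm
  have hzab : ∑ i, a i • x i = ∑ i, b i • x i := tendsto_nhds_unique hzT hzT'
  have hzz : ‖∑ i, a i • x i‖ ^ 2 = ∑ i, ∑ j, a i * b j * inner ℝ (x i) (x j) := by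
    refine tendsto_nhds_unique (hzT.norm.pow 2) ?_
    have h1 : Tendsto (fun k => ∑ i, ∑ j, A (φ k) i * B (φ k) j *
        inner ℝ (X (φ k) i) (X (φ k) j)) atTop
        (𝓝 (∑ i, ∑ j, a i * b j * inner ℝ (x i) (x j))) :=
      tendsto_finsetSum _ fun i _ => tendsto_finsetSum _ fun j _ =>
        ((ha i).mul (hb j)).mul (hin i j)
    exact h1.congr fun k => (hz2 (φ k)).symm
  have hz0 : ∑ i, a i • x i = 0 := by
    have h1 : ‖∑ i, a i • x i‖ ^ 2 ≤ 0 := by
      rw [hzz]
      refine Finset.sum_nonpos fun i _ => Finset.sum_nonpos fun j _ => ?_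
      by_cases h : i = j
      · subst h; rw [hab i, zero_mul]
      · exact mul_nonpos_of_nonneg_of_nonpos (mul_nonneg (ha0 i) (hb0 j)) (hneg i j h)
    have h2 : ‖∑ i, a i • x i‖ = 0 := by
      have := sq_nonneg ‖∑ i, a i • x i‖
      exact pow_eq_zero_iff (two_ne_zero) |>.1 (le_antisymm h1 this)
    exact norm_eq_zero.1 h2
  have hzb0 : ∑ i, b i • x i = 0 := hzab ▸ hz0
  have hM : Tendsto (fun k => (1 + ‖∑ i, A (φ k) i • X (φ k) i‖) / 2) atTop (𝓝 (1 / 2)) := by
    have h1 : Tendsto (fun k => (1 + ‖∑ i, A (φ k) i • X (φ k) i‖) / 2) atTop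
        (𝓝 ((1 + ‖∑ i, a i • x i‖) / 2)) := (tendsto_const_nhds.add hzT.norm).div_const 2
    rwa [hz0, norm_zero, add_zero] at h1
  have haM : ∀ i, a i ≤ 1 / 2 := fun i =>
    le_of_tendsto_of_tendsto' (ha i) hM fun k => hAM (φ k) i
  have hbM : ∀ i, b i ≤ 1 / 2 := fun i =>
    le_of_tendsto_of_tendsto' (hb i) hM fun k => hBM (φ k) i
  -- positive weights are `1/4`
  have hquarter : ∀ i j, 0 < a i * b j → 1 / 4 ≤ a i * b j := by
    intro i j hw
    set w : ℝ := a i * b j with hwdef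
    have hwT : Tendsto (fun k => A (φ k) i * B (φ k) j) atTop (𝓝 w) := (ha i).mul (hb j)
    set κ : ℝ := Real.exp (-(Real.log C / (w / 2))) with hκ
    have hκ0 : 0 < κ := Real.exp_pos _
    have hev : ∀ᶠ k in atTop, w / 2 < A (φ k) i * B (φ k) j :=
      hwT.eventually_const_lt (by linarith)
    have hη : Tendsto (fun k => (((1 + ‖∑ i, A (φ k) i • X (φ k) i‖) / 2) ^ 2 *
        (4 + δ (φ k) / 2) - 1) / κ) atTop (𝓝 (((1 / 2) ^ 2 * (4 + 0 / 2) - 1) / κ)) :=
      (((hM.pow 2).mul (tendsto_const_nhds.add (hδ'.div_const 2))).sub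
        tendsto_const_nhds).div_const κ
    have hη0 : (((1 : ℝ) / 2) ^ 2 * (4 + 0 / 2) - 1) / κ = 0 := by norm_num
    rw [hη0] at hη
    have hd : Tendsto (fun k => ((1 + ‖∑ i, A (φ k) i • X (φ k) i‖) / 2) ^ 2 -
        A (φ k) i * B (φ k) j) atTop (𝓝 ((1 / 2) ^ 2 - w)) := (hM.pow 2).sub hwT
    have hle : ((1 : ℝ) / 2) ^ 2 - w ≤ 0 := by
      refine le_of_tendsto_of_tendsto hd hη ?_
      filter_upwards [hev] with k hk
      have hw0 : 0 < A (φ k) i * B (φ k) j := lt_trans (by linarith) hk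
      have h1 := hMw (φ k) i j hw0
      have h2 := hwl (φ k) i j hw0
      set t : ℝ := s (φ k) / 2 * inner ℝ (X (φ k) i) (X (φ k) j) with ht
      have h3 : κ ≤ Real.exp t := by
        rw [hκ]
        refine Real.exp_le_exp.2 ?_
        have h4 : -(Real.log C / (w / 2)) ≤ -(Real.log C / (A (φ k) i * B (φ k) j)) := by
          refine neg_le_neg ?_
          exact div_le_div_of_nonneg_left hlC (by linarith) hk.le
        refine h4.trans ?_
        rw [← neg_div, div_le_iff₀ hw0, mul_comm]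
        exact h2
      rw [le_div_iff₀ hκ0]
      have hMw0 : 0 ≤ ((1 + ‖∑ i, A (φ k) i • X (φ k) i‖) / 2) ^ 2 -
          A (φ k) i * B (φ k) j := by
        have h8 : A (φ k) i * B (φ k) j ≤ ((1 + ‖∑ i, A (φ k) i • X (φ k) i‖) / 2) *
            ((1 + ‖∑ i, A (φ k) i • X (φ k) i‖) / 2) :=
          mul_le_mul (hAM (φ k) i) (hBM (φ k) j) (hB (φ k) j) (by positivity)
        rw [sq]
        linarith
      exact (mul_le_mul_of_nonneg_left h3 hMw0).trans h1
    have : ((1 : ℝ) / 2) ^ 2 = 1 / 4 := by norm_num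
    rw [this] at hle
    linarith
  -- the supports
  have hapos : ∃ i, 0 < a i := by
    by_contra h
    push Not at h
    have : ∑ i, a i ≤ 0 := Finset.sum_nonpos fun i _ => h i
    linarith
  have hbpos : ∃ i, 0 < b i := by
    by_contra h
    push Not at h
    have : ∑ i, b i ≤ 0 := Finset.sum_nonpos fun i _ => h i
    linarith
  obtain ⟨i, hi⟩ := hapos
  obtain ⟨j, hj⟩ := hbpos
  have key : ∀ i j, 0 < a i → 0 < b j → a i = 1 / 2 ∧ b j = 1 / 2 := by
    intro i j h1 h2
    have h3 := hquarter i j (mul_pos h1 h2)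
    have h4 := haM i
    have h5 := hbM j
    constructor
    · nlinarith
    · nlinarith
  have haval : ∀ i, a i = 0 ∨ a i = 1 / 2 := fun i =>
    (ha0 i).eq_or_lt.imp (fun h => h.symm) fun h => (key i j h hj).1
  have hbval : ∀ j, b j = 0 ∨ b j = 1 / 2 := fun j =>
    (hb0 j).eq_or_lt.imp (fun h => h.symm) fun h => (key i j hi h).2
  -- two elements
  have two : ∀ (c : Fin (d + 3) → ℝ), (∀ i, c i = 0 ∨ c i = 1 / 2) → ∑ i, c i = 1 →
      ∑ i, c i • x i = 0 →
      ∃ i i', i ≠ i' ∧ c i = 1 / 2 ∧ c i' = 1 / 2 ∧ x i + x i' = 0 := by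
    intro c hc hc1 hcx
    set s2 : Finset (Fin (d + 3)) := Finset.univ.filter fun i => c i = 1 / 2 with hs2
    have hmem : ∀ i, i ∈ s2 ↔ c i = 1 / 2 := by
      intro i
      simp only [hs2, Finset.mem_filter, Finset.mem_univ, true_and]
    have h1 : ∀ i ∈ (Finset.univ : Finset (Fin (d + 3))), i ∉ s2 → c i = 0 := by
      intro i _ hi
      rcases hc i with h | h
      · exact h
      · exact absurd (hmem i |>.2 h) hi
    have h2 : ∑ i ∈ s2, c i = 1 := by
      rw [← hc1]
      exact Finset.sum_subset (Finset.subset_univ _) fun i hi hni => h1 i hi hni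
    have h3 : ∑ i ∈ s2, c i = s2.card * (1 / 2) := by
      rw [Finset.sum_congr rfl (fun i hi => (hmem i).1 hi), Finset.sum_const, nsmul_eq_mul]
    have h4 : s2.card = 2 := by
      have : (s2.card : ℝ) = 2 := by linarith
      exact_mod_cast this
    obtain ⟨i, i', hne, hset⟩ := Finset.card_eq_two.1 h4
    have hi : c i = 1 / 2 := (hmem i).1 (by rw [hset]; simp)
    have hi' : c i' = 1 / 2 := (hmem i').1 (by rw [hset]; simp)
    refine ⟨i, i', hne, hi, hi', ?_⟩
    have h5 : ∑ i ∈ s2, c i • x i = 0 := by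
      rw [← hcx]
      refine Finset.sum_subset (Finset.subset_univ _) fun i hi hni => ?_
      rw [h1 i hi hni, zero_smul]
    rw [hset, Finset.sum_pair hne, hi, hi', ← smul_add] at h5
    rcases smul_eq_zero.1 h5 with h | h
    · norm_num at h
    · exact h
  obtain ⟨p, p', hpp, hp, hp', hpx⟩ := two a haval hsa hz0
  obtain ⟨q, q', hqq, hq, hq', hqx⟩ := two b hbval hsb hzb0
  have hne : ∀ u v, a u = 1 / 2 → b v = 1 / 2 → u ≠ v := by
    rintro u v h1 h2 rfl
    have := hab u
    rw [h1, h2] at this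
    norm_num at this
  have orth : ∀ (u u' v : Fin (d + 3)), x u + x u' = 0 → v ≠ u → v ≠ u' →
      (inner ℝ (x v) (x u) : ℝ) = 0 := by
    intro u u' v h1 h2 h3
    have h4 : x u' = - x u := (neg_eq_of_add_eq_zero_right h1).symm
    have h5 := hneg v u h2
    have h6 := hneg v u' h3
    rw [h4, inner_neg_right] at h6
    linarith
  refine ⟨hneg, p, p', q, q', hpp, hqq, hne p q hp hq, hne p q' hp hq', hne p' q hp' hq,
    hne p' q' hp' hq', by rw [hpx, norm_zero], by rw [hqx, norm_zero], ?_, ?_⟩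
  · have h1 := orth q q' p hqx (hne p q hp hq) (hne p q' hp hq')
    rw [h1, abs_zero]
  · intro k h1 h2 h3 h4
    rw [orth p p' k hpx h1 h2, orth q q' k hqx h3 h4, abs_zero]
    exact ⟨le_rfl, le_rfl⟩

end Pool.Agent.J4.H93.D3
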