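import Pool.Agent.J4.H93.D3.Base
import Pool.Agent.J4.H93.D3.T_LIM2
import Pool.Agent.J4.H93.D3.T_CPT2

set_option autoImplicit false

open Filter Topology

namespace Pool.Agent.J4.H93.D3

theorem str2 : S_STR2 := t_CPT2 (t_LIM2 t_KER t_ZZ t_PT) t_PT

theorem cor : S_COR := t_COR t_PT upp (str_of_str2 str2)

/-- the minimal energy is nearly `8 * 2^(-s/2)` -/
theorem min_val (d : ℕ) (hd : 1 ≤ d) (ε : ℝ) (hε : 0 < ε) :
    ∃ S : ℝ, 0 < S ∧ ∀ s : ℝ, S ≤ s → ∀ x, IsMin d s x → |2 ^ (s / 2) * riesz s x - 8| ≤ ε := by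
  obtain ⟨S1, hS1, hU⟩ := upp d hd ε hε
  have hlow : Tendsto (fun s : ℝ => 8 / (1 + Real.sqrt (4 * Real.log 2 / s)) ^ 2) atTop (𝓝 8) := by
    have h1 : Tendsto (fun s : ℝ => 4 * Real.log 2 / s) atTop (𝓝 0) :=
      tendsto_const_nhds.div_atTop tendsto_id
    have h2 : Tendsto (fun s : ℝ => Real.sqrt (4 * Real.log 2 / s)) atTop (𝓝 0) := by
      have := (Real.continuous_sqrt.tendsto 0).comp h1
      rw [Real.sqrt_zero] at this
      exact this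
    have h3 : Tendsto (fun s : ℝ => 8 / (1 + Real.sqrt (4 * Real.log 2 / s)) ^ 2) atTop
        (𝓝 (8 / (1 + 0) ^ 2)) :=
      tendsto_const_nhds.div ((tendsto_const_nhds.add h2).pow 2) (by norm_num)
    simpa using h3
  obtain ⟨S2, hS2⟩ := eventually_atTop.mp
    (hlow.eventually (lt_mem_nhds (show 8 - ε < (8:ℝ) by linarith)))
  refine ⟨max S1 S2, lt_max_of_lt_left hS1, fun s hs x hx => ?_⟩
  have hs1 : S1 ≤ s := le_trans (le_max_left _ _) hs
  have hs2 : S2 ≤ s := le_trans (le_max_right _ _) hs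
  obtain ⟨y, hy, hyE⟩ := hU s hs1
  have hpos : (0:ℝ) < 2 ^ (s/2) := Real.rpow_pos_of_pos (by norm_num) _
  have h5 := mul_le_mul_of_nonneg_left (hx.2 y hy) hpos.le
  have h6 := low d s (lt_of_lt_of_le hS1 hs1) x hx.1
  have h7 := hS2 s hs2
  rw [abs_le]
  constructor <;> linarith

/-- the main theorem without the existence of minimisers -/
theorem main (d : ℕ) (hd : 1 ≤ d) (ε : ℝ) (hε : 0 < ε) :
    ∃ S : ℝ, 0 < S ∧ ∀ s : ℝ, S ≤ s → ∀ x, IsMin d s x →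
      |2 ^ (s / 2) * riesz s x - 8| ≤ ε ∧
      ∃ i i' j j' : Fin (d + 3), Shape d i i' j j' ε x ∧
        2 ^ (s / 2) * rest i i' j j' s x ≤ ε ∧
        ∀ k l, k ≠ l → ¬ Four i i' j j' k l → Real.sqrt 2 < ‖x k - x l‖ := by
  obtain ⟨S1, hS1, h1⟩ := min_val d hd ε hε
  obtain ⟨S2, hS2, h2⟩ := min_str2 upp str2 d hd ε hε
  exact ⟨max S1 S2, lt_max_of_lt_left hS1, fun s hs x hx =>
    ⟨h1 s (le_trans (le_max_left _ _) hs) x hx, h2 s (le_trans (le_max_right _ _) hs) x hx⟩⟩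

end Pool.Agent.J4.H93.D3
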