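import Pool.Agent.J4.H93.D3.Defs

/-!
# Project D3, piece CFG (second copy, helper62)
-/

set_option autoImplicit false

open Filter Topology

namespace Pool.Agent.J4.H93.D3

namespace CFGb

noncomputable def e {n : ℕ} (i : Fin n) : E n := EuclideanSpace.single i (1 : ℝ)

theorem inner_e {n : ℕ} (i j : Fin n) : inner ℝ (e i) (e j) = if i = j then (1 : ℝ) else 0 := by
  rw [e, e, EuclideanSpace.inner_single_left]
  simp

def idx {m : ℕ} (l : Fin m) : Fin (m + 1 + 1) := ⟨l.val + 2, by omega⟩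

def base (m : ℕ) (b : Fin 2) : Fin (m + 1 + 1) := ⟨b.val, by omega⟩

noncomputable def u (m : ℕ) : E (m + 1 + 1) := ∑ l : Fin m, e (idx l)

theorem inner_idx {m : ℕ} (l k : Fin m) : inner ℝ (e (idx l)) (e (idx k)) = if l = k then (1 : ℝ) else 0 := by
  rw [inner_e]
  congr 1
  simp [idx, Fin.ext_iff]

theorem inner_idx_base {m : ℕ} (l : Fin m) (b : Fin 2) :
    inner ℝ (e (idx l)) (e (base m b)) = (0 : ℝ) := by
  rw [inner_e, if_neg]
  intro h
  have := congrArg Fin.val h
  simp only [idx, base] at this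
  omega

theorem inner_base {m : ℕ} (a b : Fin 2) :
    inner ℝ (e (base m a)) (e (base m b)) = if a = b then (1 : ℝ) else 0 := by
  rw [inner_e]
  congr 1
  simp [base, Fin.ext_iff]

theorem inner_u_idx {m : ℕ} (k : Fin m) : inner ℝ (u m) (e (idx k)) = (1 : ℝ) := by
  rw [u, sum_inner]
  simp [inner_idx]

theorem inner_u_base {m : ℕ} (b : Fin 2) : inner ℝ (u m) (e (base m b)) = (0 : ℝ) := by
  rw [u, sum_inner]
  simp [inner_idx_base]

theorem inner_u_u {m : ℕ} : inner ℝ (u m) (u m) = (m : ℝ) := by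
  have h1 : ∀ l : Fin m, inner ℝ (e (idx l)) (u m) = (1 : ℝ) := fun l => by
    rw [real_inner_comm, inner_u_idx]
  have h2 : inner ℝ (∑ l : Fin m, e (idx l)) (u m) = (m : ℝ) := by
    rw [sum_inner]
    simp [h1]
  exact h2

/-- the four points -/
noncomputable def p (m : ℕ) (α t : ℝ) (σ : ℝ) (b : Fin 2) : E (m + 1 + 1) :=
  (σ * α) • e (base m b) - t • u m

/-- the other points -/
noncomputable def y (m : ℕ) (ν τ : ℝ) (j : Fin m) : E (m + 1 + 1) :=
  ν • (e (idx j) - τ • u m)

theorem inner_p (m : ℕ) (α t σ σ' : ℝ) (b b' : Fin 2) :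
    inner ℝ (p m α t σ b) (p m α t σ' b') = σ * σ' * α ^ 2 * (if b = b' then 1 else 0) + t ^ 2 * m := by
  unfold p
  have h1 : inner ℝ (e (base m b)) (u m) = (0 : ℝ) := by rw [real_inner_comm, inner_u_base]
  rw [inner_sub_left, inner_sub_right, inner_sub_right, real_inner_smul_left, real_inner_smul_left,
    real_inner_smul_left, real_inner_smul_left, real_inner_smul_right, real_inner_smul_right,
    real_inner_smul_right, real_inner_smul_right, inner_base, inner_u_base, inner_u_u, h1]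
  ring

theorem inner_py (m : ℕ) (α t σ ν τ : ℝ) (b : Fin 2) (j : Fin m) :
    inner ℝ (p m α t σ b) (y m ν τ j) = - t * ν * (1 - τ * m) := by
  unfold p y
  have h1 : inner ℝ (e (base m b)) (u m) = (0 : ℝ) := by rw [real_inner_comm, inner_u_base]
  have h2 : inner ℝ (e (base m b)) (e (idx j)) = (0 : ℝ) := by rw [real_inner_comm, inner_idx_base]
  rw [real_inner_smul_right, inner_sub_left, inner_sub_right, inner_sub_right, real_inner_smul_left,
    real_inner_smul_left, real_inner_smul_left, real_inner_smul_left, real_inner_smul_right,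
    real_inner_smul_right, inner_u_idx, inner_u_u, h1, h2]
  ring

theorem inner_yy (m : ℕ) (ν τ : ℝ) (j k : Fin m) :
    inner ℝ (y m ν τ j) (y m ν τ k) = ν ^ 2 * ((if j = k then 1 else 0) - 2 * τ + τ ^ 2 * m) := by
  unfold y
  have h1 : inner ℝ (e (idx j)) (u m) = (1 : ℝ) := by rw [real_inner_comm, inner_u_idx]
  rw [real_inner_smul_right, real_inner_smul_left, inner_sub_left, inner_sub_right, inner_sub_right,
    real_inner_smul_left, real_inner_smul_left, real_inner_smul_right, real_inner_smul_right,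
    inner_u_idx, inner_u_u, inner_idx, h1]
  ring

/-- the points -/
noncomputable def x (m : ℕ) (α t ν τ : ℝ) (i : Fin (m + 1 + 3)) : E (m + 1 + 1) :=
  if h : 4 ≤ i.val then y m ν τ ⟨i.val - 4, by omega⟩
  else p m α t (if i.val % 2 = 0 then 1 else -1) (if i.val < 2 then 0 else 1)

theorem x_hi (m : ℕ) (α t ν τ : ℝ) (i : Fin (m + 1 + 3)) (h : 4 ≤ i.val) :
    x m α t ν τ i = y m ν τ ⟨i.val - 4, by omega⟩ := dif_pos h

theorem x_lo (m : ℕ) (α t ν τ : ℝ) (i : Fin (m + 1 + 3)) (h : ¬ 4 ≤ i.val) :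
    x m α t ν τ i = p m α t (if i.val % 2 = 0 then 1 else -1) (if i.val < 2 then 0 else 1) := dif_neg h

end CFGb

open CFGb in
theorem t_CFGb : S_CFG := by
  intro d hd
  obtain ⟨m, rfl⟩ : ∃ m, d = m + 1 := ⟨d - 1, by omega⟩
  have hm0 : (0 : ℝ) ≤ m := Nat.cast_nonneg m
  obtain ⟨K, hK⟩ : ∃ K : ℝ, K = m + 1 := ⟨_, rfl⟩
  have hK1 : 1 ≤ K := by rw [hK]; linarith
  have hK0 : 0 < K := by linarith
  have hmK : (m : ℝ) = K - 1 := by rw [hK]; ring
  have hKi : 0 < 1 / K := by positivity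
  have hKi1 : 1 / K ≤ 1 := by rw [div_le_one hK0]; exact hK1
  refine ⟨1 / K, K, 1 / (2 * K), hKi, hK0, by positivity, ?_, ?_⟩
  · have : K * (1 / (2 * K)) ^ 2 = 1 / K / 4 := by field_simp; ring
    rw [this]
    linarith
  intro t ht0 ht1
  have hKt : K * t ≤ 1 / 2 := by
    have := mul_le_mul_of_nonneg_left ht1 hK0.le
    have e1 : K * (1 / (2 * K)) = 1 / 2 := by field_simp
    linarith
  have ht2 : t ≤ 1 / 2 := by nlinarith
  have hmt : t ^ 2 * m ≤ t / 2 := by
    rw [hmK]
    nlinarith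
  have hct : 1 / K * t ≤ t := by nlinarith
  -- α
  obtain ⟨α, hα⟩ : ∃ α : ℝ, α ^ 2 = 1 - t ^ 2 * m := ⟨√(1 - t ^ 2 * m), Real.sq_sqrt (by linarith)⟩
  -- ν
  obtain ⟨q, hq⟩ : ∃ q : ℝ, q = 1 - 2 * (1 / K) + (1 / K) ^ 2 * m := ⟨_, rfl⟩
  have hq' : q = 1 - 1 / K - (1 / K) ^ 2 := by
    rw [hq, hmK]
    field_simp
    ring
  have hq1 : q ≤ 1 := by rw [hq']; nlinarith
  have hq0 : 1 ≤ m → 0 < q := by
    intro hm
    have hm1 : (1 : ℝ) ≤ m := by exact_mod_cast hm
    have hK2 : 2 ≤ K := by rw [hK]; linarith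
    have : 1 / K ≤ 1 / 2 := one_div_le_one_div_of_le (by norm_num) hK2
    rw [hq']
    nlinarith
  obtain ⟨ν, hν⟩ : ∃ ν : ℝ, ν = (√q)⁻¹ := ⟨_, rfl⟩
  have hν1 : 1 ≤ m → ν ^ 2 * q = 1 ∧ 1 ≤ ν := by
    intro hm
    have h0 := hq0 hm
    have h1 : 0 < √q := Real.sqrt_pos.2 h0
    constructor
    · rw [hν, inv_pow, Real.sq_sqrt h0.le, inv_mul_cancel₀ h0.ne']
    · rw [hν]
      exact (one_le_inv₀ h1).2 (Real.sqrt_le_one.2 hq1)
  have h1τ : 1 - 1 / K * m = 1 / K := by
    rw [hmK]
    field_simp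
    ring
  have hsigma : ∀ i : ℕ, (if i % 2 = 0 then (1 : ℝ) else -1) * (if i % 2 = 0 then (1 : ℝ) else -1) = 1 := by
    intro i
    split_ifs <;> norm_num
  refine ⟨x m α t ν (1 / K), ?_, ?_, ?_⟩
  · intro i
    have h2 : inner ℝ (x m α t ν (1 / K) i) (x m α t ν (1 / K) i) = (1 : ℝ) := by
      by_cases hi : 4 ≤ i.val
      · rw [x_hi _ _ _ _ _ _ hi, inner_yy, if_pos rfl, ← hq]
        exact (hν1 (by have := i.isLt; omega)).1
      · rw [x_lo _ _ _ _ _ _ hi, inner_p, if_pos rfl, hsigma, hα]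
        ring
    rw [real_inner_self_eq_norm_sq] at h2
    have h3 := norm_nonneg (x m α t ν (1 / K) i)
    nlinarith
  · have hpy : ∀ i j : Fin (m + 1 + 3), ¬ 4 ≤ i.val → 4 ≤ j.val →
        inner ℝ (x m α t ν (1 / K) i) (x m α t ν (1 / K) j) ≤ -(1 / K) * t := by
      intro i j hi hj
      rw [x_lo _ _ _ _ _ _ hi, x_hi _ _ _ _ _ _ hj, inner_py, h1τ]
      have := (hν1 (by have := j.isLt; omega)).2
      have h5 : 0 < 1 / K * t := by positivity
      nlinarith
    intro i j hij hSp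
    by_cases hi : 4 ≤ i.val
    · by_cases hj : 4 ≤ j.val
      · have hne : (⟨i.val - 4, by omega⟩ : Fin m) ≠ ⟨j.val - 4, by omega⟩ := by
          intro h
          apply hij
          have := congrArg Fin.val h
          apply Fin.ext
          simp only at this
          omega
        rw [x_hi _ _ _ _ _ _ hi, x_hi _ _ _ _ _ _ hj, inner_yy, if_neg hne]
        have h6 := (hν1 (by have := j.isLt; omega)).2
        have h7 : 0 - 2 * (1 / K) + (1 / K) ^ 2 * m = -(1 / K) - (1 / K) ^ 2 := by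
          rw [hmK]
          field_simp
          ring
        rw [h7]
        have h8 : 1 ≤ ν ^ 2 := by nlinarith
        have h9 : 0 ≤ 1 / K + (1 / K) ^ 2 := by positivity
        nlinarith
      · rw [real_inner_comm]
        exact hpy j i hj hi
    · by_cases hj : 4 ≤ j.val
      · exact hpy i j hi hj
      · rw [x_lo _ _ _ _ _ _ hi, x_lo _ _ _ _ _ _ hj, inner_p]
        have hi4 : i.val < 4 := not_le.1 hi
        have hj4 : j.val < 4 := not_le.1 hj
        have hne : i.val ≠ j.val := fun h => hij (Fin.ext h)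
        unfold Sp at hSp
        have hsame : (i.val < 2 ↔ j.val < 2) := by omega
        have e1 : (if i.val < 2 then (0 : Fin 2) else 1) = (if j.val < 2 then (0 : Fin 2) else 1) := by
          simp only [hsame]
        have e2 : (if i.val % 2 = 0 then (1 : ℝ) else -1) * (if j.val % 2 = 0 then (1 : ℝ) else -1) = -1 := by
          by_cases h1 : i.val % 2 = 0
          · rw [if_pos h1, if_neg (by omega)]; norm_num
          · rw [if_neg h1, if_pos (by omega)]; norm_num
        rw [if_pos e1, e2, hα]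
        nlinarith
  · intro i j hSp
    unfold Sp at hSp
    have hi : ¬ 4 ≤ i.val := by omega
    have hj : ¬ 4 ≤ j.val := by omega
    rw [x_lo _ _ _ _ _ _ hi, x_lo _ _ _ _ _ _ hj, inner_p]
    have e1 : (if i.val < 2 then (0 : Fin 2) else 1) ≠ (if j.val < 2 then (0 : Fin 2) else 1) := by
      rcases hSp with h | h
      · rw [if_pos (by omega), if_neg (by omega)]; decide
      · rw [if_neg (by omega), if_pos (by omega)]; decide
    rw [if_neg e1, hmK]
    nlinarith [sq_nonneg t]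

end Pool.Agent.J4.H93.D3
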