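import Pool.Agent.J4.H93.D3.Defs3
import Pool.Agent.J4.H93.D3.T_CFGb

/-!
# Project D3, piece CFG2 (copy of helper62)
-/

set_option autoImplicit false

open Filter Topology

namespace Pool.Agent.J4.H93.D3

open CFGb in
theorem t_CFG2b : S_CFG2 := by
  intro d hd
  obtain ⟨m, rfl⟩ : ∃ m, d = m + 1 := ⟨d - 1, by omega⟩
  have hm0 : (0 : ℝ) ≤ m := Nat.cast_nonneg m
  have hcast : ((m + 1 : ℕ) : ℝ) = m + 1 := by push_cast; ring
  obtain ⟨K, hK⟩ : ∃ K : ℝ, K = m + 1 := ⟨_, rfl⟩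
  have hK1 : 1 ≤ K := by rw [hK]; linarith
  have hK0 : 0 < K := by linarith
  have hmK : (m : ℝ) = K - 1 := by rw [hK]; ring
  rw [hcast, ← hK]
  refine ⟨2 * K, 1 / (4 * K), by positivity, by positivity, ?_, ?_, ?_⟩
  · have : 2 * K * (1 / (4 * K)) = 1 / 2 := by field_simp; norm_num
    rw [this]
  · have : K * (1 / (4 * K)) ^ 2 = 1 / (16 * K) := by field_simp; norm_num
    rw [this, div_le_div_iff₀ (by positivity) (by norm_num)]
    linarith
  intro t ht0 ht1
  have hKt : K * t ≤ 1 / 4 := by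
    have := mul_le_mul_of_nonneg_left ht1 hK0.le
    have e1 : K * (1 / (4 * K)) = 1 / 4 := by field_simp
    linarith
  have ht2 : t ≤ 1 / 4 := by nlinarith
  have hmt : t ^ 2 * m ≤ t / 4 := by
    rw [hmK]
    nlinarith
  have hmt0 : 0 ≤ t ^ 2 * m := by positivity
  have htm : t * m ≤ 1 / 4 := by rw [hmK]; nlinarith
  have htm0 : 0 ≤ t * m := by positivity
  obtain ⟨α, hα⟩ : ∃ α : ℝ, α ^ 2 = 1 - t ^ 2 * m := ⟨√(1 - t ^ 2 * m), Real.sq_sqrt (by linarith)⟩
  obtain ⟨q, hq⟩ : ∃ q : ℝ, q = 1 - t ^ 2 + t ^ 2 * m := ⟨_, rfl⟩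
  have hq0 : 0 < q := by rw [hq]; nlinarith
  obtain ⟨ν, hν⟩ : ∃ ν : ℝ, ν = (√q)⁻¹ := ⟨_, rfl⟩
  have hsq : 0 < √q := Real.sqrt_pos.2 hq0
  have hνq : ν ^ 2 * q = 1 := by
    rw [hν, inv_pow, Real.sq_sqrt hq0.le, inv_mul_cancel₀ hq0.ne']
  have hν0 : 0 < ν := by rw [hν]; positivity
  have hν2 : 1 - t ^ 2 * m ≤ ν ^ 2 := by
    have h1 : (2 - q) * q ≤ 1 := by nlinarith [sq_nonneg (q - 1)]
    have h2 : 2 - q ≤ ν ^ 2 := by
      by_contra hlt
      rw [not_le] at hlt
      have := mul_lt_mul_of_pos_right hlt hq0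
      rw [hνq] at this
      linarith
    rw [hq] at h2
    nlinarith [sq_nonneg t]
  have hν1 : 1 ≤ m → ν ≤ 1 := by
    intro hm
    have hm1 : (1 : ℝ) ≤ m := by exact_mod_cast hm
    have hq1 : 1 ≤ q := by rw [hq]; nlinarith [sq_nonneg t]
    rw [hν]
    exact inv_le_one_of_one_le₀ (Real.one_le_sqrt.2 hq1)
  have h1t : 0 < 1 + t := by linarith
  obtain ⟨N, hN⟩ : ∃ N : ℝ, N = ν * (1 + t) := ⟨_, rfl⟩
  obtain ⟨τ, hτ⟩ : ∃ τ : ℝ, τ = t / (1 + t) := ⟨_, rfl⟩
  have hNτ : (1 + t) * τ = t := by rw [hτ]; field_simp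
  have hsigma : ∀ i : ℕ, (if i % 2 = 0 then (1 : ℝ) else -1) * (if i % 2 = 0 then (1 : ℝ) else -1) = 1 := by
    intro i
    split_ifs <;> norm_num
  refine ⟨x m α t N τ, ?_, ?_, ?_⟩
  · intro i
    have h2 : inner ℝ (x m α t N τ i) (x m α t N τ i) = (1 : ℝ) := by
      by_cases hi : 4 ≤ i.val
      · rw [x_hi _ _ _ _ _ _ hi, inner_yy, if_pos rfl, hN]
        have hνq' : ν ^ 2 * (1 - t ^ 2 + t ^ 2 * m) = 1 := by rw [← hq]; exact hνq
        have e1 : (ν * (1 + t)) ^ 2 * (1 - 2 * τ + τ ^ 2 * m) =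
            ν ^ 2 * ((1 + t) ^ 2 - 2 * (1 + t) * ((1 + t) * τ) + ((1 + t) * τ) ^ 2 * m) := by ring
        rw [e1, hNτ]
        linear_combination hνq'
      · rw [x_lo _ _ _ _ _ _ hi, inner_p, if_pos rfl, hsigma, hα]
        ring
    rw [real_inner_self_eq_norm_sq] at h2
    have h3 := norm_nonneg (x m α t N τ i)
    nlinarith
  · have hpy : ∀ i j : Fin (m + 1 + 3), ¬ 4 ≤ i.val → 4 ≤ j.val →
        inner ℝ (x m α t N τ i) (x m α t N τ j) ≤ -(t * (1 - 2 * K * t)) := by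
      intro i j hi hj
      rw [x_lo _ _ _ _ _ _ hi, x_hi _ _ _ _ _ _ hj, inner_py]
      have h6 := hν1 (by have := j.isLt; omega)
      have e1 : -t * N * (1 - τ * m) = -(t * (ν * ((1 + t) - ((1 + t) * τ) * m))) := by rw [hN]; ring
      rw [e1, hNτ]
      apply neg_le_neg
      apply mul_le_mul_of_nonneg_left _ ht0.le
      have h7 : 1 - t ^ 2 * m ≤ ν := by nlinarith
      have h8 : 1 - t * m ≤ 1 + t - t * m := by linarith
      have h9 : (1 - t ^ 2 * m) * (1 - t * m) ≤ ν * (1 + t - t * m) :=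
        mul_le_mul h7 h8 (by linarith) hν0.le
      have h10 : 1 - 2 * K * t ≤ (1 - t ^ 2 * m) * (1 - t * m) := by
        have h11 : t * m ≤ K * t := by rw [hmK]; nlinarith
        have h12 : t ≤ K * t := by nlinarith
        nlinarith [mul_nonneg hmt0 htm0]
      linarith
    intro i j hij hSp
    by_cases hi : 4 ≤ i.val
    · by_cases hj : 4 ≤ j.val
      · have hne : (⟨i.val - 4, by omega⟩ : Fin m) ≠ ⟨j.val - 4, by omega⟩ := by
          intro h
          apply hij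
          have := congrArg Fin.val h
          apply Fin.ext
          simp only at this
          omega
        rw [x_hi _ _ _ _ _ _ hi, x_hi _ _ _ _ _ _ hj, inner_yy, if_neg hne]
        have e1 : N ^ 2 * (0 - 2 * τ + τ ^ 2 * m) =
            -(ν ^ 2 * (2 * (1 + t) * ((1 + t) * τ) - ((1 + t) * τ) ^ 2 * m)) := by rw [hN]; ring
        have e2 : ν ^ 2 * (2 * (1 + t) * t - t ^ 2 * m) = t * (ν ^ 2 * (2 + 2 * t - t * m)) := by ring
        rw [e1, hNτ, e2]
        apply neg_le_neg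
        apply mul_le_mul_of_nonneg_left _ ht0.le
        have h7 : (15 : ℝ) / 16 ≤ ν ^ 2 := by linarith
        have h8 : (7 : ℝ) / 4 ≤ 2 + 2 * t - t * m := by linarith
        have h9 : (15 : ℝ) / 16 * (7 / 4) ≤ ν ^ 2 * (2 + 2 * t - t * m) :=
          mul_le_mul h7 h8 (by norm_num) (by positivity)
        have h10 : 0 ≤ 2 * K * t := by positivity
        linarith
      · rw [real_inner_comm]
        exact hpy j i hj hi
    · by_cases hj : 4 ≤ j.val
      · exact hpy i j hi hj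
      · rw [x_lo _ _ _ _ _ _ hi, x_lo _ _ _ _ _ _ hj, inner_p]
        have hi4 : i.val < 4 := not_le.1 hi
        have hj4 : j.val < 4 := not_le.1 hj
        have hne : i.val ≠ j.val := fun h => hij (Fin.ext h)
        unfold Sp at hSp
        have hsame : (i.val < 2 ↔ j.val < 2) := by omega
        have e1 : (if i.val < 2 then (0 : Fin 2) else 1) = (if j.val < 2 then (0 : Fin 2) else 1) := by
          simp only [hsame]
        have e2 : (if i.val % 2 = 0 then (1 : ℝ) else -1) * (if j.val % 2 = 0 then (1 : ℝ) else -1) = -1 := by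
          by_cases h1 : i.val % 2 = 0
          · rw [if_pos h1, if_neg (by omega)]; norm_num
          · rw [if_neg h1, if_pos (by omega)]; norm_num
        rw [if_pos e1, e2, hα]
        have h10 : 0 ≤ 2 * K * t * t := by positivity
        nlinarith
  · intro i j hSp
    unfold Sp at hSp
    have hi : ¬ 4 ≤ i.val := by omega
    have hj : ¬ 4 ≤ j.val := by omega
    rw [x_lo _ _ _ _ _ _ hi, x_lo _ _ _ _ _ _ hj, inner_p]
    have e1 : (if i.val < 2 then (0 : Fin 2) else 1) ≠ (if j.val < 2 then (0 : Fin 2) else 1) := by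
      rcases hSp with h | h
      · rw [if_pos (by omega), if_neg (by omega)]; decide
      · rw [if_neg (by omega), if_pos (by omega)]; decide
    rw [if_neg e1, hmK]
    linarith

end Pool.Agent.J4.H93.D3
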