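import Pool.Agent.J4.H93.D3.Defs

/-!
# Project D3, piece EXI (copy of helper62): minimisers exist
-/

set_option autoImplicit false

open Filter Topology

namespace Pool.Agent.J4.H93.D3

theorem t_EXIb (h : S_CFG) : ∀ d : ℕ, 1 ≤ d → ∀ s : ℝ, 0 < s → ∃ x, IsMin d s x := by
  classical
  intro d hd s hs
  obtain ⟨c, C, t0, hc, hC, ht0, hCt, hx⟩ := h d hd
  obtain ⟨x0, h1, h2, h4⟩ := hx t0 ht0 le_rfl
  have hinj : Function.Injective x0 := by
    intro i j hij
    by_contra hne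
    have h5 : inner ℝ (x0 i) (x0 j) = (1 : ℝ) := by
      rw [hij, real_inner_self_eq_norm_sq, h1]
      norm_num
    by_cases hS : Sp i j
    · have := h4 i j hS
      linarith
    · have := h2 i j hne hS
      nlinarith [mul_pos hc ht0]
  have hterm : ∀ (y : Fin (d + 3) → E (d + 1)) (i j : Fin (d + 3)), i ≠ j →
      ‖y i - y j‖ ^ (-s) ≤ riesz s y := by
    intro y i j hij
    unfold riesz
    have e1 : ‖y i - y j‖ ^ (-s) ≤ ∑ j ∈ Finset.univ.erase i, ‖y i - y j‖ ^ (-s) :=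
      Finset.single_le_sum (f := fun j => ‖y i - y j‖ ^ (-s)) (fun _ _ => by positivity)
        (Finset.mem_erase.2 ⟨hij.symm, Finset.mem_univ _⟩)
    have e2 : ∑ j ∈ Finset.univ.erase i, ‖y i - y j‖ ^ (-s) ≤
        ∑ i, ∑ j ∈ Finset.univ.erase i, ‖y i - y j‖ ^ (-s) :=
      Finset.single_le_sum (f := fun i => ∑ j ∈ Finset.univ.erase i, ‖y i - y j‖ ^ (-s))
        (fun _ _ => Finset.sum_nonneg fun _ _ => by positivity) (Finset.mem_univ i)
    exact e1.trans e2
  obtain ⟨M, hM⟩ : ∃ M, M = riesz s x0 := ⟨_, rfl⟩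
  have hM0 : 0 ≤ M := by
    rw [hM]
    unfold riesz
    exact Finset.sum_nonneg fun _ _ => Finset.sum_nonneg fun _ _ => by positivity
  obtain ⟨δ, hδ⟩ : ∃ δ : ℝ, δ = (M + 1) ^ (-(1 / s)) := ⟨_, rfl⟩
  have hδ0 : 0 < δ := by
    rw [hδ]
    exact Real.rpow_pos_of_pos (by linarith) _
  have hδs : δ ^ (-s) = M + 1 := by
    rw [hδ, ← Real.rpow_mul (by linarith)]
    have : -(1 / s) * -s = 1 := by field_simp
    rw [this, Real.rpow_one]
  let K : Set (Fin (d + 3) → E (d + 1)) :=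
    (Set.univ.pi fun _ => Metric.sphere (0 : E (d + 1)) 1) ∩ {x | ∀ i j, i ≠ j → δ ≤ ‖x i - x j‖}
  have hin : ∀ y, IsConf d y → riesz s y ≤ M → y ∈ K := by
    intro y hy hyM
    refine ⟨fun i _ => by rw [mem_sphere_zero_iff_norm]; exact hy.2 i, fun i j hij => ?_⟩
    by_contra hlt
    rw [not_le] at hlt
    have hp : 0 < ‖y i - y j‖ := norm_pos_iff.2 (sub_ne_zero.2 fun h => hij (hy.1 h))
    have h6 := Real.rpow_lt_rpow_of_neg hp hlt (neg_lt_zero.2 hs)
    have h7 := hterm y i j hij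
    rw [hδs] at h6
    linarith
  have hKc : IsCompact K := by
    apply (isCompact_univ_pi fun _ => isCompact_sphere (0 : E (d + 1)) 1).inter_right
    have : {x : Fin (d + 3) → E (d + 1) | ∀ i j, i ≠ j → δ ≤ ‖x i - x j‖} =
        ⋂ i, ⋂ j, ⋂ (_ : i ≠ j), {x | δ ≤ ‖x i - x j‖} := by
      ext x
      simp
    rw [this]
    exact isClosed_iInter fun i => isClosed_iInter fun j => isClosed_iInter fun _ =>
      isClosed_le continuous_const (by fun_prop)
  have hcont : ContinuousOn (fun x : Fin (d + 3) → E (d + 1) => riesz s x) K := by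
    unfold riesz
    refine continuousOn_finsetSum _ fun i _ => continuousOn_finsetSum _ fun j hj => ?_
    refine ContinuousOn.rpow_const (by fun_prop) fun x hx => Or.inl ?_
    have := hx.2 i j (Finset.mem_erase.1 hj).1.symm
    exact (lt_of_lt_of_le hδ0 this).ne'
  have hx0K : x0 ∈ K := hin x0 ⟨hinj, h1⟩ hM.ge
  obtain ⟨x, hxK, hmin⟩ := hKc.exists_isMinOn ⟨x0, hx0K⟩ hcont
  refine ⟨x, ⟨fun i j hij => ?_, fun i => ?_⟩, fun y hy => ?_⟩
  · by_contra hne
    have := hxK.2 i j hne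
    rw [hij, sub_self, norm_zero] at this
    linarith
  · exact mem_sphere_zero_iff_norm.1 (hxK.1 i (Set.mem_univ i))
  · by_cases hyM : riesz s y ≤ M
    · exact hmin (hin y hy hyM)
    · have h8 : riesz s x ≤ riesz s x0 := hmin hx0K
      rw [not_le] at hyM
      linarith

theorem t_EXI62 (h : S_CFG) (_h3 : S_PT) : ∀ d : ℕ, 1 ≤ d → ∀ s : ℝ, 0 < s → ∃ x, IsMin d s x :=
  t_EXIb h

end Pool.Agent.J4.H93.D3
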