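import Pool.Agent.J4.H93.D3.Defs3
import Pool.Agent.J4.H93.D3.T_FIN

/-!
# Project D3, piece FIN2: the upper bound with the second order term
-/

set_option autoImplicit false

open Filter Topology

namespace Pool.Agent.J4.H93.D3

namespace FIN2bAux

theorem boundA {v s u : ℝ} (hs : 0 < s) (hv0 : 0 ≤ v) (hv : v ≤ 1 / 2) (hu : u ≤ v) :
    (1 - u) ^ (-(s / 2)) ≤ Real.exp (s / 2 * (v * (1 + 2 * v))) := by
  have h1 : 0 < 1 - v := by linarith
  have h2 : 0 < 1 - u := by linarith
  rw [Real.rpow_def_of_pos h2]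
  apply Real.exp_le_exp.2
  have h3 : Real.log (1 - v) ≤ Real.log (1 - u) := Real.log_le_log h1 (by linarith)
  have h4 : -(v * (1 + 2 * v)) ≤ Real.log (1 - v) := by
    have h5 := Real.one_sub_inv_le_log_of_pos h1
    have h6 : (1 - v)⁻¹ ≤ 1 + v * (1 + 2 * v) := by
      rw [inv_eq_one_div, div_le_iff₀ h1]
      nlinarith [mul_nonneg hv0 hv0]
    linarith
  nlinarith

theorem boundB {w s u : ℝ} (hs : 0 < s) (hw : 0 ≤ w) (hu : u ≤ -w) :
    (1 - u) ^ (-(s / 2)) ≤ Real.exp (-(s / 2 * (w / (1 + w)))) := by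
  have h1 : 0 < 1 + w := by linarith
  have h2 : 0 < 1 - u := by linarith
  rw [Real.rpow_def_of_pos h2]
  apply Real.exp_le_exp.2
  have h3 : Real.log (1 + w) ≤ Real.log (1 - u) := Real.log_le_log h1 (by linarith)
  have h4 : w / (1 + w) ≤ Real.log (1 + w) := by
    have h5 := Real.one_sub_inv_le_log_of_pos h1
    have h6 : 1 - (1 + w)⁻¹ = w / (1 + w) := by
      field_simp
      ring
    linarith
  nlinarith

end FIN2bAux

open FIN2bAux in
theorem t_FIN2b : S_FIN2 := by
  classical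
  intro hPT hCFG d hd ε hε
  obtain ⟨C, t0, hC, ht0, hCt0, hdt0, h⟩ := hCFG d hd
  have hd1 : (1 : ℝ) ≤ d := by exact_mod_cast hd
  set m : ℝ := (d : ℝ) - 1 with hm
  have hm0 : 0 ≤ m := by rw [hm]; linarith
  set η : ℝ := min 1 (ε / (40 * (m + 1))) with hη
  have hη0 : 0 < η := by rw [hη]; positivity
  have hη1 : η ≤ 1 := min_le_left _ _
  have hη2 : 20 * m * η ≤ ε / 2 := by
    have h1 : η ≤ ε / (40 * (m + 1)) := min_le_right _ _
    rw [le_div_iff₀ (by positivity)] at h1
    nlinarith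
  set κ : ℝ := m * (2 + η) ^ 2 / 2 with hκ
  have hκ0 : 0 ≤ κ := by rw [hκ]; positivity
  have hκ8 : 8 * κ ≤ 16 * m + ε / 2 := by
    rw [hκ]
    have h1 : m * η ^ 2 ≤ m * η := by
      have : η ^ 2 ≤ η := by nlinarith
      exact mul_le_mul_of_nonneg_left this hm0
    nlinarith
  -- limits
  have l1 : Tendsto (fun s : ℝ => Real.log s / s) atTop (𝓝 0) := by
    have := (Real.isLittleO_log_id_atTop).tendsto_div_nhds_zero
    simpa using this
  have l2 : Tendsto (fun s : ℝ => Real.log s ^ 2 / s) atTop (𝓝 0) := by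
    have := (Real.isLittleO_pow_log_id_atTop (n := 2)).tendsto_div_nhds_zero
    simpa using this
  have l3 : Tendsto (fun s : ℝ => (2 + η) * (Real.log s / s)) atTop (𝓝 ((2 + η) * 0)) :=
    l1.const_mul _
  have l4 : Tendsto (fun s : ℝ => m * ((2 + η) * (Real.log s / s)) ^ 2) atTop
      (𝓝 (m * ((2 + η) * 0) ^ 2)) := (l3.pow 2).const_mul _
  have l5 : Tendsto (fun s : ℝ => 16 * κ * (m * ((2 + η) * (Real.log s / s)) ^ 2) +
      32 * κ ^ 2 * (Real.log s ^ 2 / s)) atTop
      (𝓝 (16 * κ * (m * ((2 + η) * 0) ^ 2) + 32 * κ ^ 2 * 0)) :=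
    (l4.const_mul _).add (l2.const_mul _)
  have l6 : Tendsto (fun s : ℝ => (1 + η / 2) * (1 - C * ((2 + η) * (Real.log s / s))) -
      ((2 + η) * (Real.log s / s))) atTop (𝓝 ((1 + η / 2) * (1 - C * ((2 + η) * 0)) -
        ((2 + η) * 0))) :=
    ((tendsto_const_nhds.sub (l3.const_mul C)).const_mul _).sub l3
  have l7 : Tendsto (fun s : ℝ => 2 * κ * (Real.log s ^ 2 / s)) atTop (𝓝 (2 * κ * 0)) :=
    l2.const_mul _
  have v1 := l3.eventually (eventually_lt_nhds (show (2 + η) * 0 < t0 by simpa using ht0))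
  have v2 := l4.eventually (eventually_lt_nhds (show m * ((2 + η) * 0) ^ 2 < 1 / 2 by norm_num))
  have v3 := l5.eventually (eventually_lt_nhds
    (show 16 * κ * (m * ((2 + η) * 0) ^ 2) + 32 * κ ^ 2 * 0 < ε / 4 by
      have : 0 < ε / 4 := by linarith
      simpa using this))
  have v4 := l6.eventually (eventually_gt_nhds
    (show 1 < (1 + η / 2) * (1 - C * ((2 + η) * 0)) - ((2 + η) * 0) by
      simp
      linarith))
  have v5 := l7.eventually (eventually_lt_nhds (show 2 * κ * 0 < 1 by norm_num))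
  have v6 := Real.tendsto_log_atTop.eventually (eventually_ge_atTop
    (max 1 (4 * ((d : ℝ) + 3) ^ 2 / ε)))
  obtain ⟨S, hS⟩ := eventually_atTop.1 (v1.and (v2.and (v3.and (v4.and (v5.and v6)))))
  refine ⟨max S 1, by positivity, fun s hs => ?_⟩
  have hs1 : 1 ≤ s := (le_max_right _ _).trans hs
  have hs0 : 0 < s := by linarith
  obtain ⟨b1, b2, b3, b4, b5, b6⟩ := hS s ((le_max_left _ _).trans hs)
  set L : ℝ := Real.log s with hL
  have hL1 : 1 ≤ L := (le_max_left _ _).trans b6
  have hL2 : 4 * ((d : ℝ) + 3) ^ 2 / ε ≤ L := (le_max_right _ _).trans b6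
  set t : ℝ := (2 + η) * (L / s) with ht
  have htpos : 0 < t := by rw [ht]; positivity
  obtain ⟨x, hx1, hx2, hx3⟩ := h t htpos b1.le
  set q : ℝ := L ^ 2 / s with hq
  have hq0 : 0 < q := by rw [hq]; positivity
  have hCt : C * t ≤ 1 / 2 := by
    have := mul_le_mul_of_nonneg_left b1.le hC.le
    linarith
  set w : ℝ := t * (1 - C * t) with hw
  have hw0 : 0 ≤ w := by
    rw [hw]
    exact mul_nonneg htpos.le (by linarith)
  have hwt : w ≤ t := by
    rw [hw]
    have : 0 ≤ C * t := by positivity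
    nlinarith
  have hwpos : 0 < w := by
    rw [hw]
    exact mul_pos htpos (by linarith)
  set v : ℝ := m * t ^ 2 with hv
  have hv0 : 0 ≤ v := by rw [hv]; positivity
  have hinner : ∀ i j : Fin (d + 3), i ≠ j → inner ℝ (x i) (x j) < 1 := by
    intro i j hij
    by_cases hS' : Sp i j
    · have h6 := hx3 i j hS'
      have h7 : m * t ^ 2 < 1 / 2 := b2
      linarith
    · have h6 := hx2 i j hij hS'
      have h7 : inner ℝ (x i) (x j) ≤ -w := h6
      linarith
  have hinj : Function.Injective x := by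
    intro i j hij
    by_contra hne
    have h6 := hinner i j hne
    rw [hij, real_inner_self_eq_norm_sq, hx1] at h6
    norm_num at h6
  refine ⟨x, ⟨hinj, hx1⟩, ?_⟩
  have hsum : (2 : ℝ) ^ (s / 2) * riesz s x =
      ∑ i, ∑ j ∈ Finset.univ.erase i, (1 - inner ℝ (x i) (x j)) ^ (-(s / 2)) := by
    unfold riesz
    rw [Finset.mul_sum]
    refine Finset.sum_congr rfl fun i _ => ?_
    rw [Finset.mul_sum]
    refine Finset.sum_congr rfl fun j hj => ?_
    have hne : x i ≠ x j := fun hx => (Finset.ne_of_mem_erase hj) (hinj hx).symm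
    exact (hPT (d + 1) s (x i) (x j) hs0 (hx1 i) (hx1 j) hne).1
  set A : ℝ := Real.exp (s / 2 * (v * (1 + 2 * v))) with hAdef
  set B : ℝ := 1 / s with hBdef
  have hA0 : 0 ≤ A := (Real.exp_pos _).le
  have hB0 : 0 ≤ B := by rw [hBdef]; positivity
  -- `A`
  have hz : s / 2 * (v * (1 + 2 * v)) = κ * q * (1 + 2 * v) := by
    have : s / 2 * v = κ * q := by
      rw [hv, hκ, hq, ht]
      field_simp
    rw [← this]
    ring
  have hA8 : 8 * A ≤ 8 + (16 * m + ε / 2 + ε / 4) * q := by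
    have hz0 : 0 ≤ κ * q * (1 + 2 * v) := by positivity
    have hz2 : κ * q * (1 + 2 * v) ≤ 2 * κ * q := by
      have : 0 ≤ κ * q := by positivity
      have h7 : v < 1 / 2 := b2
      nlinarith
    have hz1 : κ * q * (1 + 2 * v) ≤ 1 := by
      have h7 : 2 * κ * q < 1 := b5
      linarith
    have h8 := Real.abs_exp_sub_one_sub_id_le (x := κ * q * (1 + 2 * v))
      (by rw [abs_of_nonneg hz0]; exact hz1)
    have h9 := (abs_le.1 h8).2
    have h10 : (κ * q * (1 + 2 * v)) ^ 2 ≤ (2 * κ * q) ^ 2 := pow_le_pow_left₀ hz0 hz2 2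
    have h11 : 16 * κ * v + 32 * κ ^ 2 * q < ε / 4 := b3
    rw [hAdef, hz]
    have h12 : (8 * κ + (16 * κ * v + 32 * κ ^ 2 * q)) * q ≤
        (16 * m + ε / 2 + ε / 4) * q :=
      mul_le_mul_of_nonneg_right (by linarith) hq0.le
    have h13 : 8 * (1 + κ * q * (1 + 2 * v) + (2 * κ * q) ^ 2) =
        8 + (8 * κ + (16 * κ * v + 32 * κ ^ 2 * q)) * q := by ring
    linarith
  -- `B`
  have hB8 : ((d : ℝ) + 3) ^ 2 * B ≤ ε / 4 * q := by
    rw [hBdef, hq]
    have h7 : ((d : ℝ) + 3) ^ 2 ≤ ε / 4 * L ^ 2 := by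
      rw [div_le_iff₀ hε] at hL2
      have h71 : L ≤ L ^ 2 := by nlinarith
      have h72 : L * ε ≤ L ^ 2 * ε := mul_le_mul_of_nonneg_right h71 hε.le
      linarith
    calc ((d : ℝ) + 3) ^ 2 * (1 / s) = ((d : ℝ) + 3) ^ 2 / s := by ring
      _ ≤ (ε / 4 * L ^ 2) / s := by gcongr
      _ = ε / 4 * (L ^ 2 / s) := by ring
  have hBexp : Real.exp (-(s / 2 * (w / (1 + w)))) ≤ B := by
    have h7 : L ≤ s / 2 * (w / (1 + w)) := by
      have h8 : 0 < 1 + w := by linarith
      rw [← mul_div_assoc, le_div_iff₀ h8]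
      have h9 : s / 2 * w = (1 + η / 2) * (1 - C * t) * L := by
        have h10 : s * t = (2 + η) * L := by
          rw [ht]
          field_simp
        have h11 : s / 2 * w = s * t * (1 - C * t) / 2 := by rw [hw]; ring
        rw [h11, h10]
        ring
      rw [h9]
      have h12 : 1 < (1 + η / 2) * (1 - C * t) - t := b4
      have h13 : 1 + w ≤ (1 + η / 2) * (1 - C * t) := by linarith
      have h14 : (1 + w) * L ≤ (1 + η / 2) * (1 - C * t) * L :=
        mul_le_mul_of_nonneg_right h13 (by linarith)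
      linarith
    calc Real.exp (-(s / 2 * (w / (1 + w)))) ≤ Real.exp (-L) := Real.exp_le_exp.2 (by linarith)
      _ = B := by rw [Real.exp_neg, hL, Real.exp_log hs0, hBdef, one_div]
  have hterm : ∀ i j : Fin (d + 3), i ≠ j → (1 - inner ℝ (x i) (x j)) ^ (-(s / 2)) ≤
      (if Sp i j then A else 0) + B := by
    intro i j hij
    by_cases hS' : Sp i j
    · rw [if_pos hS']
      have h6 := boundA (s := s) hs0 hv0 (le_of_lt b2) (hx3 i j hS')
      linarith
    · rw [if_neg hS', zero_add]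
      exact (boundB hs0 hw0 (hx2 i j hij hS')).trans hBexp
  rw [hsum]
  calc ∑ i, ∑ j ∈ Finset.univ.erase i, (1 - inner ℝ (x i) (x j)) ^ (-(s / 2)) ≤
      ∑ i : Fin (d + 3), ∑ j ∈ Finset.univ.erase i, ((if Sp i j then A else 0) + B) :=
        Finset.sum_le_sum fun i _ => Finset.sum_le_sum fun j hj =>
          hterm i j (Finset.ne_of_mem_erase hj).symm
    _ ≤ ∑ i : Fin (d + 3), ∑ j : Fin (d + 3), ((if Sp i j then A else 0) + B) := by
        refine Finset.sum_le_sum fun i _ => ?_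
        refine Finset.sum_le_sum_of_subset_of_nonneg (Finset.erase_subset _ _) fun j _ _ => ?_
        split_ifs <;> positivity
    _ = (∑ p : Fin (d + 3) × Fin (d + 3), (if Sp p.1 p.2 then A else 0)) +
        ((d : ℝ) + 3) ^ 2 * B := by
        rw [← Finset.sum_product', Finset.sum_add_distrib]
        congr 1
        rw [Finset.sum_const, Finset.card_product]
        simp only [Finset.card_univ, Fintype.card_fin, nsmul_eq_mul]
        push_cast
        ring
    _ ≤ 8 * A + ((d : ℝ) + 3) ^ 2 * B := by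
        have h7 : (∑ p : Fin (d + 3) × Fin (d + 3), (if Sp p.1 p.2 then A else 0)) =
            (((Finset.univ : Finset (Fin (d + 3) × Fin (d + 3))).filter
              (fun p => Sp p.1 p.2)).card : ℝ) * A := by
          rw [← Finset.sum_filter, Finset.sum_const, nsmul_eq_mul]
        rw [h7]
        have h8 : ((((Finset.univ : Finset (Fin (d + 3) × Fin (d + 3))).filter
              (fun p => Sp p.1 p.2)).card : ℕ) : ℝ) ≤ 8 := by
          have := FIN.card_Sp d hd
          exact_mod_cast this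
        have h9 := mul_le_mul_of_nonneg_right h8 hA0
        linarith
    _ ≤ 8 + (16 * m + ε) * q := by
        have : (16 * m + ε / 2 + ε / 4) * q + ε / 4 * q = (16 * m + ε) * q := by ring
        linarith
    _ = 8 + (16 * m + ε) * L ^ 2 / s := by rw [hq]; ring

end Pool.Agent.J4.H93.D3
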