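import Pool.Agent.J4.H93.D3.Defs3
import Pool.Agent.J4.H93.D3.T_LOW

set_option autoImplicit false

open Filter Topology Finset

namespace Pool.Agent.J4.H93.D3

namespace LOWZe

/-- the main inequality for a relation -/
theorem energy_ge (h2 : S_ZZ) (h3 : S_PT) {d : ℕ} {s : ℝ} (hs : 0 < s)
    {x : Fin (d + 3) → E (d + 1)} (hx : IsConf d x) (a b : Fin (d + 3) → ℝ)
    (ha : ∀ i, 0 ≤ a i) (hb : ∀ i, 0 ≤ b i) (hab : ∀ i, a i * b i = 0)
    (hsa : ∑ i, a i = 1) (hsb : ∑ i, b i = 1) (hz : ∑ i, a i • x i = ∑ i, b i • x i) :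
    8 * (1 + s * ‖∑ i, a i • x i‖ ^ 2 / 2) / (1 + ‖∑ i, a i • x i‖) ^ 2 ≤
      2 ^ (s / 2) * riesz s x := by
  rw [riesz_eq h3 hs hx]
  have hexp : ∀ i j, i ≠ j → Real.exp (s/2 * inner ℝ (x i) (x j)) ≤
      (1 - inner ℝ (x i) (x j))^(-(s/2)) := fun i j hij => exp_le_term h3 hs hx hij
  obtain ⟨hinj, hu⟩ := hx
  have hT : ∑ i, ∑ j ∈ univ.erase i, Real.exp (s/2 * inner ℝ (x i) (x j)) ≤
      ∑ i, ∑ j ∈ univ.erase i, (1 - inner ℝ (x i) (x j))^(-(s/2)) := by
    refine sum_le_sum fun i _ => sum_le_sum fun j hj => ?_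
    exact hexp i j (ne_of_mem_erase hj).symm
  refine le_trans ?_ hT
  clear hT hexp
  obtain ⟨hzz, hM⟩ := h2 (d + 3) (d + 1) x a b hu ha hb hsa hsb hz
  set z := ∑ i, a i • x i with hzd
  set M := (1 + ‖z‖) / 2 with hMd
  have hMpos : 0 < M := by positivity
  have haM : ∀ i, a i ≤ M := fun i => (hM i).1
  have hbM : ∀ i, b i ≤ M := fun i => (hM i).2
  have hw : ∀ i j, a i * b j + b i * a j ≤ M ^ 2 := by
    intro i j
    rcases mul_eq_zero.mp (hab i) with h | h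
    · rw [h, zero_mul, zero_add, sq]
      exact mul_le_mul (hbM i) (haM j) (ha j) hMpos.le
    · rw [h, zero_mul, add_zero, sq]
      exact mul_le_mul (haM i) (hbM j) (hb j) hMpos.le
  have hF : ∀ i j, 1 + s/2 * inner ℝ (x i) (x j) ≤ Real.exp (s/2 * inner ℝ (x i) (x j)) := by
    intro i j
    have := Real.add_one_le_exp (s/2 * inner ℝ (x i) (x j))
    linarith
  -- the two weighted sums
  have hW1 : ∑ i, ∑ j, a i * b j * (1 + s/2 * inner ℝ (x i) (x j)) = 1 + s/2 * ‖z‖^2 := by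
    rw [hzz]
    have h6 : ∀ i, ∑ j, a i * b j * (1 + s/2 * inner ℝ (x i) (x j)) =
        a i + s/2 * ∑ j, a i * b j * inner ℝ (x i) (x j) := by
      intro i
      have : ∑ j, a i * b j = a i := by rw [← mul_sum, hsb, mul_one]
      rw [mul_sum]
      nth_rewrite 2 [← this]
      rw [← sum_add_distrib]
      refine sum_congr rfl fun j _ => ?_
      ring
    simp_rw [h6]
    rw [sum_add_distrib, hsa, ← mul_sum]
  have hW2 : ∑ i, ∑ j, b i * a j * (1 + s/2 * inner ℝ (x i) (x j)) = 1 + s/2 * ‖z‖^2 := by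
    rw [← hW1, sum_comm]
    refine sum_congr rfl fun i _ => sum_congr rfl fun j _ => ?_
    rw [real_inner_comm (x i) (x j)]
    ring
  have hdrop : ∀ i, ∑ j, (a i * b j + b i * a j) * (1 + s/2 * inner ℝ (x i) (x j)) =
      ∑ j ∈ univ.erase i, (a i * b j + b i * a j) * (1 + s/2 * inner ℝ (x i) (x j)) := by
    intro i
    rw [← add_sum_erase univ _ (mem_univ i)]
    have : a i * b i + b i * a i = 0 := by rw [mul_comm (b i) (a i), hab i]; simp
    rw [this]; simp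
  have hmain : 2 * (1 + s/2 * ‖z‖^2) ≤
      M ^ 2 * ∑ i, ∑ j ∈ univ.erase i, Real.exp (s/2 * inner ℝ (x i) (x j)) := by
    have h7 : 2 * (1 + s/2 * ‖z‖^2) =
        ∑ i, ∑ j, (a i * b j + b i * a j) * (1 + s/2 * inner ℝ (x i) (x j)) := by
      have : ∑ i, ∑ j, (a i * b j + b i * a j) * (1 + s/2 * inner ℝ (x i) (x j)) =
        (∑ i, ∑ j, a i * b j * (1 + s/2 * inner ℝ (x i) (x j))) +
        ∑ i, ∑ j, b i * a j * (1 + s/2 * inner ℝ (x i) (x j)) := by
        rw [← sum_add_distrib]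
        refine sum_congr rfl fun i _ => ?_
        rw [← sum_add_distrib]
        refine sum_congr rfl fun j _ => ?_
        ring
      rw [this, hW1, hW2]; ring
    rw [h7, mul_sum]
    refine sum_le_sum fun i _ => ?_
    rw [hdrop i, mul_sum]
    refine sum_le_sum fun j _ => ?_
    have hw0 : 0 ≤ a i * b j + b i * a j :=
      add_nonneg (mul_nonneg (ha i) (hb j)) (mul_nonneg (hb i) (ha j))
    calc (a i * b j + b i * a j) * (1 + s/2 * inner ℝ (x i) (x j))
        ≤ (a i * b j + b i * a j) * Real.exp (s/2 * inner ℝ (x i) (x j)) :=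
          mul_le_mul_of_nonneg_left (hF i j) hw0
      _ ≤ M ^ 2 * Real.exp (s/2 * inner ℝ (x i) (x j)) :=
          mul_le_mul_of_nonneg_right (hw i j) (Real.exp_pos _).le
  have hM2 : 8 * (1 + s * ‖z‖ ^ 2 / 2) / (1 + ‖z‖) ^ 2 = 2 * (1 + s/2 * ‖z‖^2) / M ^ 2 := by
    rw [hMd]
    have : (1 + ‖z‖) ≠ 0 := by positivity
    field_simp
    ring
  rw [hM2, div_le_iff₀ (by positivity)]
  linarith

theorem inner_le (d : ℕ) {τ : ℝ} {x : Fin (d + 3) → E (d + 1)} (a : Fin (d + 3) → ℝ)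
    (ha : ∀ i, 0 ≤ a i) (hsa : ∑ i, a i = 1) (l : Fin (d + 3)) (hl : a l = 0)
    (h : ∀ k, k ≠ l → inner ℝ (x k) (x l) ≤ -τ) : inner ℝ (∑ i, a i • x i) (x l) ≤ -τ := by
  rw [sum_inner]
  have h1 : ∀ k ∈ (univ : Finset (Fin (d + 3))), inner ℝ (a k • x k) (x l) ≤ a k * (-τ) := by
    intro k _
    rw [real_inner_smul_left]
    by_cases hk : k = l
    · subst hk
      rw [hl]; simp
    · exact mul_le_mul_of_nonneg_left (h k hk) (ha k)
  refine (sum_le_sum h1).trans ?_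
  rw [← sum_mul, hsa, one_mul]

theorem card_oth {d : ℕ} {i i' j j' : Fin (d + 3)} (h1 : i ≠ i') (h2 : j ≠ j') (h3 : i ≠ j)
    (h4 : i ≠ j') (h5 : i' ≠ j) (h6 : i' ≠ j') : ((oth i i' j j').card : ℝ) = (d : ℝ) - 1 := by
  have hc : ({i, i', j, j'} : Finset (Fin (d + 3))).card = 4 := by
    rw [card_insert_of_notMem, card_insert_of_notMem, card_insert_of_notMem, card_singleton]
    · simpa using h2
    · simp [h5, h6]
    · simp [h1, h3, h4]
  have h7 : (oth i i' j j').card = d + 3 - 4 := by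
    unfold oth
    rw [card_sdiff_of_subset (subset_univ _), hc, card_univ, Fintype.card_fin]
  have h8 : 4 ≤ d + 3 := by
    rw [← hc]
    calc _ ≤ (univ : Finset (Fin (d + 3))).card := card_le_card (subset_univ _)
      _ = d + 3 := by simp
  rw [h7, Nat.cast_sub h8]
  push_cast
  ring

end LOWZe

open LOWZe

theorem t_LOWZ (h1 : S_KER) (h2 : S_ZZ) (h3 : S_PT) (h4 : S_MM) : S_LOWZ := by
  intro d s τ hs hτ x hx i i' j j' e1 e2 e3 e4 e5 e6 hF
  obtain ⟨a, b, ha, hb, hab, hsa, hsb, hz⟩ := h1 d x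
  refine ⟨‖∑ i, a i • x i‖, norm_nonneg _, energy_ge h2 h3 hs hx a b ha hb hab hsa hsb hz, ?_⟩
  have hnf : ∀ l ∈ oth i i' j j', ∀ k, ¬ Four i i' j j' k l := by
    intro l hl k hk
    unfold oth at hl
    rw [Finset.mem_sdiff] at hl
    have hl2 := hl.2
    simp only [mem_insert, mem_singleton, not_or] at hl2
    rcases hk with ⟨_, h | h⟩ | ⟨_, h | h⟩
    · exact hl2.2.2.1 h
    · exact hl2.2.2.2 h
    · exact hl2.1 h
    · exact hl2.2.1 h
  have hm := h4 (d + 3) (d + 1) x (oth i i' j j') (∑ i, a i • x i) τ hτ hx.2 ?_ ?_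
  · rw [card_oth e1 e2 e3 e4 e5 e6] at hm
    exact hm
  · intro l hl
    have hk : ∀ k, k ≠ l → inner ℝ (x k) (x l) ≤ -τ := fun k hk => hF k l hk (hnf l hl k)
    rcases mul_eq_zero.mp (hab l) with h | h
    · exact inner_le d a ha hsa l h hk
    · rw [hz]
      exact inner_le d b hb hsb l h hk
  · intro k _ l hl hkl
    have := hF k l hkl (hnf l hl k)
    linarith

end Pool.Agent.J4.H93.D3
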