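import Pool.Agent.J4.H93.D3.Defs3

set_option autoImplicit false

open Filter Topology

namespace Pool.Agent.J4.H93.D3

theorem t_MM : S_MM := by
  classical
  intro N n x Y z τ hτ hx hz hY
  set σ : ℝ := ∑ k ∈ Y, ∑ l ∈ Y.erase k, |inner ℝ (x k) (x l)| with hσ
  set m : ℝ := (Y.card : ℝ) with hm
  set S : E n := ∑ l ∈ Y, x l with hS
  have hσ0 : 0 ≤ σ := Finset.sum_nonneg fun _ _ => Finset.sum_nonneg fun _ _ => abs_nonneg _
  have h1 : inner ℝ z S ≤ -(τ * m) := by
    rw [hS, inner_sum]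
    calc ∑ l ∈ Y, inner ℝ z (x l) ≤ ∑ l ∈ Y, -τ := Finset.sum_le_sum hz
      _ = -(τ * m) := by rw [Finset.sum_const, nsmul_eq_mul]; ring
  have h2 : ‖S‖ ^ 2 = m - σ := by
    rw [← real_inner_self_eq_norm_sq, hS, sum_inner]
    have : ∀ k ∈ Y, inner ℝ (x k) (∑ l ∈ Y, x l) = 1 - ∑ l ∈ Y.erase k, |inner ℝ (x k) (x l)| := by
      intro k hk
      rw [inner_sum, ← Finset.add_sum_erase Y _ hk, real_inner_self_eq_norm_sq, hx k]
      have h3 : ∑ l ∈ Y.erase k, inner ℝ (x k) (x l) = - ∑ l ∈ Y.erase k, |inner ℝ (x k) (x l)| := by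
        rw [← Finset.sum_neg_distrib]
        refine Finset.sum_congr rfl fun l hl => ?_
        have hl' := Finset.mem_erase.1 hl
        rw [abs_of_nonpos (hY k hk l hl'.2 (Ne.symm hl'.1)), neg_neg]
      rw [h3]
      ring
    rw [Finset.sum_congr rfl this, Finset.sum_sub_distrib]
    simp [hm, hσ]
  have h3 : τ * m ≤ ‖z‖ * ‖S‖ := by
    have := abs_real_inner_le_norm z S
    have h4 := neg_abs_le (inner ℝ z S)
    linarith
  have hm0 : 0 ≤ m := by positivity
  have h4 : (τ * m) ^ 2 ≤ ‖z‖ ^ 2 * (m - σ) := by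
    rw [← h2, ← mul_pow]
    exact pow_le_pow_left₀ (by positivity) h3 2
  have h5 : 0 ≤ m - σ := by rw [← h2]; positivity
  rcases h5.eq_or_lt with h6 | h6
  · rw [← h6, mul_zero] at h4
    have h7 : m = 0 := by
      have : (τ * m) ^ 2 = 0 := le_antisymm h4 (by positivity)
      have := pow_eq_zero_iff (two_ne_zero) |>.1 this
      rcases mul_eq_zero.1 this with h | h
      · exact absurd h hτ.ne'
      · exact h
    have h8 : σ = 0 := by linarith
    rw [h7, h8]
    simp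
  · have h7 : τ ^ 2 * (m + σ) * (m - σ) ≤ ‖z‖ ^ 2 * (m - σ) := by
      refine le_trans ?_ h4
      nlinarith [mul_nonneg (sq_nonneg τ) (sq_nonneg σ)]
    exact le_of_mul_le_mul_right h7 h6

end Pool.Agent.J4.H93.D3
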