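import Pool.Agent.J4.H93.D3.Defs3

/-!
# Project D3, piece ORT
-/

set_option autoImplicit false

open Filter Topology

namespace Pool.Agent.J4.H93.D3

namespace ORTAux

/-- the algebraic part -/
theorem core {m ε θ s L l u σ T : ℝ} (hm : 1 ≤ m) (hε : 0 < ε) (hθ : 0 < θ) (hθ1 : θ ≤ 1 / 10)
    (hθ2 : 80 * m * θ ≤ ε) (hs : 0 < s) (hL : 0 < L) (hl : (1 - θ) * L ≤ l) (hl0 : 0 < l)
    (hκ : 2 ≤ l * (θ - 2 / s)) (hc : (16 * m + ε) * L ^ 2 / s ≤ (1 - θ) * θ ^ 2 * s)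
    (hu : 0 ≤ u) (hσ : 0 ≤ σ) (h1 : (2 / s * l) ^ 2 * (m + σ) ≤ u ^ 2)
    (h2 : 8 * (1 + s * u ^ 2 / 2) / (1 + u) ^ 2 ≤ T) (h3 : T ≤ 8 + (16 * m + ε) * L ^ 2 / s) :
    σ ≤ ε ∧ 8 + (16 * m - ε) * L ^ 2 / s ≤ T := by
  have hτ : 0 < 2 / s * l := by positivity
  have hu1 : 2 / s * l ≤ u := by
    apply le_of_sq_le_sq _ hu
    refine le_trans ?_ h1
    have : 0 < (2 / s * l) ^ 2 := by positivity
    nlinarith
  have hu0 : 0 < u := lt_of_lt_of_le hτ hu1
  -- the main inequality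
  have hk : 4 ≤ u * (s * θ - 2) := by
    have e1 : (2 / s * l) * (s * θ - 2) = 2 * (l * (θ - 2 / s)) := by field_simp
    have e2 : 0 ≤ s * θ - 2 := by
      have e3 : 0 < θ - 2 / s := by
        by_contra hcon
        push Not at hcon
        have := mul_nonpos_of_nonneg_of_nonpos hl0.le hcon
        linarith
      have e4 : s * θ - 2 = s * (θ - 2 / s) := by field_simp
      rw [e4]
      positivity
    calc (4 : ℝ) ≤ 2 * (l * (θ - 2 / s)) := by linarith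
      _ = (2 / s * l) * (s * θ - 2) := e1.symm
      _ ≤ u * (s * θ - 2) := mul_le_mul_of_nonneg_right hu1 e2
  have hpos : 0 < (1 + u) ^ 2 := by positivity
  have hmain : 8 * (1 + u) ^ 2 + 4 * s * u ^ 2 * (1 - θ) ≤ T * (1 + u) ^ 2 := by
    rw [div_le_iff₀ hpos] at h2
    refine le_trans ?_ h2
    have e5 : 4 * u ≤ u * (u * (s * θ - 2)) := by nlinarith
    nlinarith
  -- `u` is small
  have hq : T - 8 ≤ (1 - θ) * θ ^ 2 * s := by linarith
  have hsm : (2 * u) ^ 2 ≤ (θ * (1 + u)) ^ 2 := by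
    have e6 : 4 * s * u ^ 2 * (1 - θ) ≤ (1 - θ) * θ ^ 2 * s * (1 + u) ^ 2 := by
      have : 4 * s * u ^ 2 * (1 - θ) ≤ (T - 8) * (1 + u) ^ 2 := by linarith
      exact this.trans (mul_le_mul_of_nonneg_right hq hpos.le)
    have e7 : 0 < s * (1 - θ) := mul_pos hs (by linarith)
    have e8 : s * (1 - θ) * (2 * u) ^ 2 ≤ s * (1 - θ) * (θ * (1 + u)) ^ 2 := by
      calc s * (1 - θ) * (2 * u) ^ 2 = 4 * s * u ^ 2 * (1 - θ) := by ring
        _ ≤ (1 - θ) * θ ^ 2 * s * (1 + u) ^ 2 := e6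
        _ = s * (1 - θ) * (θ * (1 + u)) ^ 2 := by ring
    exact le_of_mul_le_mul_left e8 e7
  have hsm2 : u ≤ θ := by
    have e9 : 2 * u ≤ θ * (1 + u) := le_of_sq_le_sq hsm (by positivity)
    nlinarith
  -- the lower bound
  have hq0 : 0 < L ^ 2 / s := by positivity
  have hlow : 16 * (1 - 5 * θ) * (L ^ 2 / s) * (m + σ) ≤ T - 8 := by
    have f1 : 4 * s * u ^ 2 * (1 - θ) ≤ (T - 8) * (1 + u) ^ 2 := by linarith
    have f0 : 0 ≤ T - 8 := by
      have g1 : 0 ≤ 4 * s * u ^ 2 * (1 - θ) := by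
        have : 0 ≤ 1 - θ := by linarith
        positivity
      by_contra hcon
      push Not at hcon
      have := mul_neg_of_neg_of_pos hcon hpos
      linarith
    have f2 : (T - 8) * (1 + u) ^ 2 ≤ (T - 8) * (1 + θ) ^ 2 := by
      apply mul_le_mul_of_nonneg_left _ f0
      nlinarith
    have f3 : 4 * (1 - θ) ^ 2 * (L ^ 2 / s) * (m + σ) ≤ s * u ^ 2 := by
      have g2 : ((1 - θ) * L) ^ 2 ≤ l ^ 2 := by
        apply pow_le_pow_left₀ _ hl
        have : 0 ≤ 1 - θ := by linarith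
        positivity
      calc 4 * (1 - θ) ^ 2 * (L ^ 2 / s) * (m + σ) = 4 / s * ((1 - θ) * L) ^ 2 * (m + σ) := by ring
        _ ≤ 4 / s * l ^ 2 * (m + σ) := by
            have : 0 ≤ m + σ := by linarith
            gcongr
        _ = s * ((2 / s * l) ^ 2 * (m + σ)) := by field_simp; ring
        _ ≤ s * u ^ 2 := mul_le_mul_of_nonneg_left h1 hs.le
    have f4 : (1 - 5 * θ) * (1 + θ) ^ 2 ≤ (1 - θ) ^ 3 := by nlinarith [sq_nonneg θ, mul_pos hθ (mul_pos hθ hθ)]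
    have f5 : 16 * (1 - θ) ^ 3 * (L ^ 2 / s) * (m + σ) ≤ (T - 8) * (1 + θ) ^ 2 := by
      calc 16 * (1 - θ) ^ 3 * (L ^ 2 / s) * (m + σ) =
          4 * (1 - θ) * (4 * (1 - θ) ^ 2 * (L ^ 2 / s) * (m + σ)) := by ring
        _ ≤ 4 * (1 - θ) * (s * u ^ 2) := mul_le_mul_of_nonneg_left f3 (by linarith)
        _ = 4 * s * u ^ 2 * (1 - θ) := by ring
        _ ≤ _ := f1.trans f2
    have f6 : 0 < (1 + θ) ^ 2 := by positivity
    have f7 : 16 * (1 - 5 * θ) * (L ^ 2 / s) * (m + σ) * (1 + θ) ^ 2 ≤ (T - 8) * (1 + θ) ^ 2 := by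
      refine le_trans ?_ f5
      have f8 : 0 ≤ 16 * (L ^ 2 / s) * (m + σ) := by
        have : 0 ≤ m + σ := by linarith
        positivity
      calc 16 * (1 - 5 * θ) * (L ^ 2 / s) * (m + σ) * (1 + θ) ^ 2 =
          16 * (L ^ 2 / s) * (m + σ) * ((1 - 5 * θ) * (1 + θ) ^ 2) := by ring
        _ ≤ 16 * (L ^ 2 / s) * (m + σ) * (1 - θ) ^ 3 := mul_le_mul_of_nonneg_left f4 f8
        _ = _ := by ring
    exact le_of_mul_le_mul_right f7 f6
  have e10 : (16 * m + ε) * L ^ 2 / s = (16 * m + ε) * (L ^ 2 / s) := by ring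
  have e11 : (16 * m - ε) * L ^ 2 / s = (16 * m - ε) * (L ^ 2 / s) := by ring
  rw [e10] at h3
  rw [e11]
  obtain ⟨q, hqq⟩ : ∃ q, q = L ^ 2 / s := ⟨_, rfl⟩
  rw [← hqq] at hlow h3 hq0 ⊢
  constructor
  · have g3 : 16 * (1 - 5 * θ) * (m + σ) ≤ 16 * m + ε := by
      have : q * (16 * (1 - 5 * θ) * (m + σ)) ≤ q * (16 * m + ε) := by linarith
      exact le_of_mul_le_mul_left this hq0
    nlinarith
  · have g4 : (16 * m - ε) * q ≤ 16 * (1 - 5 * θ) * q * (m + σ) := by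
      have g5 : 16 * m - ε ≤ 16 * (1 - 5 * θ) * (m + σ) := by
        have : 0 ≤ (1 - 5 * θ) * σ := mul_nonneg (by linarith) hσ
        nlinarith
      calc (16 * m - ε) * q ≤ (16 * (1 - 5 * θ) * (m + σ)) * q :=
            mul_le_mul_of_nonneg_right g5 hq0.le
        _ = _ := by ring
    linarith

end ORTAux

open ORTAux in
theorem t_ORT : S_ORT := by
  intro m C ε hm hε
  obtain ⟨θ, hθ, hθ1, hθ2⟩ : ∃ θ : ℝ, 0 < θ ∧ θ ≤ 1 / 10 ∧ 80 * m * θ ≤ ε := by
    refine ⟨min (1 / 10) (ε / (80 * m)), by positivity, min_le_left _ _, ?_⟩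
    calc 80 * m * min (1 / 10) (ε / (80 * m)) ≤ 80 * m * (ε / (80 * m)) :=
          mul_le_mul_of_nonneg_left (min_le_right _ _) (by positivity)
      _ = ε := by field_simp
  have hlog := Real.tendsto_log_atTop
  have a1 : ∀ᶠ s : ℝ in atTop, ‖Real.log (Real.log s)‖ ≤ θ / 4 * ‖Real.log s‖ :=
    (Real.isLittleO_log_id_atTop.comp_tendsto hlog).def (by positivity)
  have a2 : ∀ᶠ s : ℝ in atTop, max (8 / θ) (|C| * (2 / θ)) ≤ Real.log s :=
    hlog.eventually_ge_atTop _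
  set c : ℝ := θ ^ 2 * (1 - θ) / (16 * m + ε) with hc
  have hθ3 : 0 < 1 - θ := by linarith
  have hc0 : 0 < c := by positivity
  have a3 : ∀ᶠ s : ℝ in atTop, ‖Real.log s‖ ≤ √c * ‖s‖ :=
    Real.isLittleO_log_id_atTop.def (Real.sqrt_pos.2 hc0)
  obtain ⟨S, hS⟩ := eventually_atTop.1 (a1.and (a2.and (a3.and (eventually_ge_atTop (4 / θ)))))
  refine ⟨max S 1, ε, by positivity, hε, fun s hs => ?_⟩
  obtain ⟨b1, b2, b3, b4⟩ := hS s ((le_max_left _ _).trans hs)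
  have hs1 : 1 ≤ s := (le_max_right _ _).trans hs
  have hs0 : 0 < s := by linarith
  have hL8 : 8 / θ ≤ Real.log s := (le_max_left _ _).trans b2
  have hL0 : 0 < Real.log s := lt_of_lt_of_le (by positivity) hL8
  rw [Real.norm_eq_abs, Real.norm_eq_abs, abs_of_pos hL0] at b1
  rw [Real.norm_eq_abs, Real.norm_eq_abs, abs_of_pos hL0, abs_of_pos hs0] at b3
  have hCL : |C| ≤ θ / 2 * Real.log s := by
    have : |C| * (2 / θ) ≤ Real.log s := (le_max_right _ _).trans b2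
    calc |C| = θ / 2 * (|C| * (2 / θ)) := by field_simp
      _ ≤ θ / 2 * Real.log s := mul_le_mul_of_nonneg_left this (by positivity)
  obtain ⟨l, hl⟩ : ∃ l, l = Real.log s - 2 * Real.log (Real.log s) - C := ⟨_, rfl⟩
  have hl1 : (1 - θ) * Real.log s ≤ l := by
    have := le_abs_self C
    have := le_abs_self (Real.log (Real.log s))
    rw [hl]
    nlinarith
  have hl0 : 0 < l := lt_of_lt_of_le (by positivity) hl1
  have hτ : tau C s = 2 / s * l := by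
    unfold tau
    rw [hl]
  have hκ : 2 ≤ l * (θ - 2 / s) := by
    have c1 : 2 / s ≤ θ / 2 := by
      rw [div_le_iff₀ hs0]
      have : 4 / θ ≤ s := b4
      rw [div_le_iff₀ hθ] at this
      linarith
    have c2 : 4 / θ ≤ l := by
      have : 4 / θ ≤ (1 - θ) * (8 / θ) := by
        rw [show (4 : ℝ) / θ = 1 / 2 * (8 / θ) by ring]
        exact mul_le_mul_of_nonneg_right (by linarith) (by positivity)
      refine this.trans (le_trans ?_ hl1)
      exact mul_le_mul_of_nonneg_left hL8 hθ3.le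
    calc (2 : ℝ) = 4 / θ * (θ / 2) := by field_simp; norm_num
      _ ≤ l * (θ - 2 / s) := mul_le_mul c2 (by linarith) (by positivity) hl0.le
  have hcc : (16 * m + ε) * Real.log s ^ 2 / s ≤ (1 - θ) * θ ^ 2 * s := by
    have d1 : Real.log s ^ 2 ≤ c * s ^ 2 := by
      calc Real.log s ^ 2 ≤ (√c * s) ^ 2 := pow_le_pow_left₀ hL0.le b3 2
        _ = c * s ^ 2 := by rw [mul_pow, Real.sq_sqrt hc0.le]
    rw [div_le_iff₀ hs0]
    calc (16 * m + ε) * Real.log s ^ 2 ≤ (16 * m + ε) * (c * s ^ 2) :=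
          mul_le_mul_of_nonneg_left d1 (by positivity)
      _ = (1 - θ) * θ ^ 2 * s * s := by
          rw [hc]
          field_simp
  refine ⟨by rw [hτ]; positivity, fun u σ T hu hσ h1 h2 h3 => ?_⟩
  rw [hτ] at h1
  exact core hm hε hθ hθ1 hθ2 hs0 hL0 hl1 hl0 hκ hcc hu hσ h1 h2 h3

end Pool.Agent.J4.H93.D3
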