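import Pool.Agent.J4.H93.D3.Defs3

/-!
# Project D3, piece TAU: the bound for the inner products of the other pairs
-/

set_option autoImplicit false

open Filter Topology

namespace Pool.Agent.J4.H93.D3

theorem TAU_num {K R s u w T : ℝ} (hs4 : 4 ≤ s) (hu0 : 0 ≤ u) (hu1 : u ≤ 1) (hK : 0 < K)
    (hR0 : 0 < R) (hR1 : 1 / s ≤ R) (hw : w ≤ 1 / 16) (hT0 : 0 ≤ T)
    (hterm : (((1 + u) / 2) ^ 2 - w) * T ≤
      ((1 + u) / 2) ^ 2 * (8 + K * R) - 2 * (1 + s / 2 * u ^ 2)) : T ≤ 8 * (8 + K) * R := by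
  have hs0 : 0 < s := by linarith
  have e1 : T / 8 ≤ (((1 + u) / 2) ^ 2 - w) * T := by
    have h1 : (1 : ℝ) / 8 ≤ ((1 + u) / 2) ^ 2 - w := by nlinarith
    have h2 := mul_le_mul_of_nonneg_right h1 hT0
    linarith
  have e2 : ((1 + u) / 2) ^ 2 * (8 + K * R) ≤ 2 + 4 * u + 2 * u ^ 2 + K * R := by
    have h1 : ((1 + u) / 2) ^ 2 ≤ 1 := by nlinarith
    have h2 := mul_le_mul_of_nonneg_right h1 (mul_pos hK hR0).le
    have h3 : ((1 + u) / 2) ^ 2 * (8 + K * R) =
      2 + 4 * u + 2 * u ^ 2 + ((1 + u) / 2) ^ 2 * (K * R) := by ring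
    rw [h3]
    linarith
  have e3 : 4 * u + 2 * u ^ 2 - s * u ^ 2 ≤ 8 / s := by
    rw [le_div_iff₀ hs0]
    have h1 := mul_nonneg (mul_nonneg (sq_nonneg u) hs0.le) (sub_nonneg.2 hs4)
    have h2 := sq_nonneg (s * u - 4)
    have h3 : 8 - (4 * u + 2 * u ^ 2 - s * u ^ 2) * s =
      ((s * u - 4) ^ 2 + u ^ 2 * s * (s - 4)) / 2 := by ring
    linarith
  have e4 : 8 / s ≤ 8 * R := by
    have h1 : 8 / s = 8 * (1 / s) := by ring
    rw [h1]
    linarith
  have e5 : 2 * (1 + s / 2 * u ^ 2) = 2 + s * u ^ 2 := by ring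
  have e6 : 8 * (8 + K) * R = 8 * (8 * R + K * R) := by ring
  rw [e5] at hterm
  rw [e6]
  linarith

theorem t_TAU (h1 : S_KER) (h2 : S_ZZ) (h3 : S_PT) (h4 : S_STR2) : S_TAU := by
  classical
  intro d K ε hK hε
  have hL9 : 0 < Real.log 9 := Real.log_pos (by norm_num)
  obtain ⟨ε₀, hε₀⟩ : ∃ ε₀, ε₀ = min ε (Real.exp (-(32 * Real.log 9))) := ⟨_, rfl⟩
  have hε₀pos : 0 < ε₀ := by rw [hε₀]; exact lt_min hε (Real.exp_pos _)
  have hε₀ε : ε₀ ≤ ε := by rw [hε₀]; exact min_le_left _ _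
  have hε₀e : ε₀ ≤ Real.exp (-(32 * Real.log 9)) := by rw [hε₀]; exact min_le_right _ _
  obtain ⟨S₀, δ₀, hS₀, hδ₀, hstr⟩ := h4 d ε₀ hε₀pos
  have hlo : ∀ᶠ s : ℝ in atTop, K * (Real.log s) ^ 2 / s ≤ min δ₀ 1 := by
    have hc : 0 < min δ₀ 1 / K := div_pos (lt_min hδ₀ one_pos) hK
    have := (Real.isLittleO_pow_log_id_atTop (n := 2)).def hc
    filter_upwards [this, eventually_gt_atTop (0 : ℝ)] with s hs hs0
    rw [id, Real.norm_of_nonneg (sq_nonneg _), Real.norm_of_nonneg hs0.le] at hs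
    rw [div_le_iff₀ hs0]
    calc K * Real.log s ^ 2 ≤ K * (min δ₀ 1 / K * s) := mul_le_mul_of_nonneg_left hs hK.le
      _ = min δ₀ 1 * s := by field_simp
  obtain ⟨S₁, hS₁⟩ := eventually_atTop.1 hlo
  refine ⟨max (max S₀ S₁) 4, Real.log (8 * (8 + K)), by positivity, fun s hs x hx hE => ?_⟩
  have hsS₀ : S₀ ≤ s := ((le_max_left _ _).trans (le_max_left _ _)).trans hs
  have hsS₁ : S₁ ≤ s := ((le_max_right _ _).trans (le_max_left _ _)).trans hs
  have hs4 : 4 ≤ s := (le_max_right _ _).trans hs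
  have hs0 : 0 < s := by linarith
  have hsmall := hS₁ s hsS₁
  have hL1 : 1 ≤ Real.log s := by
    rw [Real.le_log_iff_exp_le hs0]
    linarith [Real.exp_one_lt_d9]
  obtain ⟨i, i', j, j', hsh, hrest, hdist⟩ := hstr s hsS₀ x hx
    (hE.trans (by linarith [hsmall.trans (min_le_left _ _)]))
  obtain ⟨k1, k2, k3, k4, k5, k6, k7, k8, k9, k10, k11⟩ := hsh
  refine ⟨i, i', j, j', ⟨fun k l h => (k1 k l h).trans hε₀ε, k2, k3, k4, k5, k6, k7,
    k8.trans hε₀ε, k9.trans hε₀ε, k10.trans hε₀ε, fun k a1 a2 a3 a4 =>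
      ⟨(k11 k a1 a2 a3 a4).1.trans hε₀ε, (k11 k a1 a2 a3 a4).2.trans hε₀ε⟩⟩,
    hrest.trans hε₀ε, hdist, fun k l hkl hF => ?_⟩
  obtain ⟨a, b, ha, hb, hab, hsa, hsb, hrel⟩ := h1 d x
  obtain ⟨hzz, hzb⟩ := h2 (d + 3) (d + 1) x a b hx.2 ha hb hsa hsb hrel
  obtain ⟨u, hu⟩ : ∃ u, u = ‖∑ i, a i • x i‖ := ⟨_, rfl⟩
  rw [← hu] at hzz hzb
  have hu0 : 0 ≤ u := by rw [hu]; exact norm_nonneg _
  have hu1 : u ≤ 1 := by
    rw [hu, ← hsa]
    refine (norm_sum_le _ _).trans (le_of_eq ?_)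
    refine Finset.sum_congr rfl fun p _ => ?_
    rw [norm_smul, hx.2 p, mul_one, Real.norm_of_nonneg (ha p)]
  set T : Fin (d + 3) → Fin (d + 3) → ℝ := fun i j => if i = j then 0 else
    (2 : ℝ) ^ (s / 2) * ‖x i - x j‖ ^ (-s) with hT
  have hT0 : ∀ i j, 0 ≤ T i j := by
    intro i j
    simp only [hT]
    split_ifs
    · exact le_rfl
    · positivity
  have hTs : ∀ i j, T i j = T j i := by
    intro i j
    simp only [hT, norm_sub_rev (x i), eq_comm (a := i)]
  have hTsum : ∑ i, ∑ j, T i j = 2 ^ (s / 2) * riesz s x := by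
    unfold riesz
    rw [Finset.mul_sum]
    refine Finset.sum_congr rfl fun i _ => ?_
    rw [Finset.mul_sum, ← Finset.sum_erase Finset.univ (a := i) (f := T i) (by simp [hT])]
    refine Finset.sum_congr rfl fun j hj => ?_
    simp only [hT]
    rw [if_neg (Finset.ne_of_mem_erase hj).symm]
  have hE9 : ∑ i, ∑ j, T i j ≤ 9 := by
    rw [hTsum]
    linarith [hsmall.trans (min_le_right _ _)]
  have hTle : ∀ i j, T i j ≤ 9 := by
    intro i j
    refine le_trans ?_ hE9
    exact (Finset.single_le_sum (fun q _ => hT0 i q) (Finset.mem_univ j)).trans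
      (Finset.single_le_sum (f := fun p => ∑ q, T p q)
        (fun p _ => Finset.sum_nonneg fun q _ => hT0 p q) (Finset.mem_univ i))
  have hTexp : ∀ i j, i ≠ j → Real.exp (s / 2 * inner ℝ (x i) (x j)) ≤ T i j := by
    intro i j hij
    obtain ⟨e1, -, e2⟩ := h3 (d + 1) s (x i) (x j) hs0 (hx.2 i) (hx.2 j) (fun h => hij (hx.1 h))
    simp only [hT]
    rw [if_neg hij, e1]
    exact e2
  have hTrest : ∀ p q, p ≠ q → ¬ Four i i' j j' p q → T p q ≤ ε₀ := by
    intro p q hpq hFpq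
    refine le_trans ?_ hrest
    unfold rest
    rw [Finset.mul_sum]
    have e0 : ∀ p q : Fin (d + 3), 0 ≤ (if Four i i' j j' p q then 0 else ‖x p - x q‖ ^ (-s)) := by
      intro p q
      split_ifs
      · exact le_rfl
      · positivity
    have e1 : T p q ≤ 2 ^ (s / 2) * ∑ l ∈ Finset.univ.erase p,
        (if Four i i' j j' p l then 0 else ‖x p - x l‖ ^ (-s)) := by
      simp only [hT]
      rw [if_neg hpq]
      refine mul_le_mul_of_nonneg_left ?_ (by positivity)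
      have := Finset.single_le_sum (f := fun l => if Four i i' j j' p l then 0 else
        ‖x p - x l‖ ^ (-s)) (fun l _ => e0 p l) (Finset.mem_erase.2 ⟨hpq.symm, Finset.mem_univ q⟩)
      simp only [if_neg hFpq] at this
      exact this
    refine e1.trans ?_
    exact Finset.single_le_sum (f := fun p => (2 : ℝ) ^ (s / 2) * ∑ l ∈ Finset.univ.erase p,
        (if Four i i' j j' p l then 0 else ‖x p - x l‖ ^ (-s)))
        (fun p _ => mul_nonneg (by positivity) (Finset.sum_nonneg fun l _ => e0 p l))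
        (Finset.mem_univ p)
  have hwsum : ∑ p, ∑ q, a p * b q = 1 := by
    simp only [← Finset.mul_sum, hsb, mul_one, hsa]
  have hwe : ∑ p, ∑ q, a p * b q * (s / 2 * inner ℝ (x p) (x q)) = s / 2 * u ^ 2 := by
    rw [hzz, Finset.mul_sum]
    refine Finset.sum_congr rfl fun i _ => ?_
    rw [Finset.mul_sum]
    exact Finset.sum_congr rfl fun j _ => by ring
  have hw32 : ∀ p q, p ≠ q → ¬ Four i i' j j' p q → a p * b q ≤ 1 / 32 := by
    intro p q hpq hFpq
    have e4 : ∀ p q, 0 ≤ a p * b q * (Real.log 9 - s / 2 * inner ℝ (x p) (x q)) := by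
      intro p q
      rcases eq_or_ne p q with rfl | hpq
      · rw [hab, zero_mul]
      · refine mul_nonneg (mul_nonneg (ha p) (hb q)) (sub_nonneg.2 ?_)
        rw [Real.le_log_iff_exp_le (by norm_num)]
        exact (hTexp p q hpq).trans (hTle p q)
    have e5 := (Finset.single_le_sum (fun q _ => e4 p q) (Finset.mem_univ q)).trans
      (Finset.single_le_sum (f := fun p => ∑ q, a p * b q *
        (Real.log 9 - s / 2 * inner ℝ (x p) (x q)))
        (fun p _ => Finset.sum_nonneg fun q _ => e4 p q) (Finset.mem_univ p))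
    have e6 : ∑ p, ∑ q, a p * b q * (Real.log 9 - s / 2 * inner ℝ (x p) (x q)) =
        Real.log 9 - s / 2 * u ^ 2 := by
      simp only [mul_sub, Finset.sum_sub_distrib, hwe, ← Finset.sum_mul, hwsum, one_mul]
    rw [e6] at e5
    have e7 : s / 2 * inner ℝ (x p) (x q) ≤ -(32 * Real.log 9) :=
      Real.exp_le_exp.1 (((hTexp p q hpq).trans (hTrest p q hpq hFpq)).trans hε₀e)
    have e8 : a p * b q * (32 * Real.log 9) ≤ a p * b q *
        (Real.log 9 - s / 2 * inner ℝ (x p) (x q)) :=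
      mul_le_mul_of_nonneg_left (by linarith) (mul_nonneg (ha p) (hb q))
    have e9 : 0 ≤ s / 2 * u ^ 2 := by positivity
    have e10 : a p * b q * (32 * Real.log 9) ≤ Real.log 9 := by linarith
    by_contra hc
    push Not at hc
    nlinarith
  have hF' : ¬ Four i i' j j' l k := by
    intro h
    apply hF
    rcases h with h | h
    · exact Or.inr ⟨h.2, h.1⟩
    · exact Or.inl ⟨h.2, h.1⟩
  have hw16 : a k * b l + a l * b k ≤ 1 / 16 := by
    linarith [hw32 k l hkl hF, hw32 l k hkl.symm hF']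
  have hwT : 1 + s / 2 * u ^ 2 ≤ ∑ p, ∑ q, a p * b q * T p q := by
    have e1 : ∑ p, ∑ q, a p * b q * (1 + s / 2 * inner ℝ (x p) (x q)) ≤
        ∑ p, ∑ q, a p * b q * T p q := by
      refine Finset.sum_le_sum fun p _ => Finset.sum_le_sum fun q _ => ?_
      rcases eq_or_ne p q with rfl | hpq
      · rw [hab, zero_mul, zero_mul]
      · refine mul_le_mul_of_nonneg_left ?_ (mul_nonneg (ha p) (hb q))
        have := Real.add_one_le_exp (s / 2 * inner ℝ (x p) (x q))
        linarith [hTexp p q hpq]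
    refine le_trans (le_of_eq ?_) e1
    simp only [mul_add, mul_one, Finset.sum_add_distrib, hwsum, hwe]
  have hwc : ∀ p q, a p * b q + a q * b p ≤ ((1 + u) / 2) ^ 2 := by
    intro p q
    have e1 : ∀ p q, a p * b q ≤ ((1 + u) / 2) ^ 2 := by
      intro p q
      rw [sq]
      exact mul_le_mul (hzb p).1 (hzb q).2 (hb _) (by linarith)
    rcases mul_eq_zero.1 (hab p) with h | h
    · rw [h, zero_mul, zero_add]
      exact e1 q p
    · rw [h, mul_zero, add_zero]
      exact e1 p q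
  have hsum2 : ∑ p, ∑ q, (((1 + u) / 2) ^ 2 - (a p * b q + a q * b p)) * T p q ≤
      ((1 + u) / 2) ^ 2 * (8 + K * (Real.log s) ^ 2 / s) - 2 * (1 + s / 2 * u ^ 2) := by
    have e1 : ∑ p, ∑ q, a q * b p * T p q = ∑ p, ∑ q, a p * b q * T p q := by
      rw [Finset.sum_comm]
      refine Finset.sum_congr rfl fun p _ => Finset.sum_congr rfl fun q _ => ?_
      rw [hTs q p]
    simp only [sub_mul, add_mul, Finset.sum_sub_distrib, Finset.sum_add_distrib, e1,
      ← Finset.mul_sum]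
    have e2 := mul_le_mul_of_nonneg_left (hTsum.le.trans hE) (sq_nonneg ((1 + u) / 2))
    linarith [hwT]
  have hterm : (((1 + u) / 2) ^ 2 - (a k * b l + a l * b k)) * T k l ≤
      ((1 + u) / 2) ^ 2 * (8 + K * (Real.log s) ^ 2 / s) - 2 * (1 + s / 2 * u ^ 2) := by
    have e3 : ∀ p q, 0 ≤ (((1 + u) / 2) ^ 2 - (a p * b q + a q * b p)) * T p q := fun p q =>
      mul_nonneg (sub_nonneg.2 (hwc p q)) (hT0 p q)
    refine le_trans ?_ hsum2
    exact (Finset.single_le_sum (fun q _ => e3 k q) (Finset.mem_univ l)).trans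
      (Finset.single_le_sum (f := fun p => ∑ q, (((1 + u) / 2) ^ 2 - (a p * b q + a q * b p)) *
        T p q) (fun p _ => Finset.sum_nonneg fun q _ => e3 p q) (Finset.mem_univ k))
  obtain ⟨R, hR⟩ : ∃ R, R = (Real.log s) ^ 2 / s := ⟨_, rfl⟩
  have hR1 : 1 / s ≤ R := by
    rw [hR]
    gcongr
    nlinarith
  have hKR : K * (Real.log s) ^ 2 / s = K * R := by rw [hR]; ring
  rw [hKR] at hterm
  have hR0 : 0 < R := lt_of_lt_of_le (by positivity) hR1
  have hfin : T k l ≤ 8 * (8 + K) * R := TAU_num hs4 hu0 hu1 hK hR0 hR1 hw16 (hT0 k l) hterm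
  have hexp := (hTexp k l hkl).trans hfin
  have hLL : 0 < Real.log s := by linarith
  rw [← Real.le_log_iff_exp_le (by positivity), hR, Real.log_mul (by positivity) (by positivity),
    Real.log_div (by positivity) hs0.ne', Real.log_pow] at hexp
  unfold tau
  have e1 : inner ℝ (x k) (x l) = 2 / s * (s / 2 * inner ℝ (x k) (x l)) := by
    field_simp
  rw [e1, ← mul_neg]
  refine mul_le_mul_of_nonneg_left ?_ (by positivity)
  push_cast at hexp
  linarith

end Pool.Agent.J4.H93.D3
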