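import Pool.Agent.J4.H93.D3.Main
import Pool.Agent.J4.H93.D3.T_EXIb
import Pool.Agent.J4.H93.D3.T_MM
import Pool.Agent.J4.H93.D3.T_LOWZ
import Pool.Agent.J4.H93.D3.T_TAU
import Pool.Agent.J4.H93.D3.T_CFG2b
import Pool.Agent.J4.H93.D3.T_FIN2b
import Pool.Agent.J4.H93.D3.T_ORT

set_option autoImplicit false

open Filter Topology

namespace Pool.Agent.J4.H93.D3

theorem sig_nonneg {N n : ℕ} (i i' j j' : Fin N) (x : Fin N → E n) : 0 ≤ sig i i' j j' x :=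
  Finset.sum_nonneg fun _ _ => Finset.sum_nonneg fun _ _ => abs_nonneg _

theorem main2 (hL : S_LOWZ) (hT : S_TAU) (hU : S_UPP2) (hO : S_ORT) (d : ℕ) (hd : 2 ≤ d) (ε : ℝ)
    (hε : 0 < ε) :
    ∃ S : ℝ, 0 < S ∧ ∀ s : ℝ, S ≤ s → ∀ x, IsMin d s x →
      |2 ^ (s / 2) * riesz s x - 8 - 16 * ((d : ℝ) - 1) * (Real.log s) ^ 2 / s| ≤
        ε * (Real.log s) ^ 2 / s ∧
      ∃ i i' j j' : Fin (d + 3), Shape d i i' j j' ε x ∧ sig i i' j j' x ≤ ε ∧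
        2 ^ (s / 2) * rest i i' j j' s x ≤ ε ∧
        ∀ k l, k ≠ l → ¬ Four i i' j j' k l → Real.sqrt 2 < ‖x k - x l‖ := by
  have hd1 : 1 ≤ d := by omega
  have hm : (1:ℝ) ≤ (d:ℝ) - 1 := by
    have : (2:ℝ) ≤ d := by exact_mod_cast hd
    linarith
  obtain ⟨S1, C, hS1, h1⟩ := hT d (16 * ((d:ℝ) - 1) + 1) ε (by linarith) hε
  obtain ⟨S2, δ, hS2, hδ, h2⟩ := hO ((d:ℝ) - 1) C ε hm hε
  obtain ⟨S3, hS3, h3⟩ := hU d hd1 (min ε (min δ 1)) (lt_min hε (lt_min hδ one_pos))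
  refine ⟨max S1 (max S2 S3), lt_max_of_lt_left hS1, fun s hs x hx => ?_⟩
  have hs1 : S1 ≤ s := le_trans (le_max_left _ _) hs
  have hs2 : S2 ≤ s := le_trans (le_trans (le_max_left _ _) (le_max_right _ _)) hs
  have hs3 : S3 ≤ s := le_trans (le_trans (le_max_right _ _) (le_max_right _ _)) hs
  have hs0 : 0 < s := lt_of_lt_of_le hS1 hs1
  obtain ⟨y, hy, hyE⟩ := h3 s hs3
  have hpos : (0:ℝ) < 2 ^ (s/2) := Real.rpow_pos_of_pos (by norm_num) _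
  have h5 := mul_le_mul_of_nonneg_left (hx.2 y hy) hpos.le
  have hL2 : 0 ≤ (Real.log s) ^ 2 / s := by positivity
  have hup : 2 ^ (s / 2) * riesz s x ≤
      8 + (16 * ((d:ℝ) - 1) + min ε (min δ 1)) * ((Real.log s) ^ 2 / s) := by
    have : (16 * ((d:ℝ) - 1) + min ε (min δ 1)) * (Real.log s) ^ 2 / s =
      (16 * ((d:ℝ) - 1) + min ε (min δ 1)) * ((Real.log s) ^ 2 / s) := by ring
    linarith
  have hmono : ∀ a : ℝ, min ε (min δ 1) ≤ a → 2 ^ (s / 2) * riesz s x ≤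
      8 + (16 * ((d:ℝ) - 1) + a) * (Real.log s) ^ 2 / s := by
    intro a ha
    have h6 := mul_le_mul_of_nonneg_right (add_le_add_right ha (16 * ((d:ℝ) - 1))) hL2
    have : (16 * ((d:ℝ) - 1) + a) * (Real.log s) ^ 2 / s =
      (16 * ((d:ℝ) - 1) + a) * ((Real.log s) ^ 2 / s) := by ring
    linarith
  obtain ⟨i, i', j, j', hsh, hrest, hsq, hg⟩ := h1 s hs1 x hx.1
    (hmono 1 (le_trans (min_le_right _ _) (min_le_right _ _)))
  obtain ⟨htau, hreal⟩ := h2 s hs2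
  obtain ⟨hsh0, n1, n2, n3, n4, n5, n6, hsh1⟩ := id hsh
  obtain ⟨u, hu, hu1, hu2⟩ := hL d s (tau C s) hs0 htau x hx.1 i i' j j' n1 n2 n3 n4 n5 n6 hg
  obtain ⟨hσ, hlow⟩ := hreal u (sig i i' j j' x) _ hu (sig_nonneg i i' j j' x) hu2 hu1
    (hmono δ (le_trans (min_le_right _ _) (min_le_left _ _)))
  refine ⟨?_, i, i', j, j', hsh, hσ, hrest, hsq⟩
  have hup2 := hmono ε (min_le_left _ _)
  have e1 : (16 * ((d:ℝ) - 1) + ε) * (Real.log s) ^ 2 / s =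
    16 * ((d:ℝ) - 1) * (Real.log s) ^ 2 / s + ε * (Real.log s) ^ 2 / s := by ring
  have e2 : (16 * ((d:ℝ) - 1) - ε) * (Real.log s) ^ 2 / s =
    16 * ((d:ℝ) - 1) * (Real.log s) ^ 2 / s - ε * (Real.log s) ^ 2 / s := by ring
  rw [abs_le]
  constructor <;> linarith

end Pool.Agent.J4.H93.D3
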