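import Pool.Agent.J4.H93.D3.Defs

/-!
# Project D3, piece CPT: the structure of almost minimisers, from the limits
-/

set_option autoImplicit false

open Filter Topology

namespace Pool.Agent.J4.H93.D3

theorem t_CPTb : S_LIM → S_STR := by
  intro hLIM d ε hε
  by_contra hcon
  push Not at hcon
  have h1 : ∀ k : ℕ, ∃ s : ℝ, (k : ℝ) + 1 ≤ s ∧ ∃ x : Fin (d + 3) → E (d + 1), IsConf d x ∧
      2 ^ (s / 2) * riesz s x ≤ 8 + 1 / ((k : ℝ) + 1) ∧ ¬ Near d ε x := by
    intro k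
    obtain ⟨s, hs, x, hx⟩ := hcon ((k : ℝ) + 1) (1 / ((k : ℝ) + 1)) (by positivity)
      (by positivity)
    exact ⟨s, hs, x, hx⟩
  choose s hs X hX hE hN using h1
  have hb : ∀ k, X k ∈ Metric.closedBall (0 : Fin (d + 3) → E (d + 1)) 1 := by
    intro k
    rw [mem_closedBall_zero_iff, pi_norm_le_iff_of_nonneg zero_le_one]
    intro i
    exact ((hX k).2 i).le
  obtain ⟨x, -, φ, hφ, hlim⟩ := (isCompact_closedBall (0 : Fin (d + 3) → E (d + 1)) 1).tendsto_subseq hb
  have hsT : Tendsto (fun k => s (φ k)) atTop atTop := by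
    have h2 : Tendsto s atTop atTop := by
      refine tendsto_atTop_mono hs ?_
      exact tendsto_atTop_add_const_right _ _ tendsto_natCast_atTop_atTop
    exact h2.comp hφ.tendsto_atTop
  have hδT : Tendsto (fun k => 1 / ((φ k : ℝ) + 1)) atTop (𝓝 0) :=
    tendsto_one_div_add_atTop_nhds_zero_nat.comp hφ.tendsto_atTop
  have hnear := hLIM d (fun k => s (φ k)) (fun k => 1 / ((φ k : ℝ) + 1)) (fun k => X (φ k)) x
    (fun k => lt_of_lt_of_le (by positivity) (hs (φ k))) hsT hδT (fun k => hX (φ k))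
    (fun k => hE (φ k)) hlim
  have key : ∀ f : (Fin (d + 3) → E (d + 1)) → ℝ, Continuous f → f x ≤ 0 →
      ∀ᶠ k in atTop, f (X (φ k)) ≤ ε := by
    intro f hf hfx
    have h2 := (hf.tendsto x).comp hlim
    exact (h2.eventually (gt_mem_nhds (lt_of_le_of_lt hfx hε))).mono fun _ h => le_of_lt h
  obtain ⟨hin, i, i', j, j', e1, e2, e3, e4, e5, e6, n1, n2, n3, n4⟩ := hnear
  have k1 : ∀ᶠ n in atTop, ∀ k l, k ≠ l → inner ℝ (X (φ n) k) (X (φ n) l) ≤ ε :=
    eventually_all.2 fun k => eventually_all.2 fun l => eventually_imp_distrib_left.2 fun hkl =>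
      key (fun y => inner ℝ (y k) (y l)) (by fun_prop) (hin k l hkl)
  have k2 := key (fun y => ‖y i + y i'‖) (by fun_prop) n1
  have k3 := key (fun y => ‖y j + y j'‖) (by fun_prop) n2
  have k4 := key (fun y => |inner ℝ (y i) (y j)|) (by fun_prop) n3
  have k5 : ∀ᶠ n in atTop, ∀ k, k ≠ i → k ≠ i' → k ≠ j → k ≠ j' →
      |inner ℝ (X (φ n) k) (X (φ n) i)| ≤ ε ∧ |inner ℝ (X (φ n) k) (X (φ n) j)| ≤ ε :=
    eventually_all.2 fun k => eventually_imp_distrib_left.2 fun h1 =>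
      eventually_imp_distrib_left.2 fun h2 => eventually_imp_distrib_left.2 fun h3 =>
      eventually_imp_distrib_left.2 fun h4 =>
        (key (fun y => |inner ℝ (y k) (y i)|) (by fun_prop) (n4 k h1 h2 h3 h4).1).and
          (key (fun y => |inner ℝ (y k) (y j)|) (by fun_prop) (n4 k h1 h2 h3 h4).2)
  obtain ⟨n, m1, m2, m3, m4, m5⟩ := (k1.and (k2.and (k3.and (k4.and k5)))).exists
  exact hN (φ n) ⟨m1, i, i', j, j', e1, e2, e3, e4, e5, e6, m2, m3, m4, m5⟩

end Pool.Agent.J4.H93.D3
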