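import Pool.Agent.J4.H93.D3.Defs

/-! # Project D3, piece EXI: existence of minimisers -/

set_option autoImplicit false

open Filter Topology

namespace Pool.Agent.J4.H93.D3

namespace EXIAux

lemma term_le {N n : ℕ} (s : ℝ) (x : Fin N → E n) (i j : Fin N) (hij : i ≠ j) :
    ‖x i - x j‖ ^ (-s) ≤ riesz s x := by
  unfold riesz
  have h1 : ‖x i - x j‖ ^ (-s) ≤ ∑ j ∈ Finset.univ.erase i, ‖x i - x j‖ ^ (-s) :=
    Finset.single_le_sum (f := fun j => ‖x i - x j‖ ^ (-s))
      (fun _ _ => Real.rpow_nonneg (norm_nonneg _) _)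
      (Finset.mem_erase.2 ⟨hij.symm, Finset.mem_univ j⟩)
  refine h1.trans ?_
  exact Finset.single_le_sum (f := fun i => ∑ j ∈ Finset.univ.erase i, ‖x i - x j‖ ^ (-s))
    (fun _ _ => Finset.sum_nonneg fun _ _ => Real.rpow_nonneg (norm_nonneg _) _)
    (Finset.mem_univ i)

lemma sep {ρ s E0 : ℝ} (hs : 0 < s) (hρ : 0 < ρ) (h : ρ ^ (-s) ≤ E0) : E0 ^ (-(1 / s)) ≤ ρ := by
  have h1 := Real.rpow_le_rpow_of_nonpos (Real.rpow_pos_of_pos hρ (-s)) h
    (z := -(1 / s)) (by have : 0 < 1 / s := by positivity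
                        linarith)
  rw [← Real.rpow_mul hρ.le, show (-s) * (-(1 / s)) = 1 by field_simp, Real.rpow_one] at h1
  exact h1

end EXIAux

open EXIAux

theorem t_EXI (h : S_CFG) (_h3 : S_PT) : ∀ d : ℕ, 1 ≤ d → ∀ s : ℝ, 0 < s →
    ∃ x, IsMin d s x := by
  intro d hd s hs
  obtain ⟨c, C, t0, hc, hC, ht0, hCt, hx⟩ := h d hd
  obtain ⟨y0, hy1, hy2, hy3⟩ := hx t0 ht0 le_rfl
  have hy0 : IsConf d y0 := by
    refine ⟨fun i j hij => ?_, hy1⟩
    by_contra hne
    have h1 : inner ℝ (y0 i) (y0 j) = (1 : ℝ) := by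
      rw [hij, real_inner_self_eq_norm_sq, hy1, one_pow]
    by_cases hsp : Sp i j
    · have := hy3 i j hsp
      linarith
    · have := hy2 i j hne hsp
      nlinarith [mul_pos hc ht0]
  set E0 : ℝ := riesz s y0 with hE
  have hE0 : 0 < E0 := by
    have h01 : (0 : Fin (d + 3)) ≠ 1 := by
      intro h
      have := congrArg Fin.val h
      simp at this
    refine lt_of_lt_of_le ?_ (term_le s y0 0 1 h01)
    exact Real.rpow_pos_of_pos (norm_pos_iff.2 (sub_ne_zero.2 (hy0.1.ne h01))) _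
  set r : ℝ := E0 ^ (-(1 / s)) with hr
  have hr0 : 0 < r := Real.rpow_pos_of_pos hE0 _
  have hsep : ∀ x, IsConf d x → riesz s x ≤ E0 → ∀ i j, i ≠ j → r ≤ ‖x i - x j‖ := by
    intro x hx hle i j hij
    exact sep hs (norm_pos_iff.2 (sub_ne_zero.2 (hx.1.ne hij))) ((term_le s x i j hij).trans hle)
  let K : Set (Fin (d + 3) → E (d + 1)) :=
    {x | (∀ i, ‖x i‖ = 1) ∧ ∀ i j, i ≠ j → r ≤ ‖x i - x j‖}
  have hKc : IsClosed K := by
    have hK : K = (⋂ i, {x : Fin (d + 3) → E (d + 1) | ‖x i‖ = 1}) ∩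
        ⋂ i, ⋂ j, ⋂ (_ : i ≠ j), {x : Fin (d + 3) → E (d + 1) | r ≤ ‖x i - x j‖} := by
      ext x
      simp only [K, Set.mem_setOf_eq, Set.mem_inter_iff, Set.mem_iInter]
    rw [hK]
    refine IsClosed.inter (isClosed_iInter fun i => isClosed_eq (by fun_prop) continuous_const)
      (isClosed_iInter fun i => isClosed_iInter fun j => isClosed_iInter fun _ =>
        isClosed_le continuous_const (by fun_prop))
  have hKcomp : IsCompact K := by
    refine (isCompact_univ_pi fun _ : Fin (d + 3) =>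
      isCompact_closedBall (0 : E (d + 1)) 1).of_isClosed_subset hKc ?_
    intro x hx i _
    rw [mem_closedBall_zero_iff]
    exact (hx.1 i).le
  have hcont : ContinuousOn (fun x : Fin (d + 3) → E (d + 1) => riesz s x) K := by
    unfold riesz
    refine continuousOn_finset_sum _ fun i _ => continuousOn_finset_sum _ fun j hj => ?_
    refine ContinuousOn.rpow_const (by fun_prop) fun x hx => Or.inl ?_
    have := hx.2 i j (Finset.ne_of_mem_erase hj).symm
    linarith
  obtain ⟨x, hxK, hmin⟩ := hKcomp.exists_isMinOn ⟨y0, hy0.2, hsep y0 hy0 le_rfl⟩ hcont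
  refine ⟨x, ⟨fun i j hij => ?_, hxK.1⟩, fun y hy => ?_⟩
  · by_contra hne
    have h1 := hxK.2 i j hne
    rw [hij, sub_self, norm_zero] at h1
    linarith
  · by_cases hle : riesz s y ≤ E0
    · exact hmin (⟨hy.2, hsep y hy hle⟩ : y ∈ K)
    · have h1 : riesz s x ≤ riesz s y0 := hmin (⟨hy0.2, hsep y0 hy0 le_rfl⟩ : y0 ∈ K)
      rw [not_le] at hle
      exact h1.trans hle.le

end Pool.Agent.J4.H93.D3
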