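import Pool.Agent.J4.H93.D3.Defs3
import Pool.Agent.J4.H93.D3.T_FIN

/-!
# Project D3, piece FIN2: the second order upper bound
-/

set_option autoImplicit false

open Filter Topology

namespace Pool.Agent.J4.H93.D3

namespace FIN2

theorem boundA {V s u η : ℝ} (hs : 0 < s) (hη : 0 < η) (hη1 : η ≤ 1) (hV : V ≤ η / 2)
    (h0 : 0 ≤ V) (hu : u ≤ V) (hw : s / 2 * V * (1 + η) ≤ η) :
    (1 - u) ^ (-(s / 2)) ≤ 1 + s / 2 * V * (1 + η) * (1 + η) := by
  have h1 : 0 < 1 - V := by linarith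
  have h2 : 0 < 1 - u := by linarith
  have hw0 : 0 ≤ s / 2 * V * (1 + η) := by positivity
  have h3 : Real.log (1 - V) ≤ Real.log (1 - u) := Real.log_le_log h1 (by linarith)
  have h4 : -(V * (1 + η)) ≤ Real.log (1 - V) := by
    have h5 := Real.one_sub_inv_le_log_of_pos h1
    have h6 : (1 - V)⁻¹ ≤ 1 + V * (1 + η) := by
      rw [inv_eq_one_div, div_le_iff₀ h1]
      nlinarith [mul_nonneg h0 hη.le, mul_nonneg h0 h0]
    linarith
  have h7 : (1 - u) ^ (-(s / 2)) ≤ Real.exp (s / 2 * V * (1 + η)) := by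
    rw [Real.rpow_def_of_pos h2]
    apply Real.exp_le_exp.2
    nlinarith
  refine h7.trans ?_
  set w := s / 2 * V * (1 + η) with hwdef
  have h8 : |w| ≤ 1 := by
    rw [abs_of_nonneg hw0]
    linarith
  have h9 := Real.abs_exp_sub_one_sub_id_le h8
  rw [abs_le] at h9
  nlinarith

theorem boundB {C t s u η : ℝ} (hs : 1 ≤ s) (hC : 0 < C) (ht0 : 0 < t) (ht1 : t ≤ 1)
    (hCt : C * t ≤ 1 / 2) (hst : s * t = (2 + η) * Real.log s) (hst2 : s * t ^ 2 ≤ 1)
    (hu : u ≤ -(t * (1 - C * t))) :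
    (1 - u) ^ (-(s / 2)) ≤ Real.exp ((C + 1) / 2) * (s ^ (-(η / 2)) / s) := by
  have hs0 : 0 < s := by linarith
  have hr0 : 0 < t * (1 - C * t) := mul_pos ht0 (by linarith)
  have h2 : 0 < 1 - u := by linarith
  have h1 : 0 < 1 + t * (1 - C * t) := by linarith
  have h3 : Real.log (1 + t * (1 - C * t)) ≤ Real.log (1 - u) := Real.log_le_log h1 (by linarith)
  have h4 : t - (C + 1) * t ^ 2 ≤ Real.log (1 + t * (1 - C * t)) := by
    have h5 := Real.one_sub_inv_le_log_of_pos h1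
    have h6 : (1 + t * (1 - C * t))⁻¹ ≤ 1 - (t - (C + 1) * t ^ 2) := by
      rw [inv_eq_one_div, div_le_iff₀ h1]
      have e : (1 - (t - (C + 1) * t ^ 2)) * (1 + t * (1 - C * t)) - 1 =
          t ^ 2 * (C * t * (1 - C * t) + (C * t + t * (1 - C * t)) ) := by ring
      have : 0 ≤ t ^ 2 * (C * t * (1 - C * t) + (C * t + t * (1 - C * t))) := by
        have h7 : 0 ≤ 1 - C * t := by linarith
        positivity
      linarith
    linarith
  have e1 : s ^ (-(η / 2)) / s = Real.exp (-(1 + η / 2) * Real.log s) := by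
    rw [Real.rpow_def_of_pos hs0, div_eq_mul_inv]
    nth_rw 2 [← Real.exp_log hs0]
    rw [← Real.exp_neg, ← Real.exp_add]
    congr 1
    ring
  rw [e1, ← Real.exp_add, Real.rpow_def_of_pos h2]
  apply Real.exp_le_exp.2
  have h8 : s / 2 * (t - (C + 1) * t ^ 2) ≤ s / 2 * Real.log (1 - u) :=
    mul_le_mul_of_nonneg_left (h4.trans h3) (by positivity)
  have h9 : (C + 1) / 2 * (s * t ^ 2) ≤ (C + 1) / 2 * 1 :=
    mul_le_mul_of_nonneg_left hst2 (by positivity)
  nlinarith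

end FIN2

open FIN2 in
theorem t_FIN2 : S_FIN2 := by
  classical
  intro hPT hCFG d hd ε hε
  obtain ⟨C, t0, hC, ht0, hCt0, hdt0, h⟩ := hCFG d hd
  obtain ⟨D, hD⟩ : ∃ D : ℝ, D = (d : ℝ) - 1 := ⟨_, rfl⟩
  have hD0 : 0 ≤ D := by
    have : (1 : ℝ) ≤ d := by exact_mod_cast hd
    rw [hD]
    linarith
  obtain ⟨η, hηdef⟩ : ∃ η : ℝ, η = min 1 (ε / (256 * (D + 1))) := ⟨_, rfl⟩
  have hη : 0 < η := by rw [hηdef]; positivity
  have hη1 : η ≤ 1 := by rw [hηdef]; exact min_le_left _ _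
  have hη2 : 256 * (D + 1) * η ≤ ε := by
    have : η ≤ ε / (256 * (D + 1)) := by rw [hηdef]; exact min_le_right _ _
    rw [le_div_iff₀ (by positivity)] at this
    linarith
  have eL : Tendsto (fun s : ℝ => (Real.log s) ^ 2 / s) atTop (𝓝 0) := by
    have := Real.tendsto_pow_log_div_mul_add_atTop 1 0 2 one_ne_zero
    simpa using this
  have eT : Tendsto (fun s : ℝ => (2 + η) * (Real.log s / s)) atTop (𝓝 0) := by
    have := Real.tendsto_pow_log_div_mul_add_atTop 1 0 1 one_ne_zero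
    have h2 : Tendsto (fun s : ℝ => Real.log s / s) atTop (𝓝 0) := by simpa using this
    simpa using h2.const_mul (2 + η)
  have eR : Tendsto (fun s : ℝ => ((d : ℝ) + 3) ^ 2 * Real.exp ((C + 1) / 2) * s ^ (-(η / 2)))
      atTop (𝓝 0) := by
    simpa using (tendsto_rpow_neg_atTop (y := η / 2) (by positivity)).const_mul
      (((d : ℝ) + 3) ^ 2 * Real.exp ((C + 1) / 2))
  have m1 : 0 < min (min t0 1) (η / (2 * (D + 1))) := by positivity
  have m2 : 0 < min (1 / 9) (η / (9 * (D + 1))) := by positivity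
  have ev1 := eT.eventually (eventually_lt_nhds m1)
  have ev2 := eL.eventually (eventually_lt_nhds m2)
  have ev3 := eR.eventually (eventually_lt_nhds (half_pos hε))
  have ev4 : ∀ᶠ s : ℝ in atTop, 1 ≤ Real.log s := Real.tendsto_log_atTop.eventually_ge_atTop 1
  obtain ⟨S, hS⟩ := eventually_atTop.1 (ev1.and (ev2.and (ev3.and ev4)))
  refine ⟨max S 1, by positivity, fun s hs => ?_⟩
  have hs1 : 1 ≤ s := (le_max_right _ _).trans hs
  have hs0 : 0 < s := by linarith
  obtain ⟨hT, hL, hR, hlog⟩ := hS s ((le_max_left _ _).trans hs)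
  obtain ⟨t, ht⟩ : ∃ t : ℝ, t = (2 + η) * (Real.log s / s) := ⟨_, rfl⟩
  obtain ⟨L, hLdef⟩ : ∃ L : ℝ, L = (Real.log s) ^ 2 / s := ⟨_, rfl⟩
  rw [← ht] at hT
  rw [← hLdef] at hL
  have hL0 : 0 < L := by rw [hLdef]; positivity
  have htpos : 0 < t := by rw [ht]; positivity
  have ht1 : t ≤ t0 := (hT.trans_le ((min_le_left _ _).trans (min_le_left _ _))).le
  have ht2 : t ≤ 1 := (hT.trans_le ((min_le_left _ _).trans (min_le_right _ _))).le
  have ht3 : t * (2 * (D + 1)) ≤ η := by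
    have := (hT.trans_le (min_le_right _ _)).le
    rwa [le_div_iff₀ (by positivity)] at this
  have hL1 : L ≤ 1 / 9 := (hL.trans_le (min_le_left _ _)).le
  have hL2 : L * (9 * (D + 1)) ≤ η := by
    have := (hL.trans_le (min_le_right _ _)).le
    rwa [le_div_iff₀ (by positivity)] at this
  have hst : s * t = (2 + η) * Real.log s := by
    rw [ht]
    field_simp
  have hst2 : s * t ^ 2 = (2 + η) ^ 2 * L := by
    rw [ht, hLdef]
    field_simp
  have hη9 : (2 + η) ^ 2 ≤ 9 := by nlinarith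
  have hst3 : s * t ^ 2 ≤ 1 := by
    rw [hst2]
    have h1 : (2 + η) ^ 2 * L ≤ 9 * L := mul_le_mul_of_nonneg_right hη9 hL0.le
    linarith
  have hCt : C * t ≤ 1 / 2 := (mul_le_mul_of_nonneg_left ht1 hC.le).trans hCt0
  have hV : D * t ^ 2 ≤ η / 2 := by
    have h1 : t ^ 2 ≤ t := by
      rw [sq]
      exact mul_le_of_le_one_left htpos.le ht2
    have h2 : D * t ^ 2 ≤ D * t := mul_le_mul_of_nonneg_left h1 hD0
    have h3 : t * (2 * (D + 1)) = 2 * (D * t) + 2 * t := by ring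
    linarith
  have hV0 : 0 ≤ D * t ^ 2 := by positivity
  have hw1 : s / 2 * (D * t ^ 2) = D / 2 * ((2 + η) ^ 2 * L) := by
    rw [← hst2]
    ring
  have hw : s / 2 * (D * t ^ 2) * (1 + η) ≤ η := by
    rw [hw1]
    have h1 : (2 + η) ^ 2 * L ≤ 9 * L := mul_le_mul_of_nonneg_right hη9 hL0.le
    have h2 : D / 2 * ((2 + η) ^ 2 * L) ≤ D / 2 * (9 * L) :=
      mul_le_mul_of_nonneg_left h1 (by positivity)
    have h3 : D / 2 * ((2 + η) ^ 2 * L) * (1 + η) ≤ D / 2 * (9 * L) * 2 :=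
      mul_le_mul h2 (by linarith) (by positivity) (by positivity)
    have h4 : D / 2 * (9 * L) * 2 = L * (9 * (D + 1)) - 9 * L := by ring
    linarith
  obtain ⟨x, hx1, hx2, hx3⟩ := h t htpos ht1
  have hCtt : 0 < t * (1 - C * t) := mul_pos htpos (by linarith)
  have hinner : ∀ i j : Fin (d + 3), i ≠ j → inner ℝ (x i) (x j) < 1 := by
    intro i j hij
    by_cases hS' : Sp i j
    · have h6 := hx3 i j hS'
      rw [← hD] at h6
      linarith
    · have h6 := hx2 i j hij hS'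
      linarith
  have hinj : Function.Injective x := by
    intro i j hij
    by_contra hne
    have h6 := hinner i j hne
    rw [hij, real_inner_self_eq_norm_sq, hx1] at h6
    norm_num at h6
  refine ⟨x, ⟨hinj, hx1⟩, ?_⟩
  have hsum : (2 : ℝ) ^ (s / 2) * riesz s x =
      ∑ i, ∑ j ∈ Finset.univ.erase i, (1 - inner ℝ (x i) (x j)) ^ (-(s / 2)) := by
    unfold riesz
    rw [Finset.mul_sum]
    refine Finset.sum_congr rfl fun i _ => ?_
    rw [Finset.mul_sum]
    refine Finset.sum_congr rfl fun j hj => ?_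
    have hne : x i ≠ x j := fun hx => (Finset.ne_of_mem_erase hj) (hinj hx).symm
    exact (hPT (d + 1) s (x i) (x j) hs0 (hx1 i) (hx1 j) hne).1
  obtain ⟨A, hAdef⟩ : ∃ A : ℝ, A = 1 + s / 2 * (D * t ^ 2) * (1 + η) * (1 + η) := ⟨_, rfl⟩
  obtain ⟨B, hBdef⟩ : ∃ B : ℝ, B = Real.exp ((C + 1) / 2) * (s ^ (-(η / 2)) / s) := ⟨_, rfl⟩
  have hA0 : 0 ≤ A := by rw [hAdef]; positivity
  have hB0 : 0 ≤ B := by rw [hBdef]; positivity
  have hterm : ∀ i j : Fin (d + 3), i ≠ j → (1 - inner ℝ (x i) (x j)) ^ (-(s / 2)) ≤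
      (if Sp i j then A else 0) + B := by
    intro i j hij
    by_cases hS' : Sp i j
    · rw [if_pos hS']
      have h5 := hx3 i j hS'
      rw [← hD] at h5
      have h6 := boundA (s := s) hs0 hη hη1 hV hV0 h5 hw
      rw [← hAdef] at h6
      linarith
    · rw [if_neg hS', zero_add, hBdef]
      exact boundB hs1 hC htpos ht2 hCt hst hst3 (hx2 i j hij hS')
  have hA8 : 8 * A ≤ 8 + (16 * D + ε / 2) * L := by
    rw [hAdef, hw1]
    have h1 : (2 + η) ^ 2 * (1 + η) ^ 2 ≤ 4 + 32 * η := by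
      have h2 : (2 + η) * (1 + η) ≤ 2 + 4 * η := by nlinarith
      have h3 : 0 ≤ (2 + η) * (1 + η) := by positivity
      have h4 : ((2 + η) * (1 + η)) ^ 2 ≤ (2 + 4 * η) ^ 2 := pow_le_pow_left₀ h3 h2 2
      have h5 : (2 + η) ^ 2 * (1 + η) ^ 2 = ((2 + η) * (1 + η)) ^ 2 := by ring
      have h6 : (2 + 4 * η) ^ 2 = 4 + 16 * η + 16 * (η * η) := by ring
      have h7 : η * η ≤ η := mul_le_of_le_one_left hη.le hη1
      linarith
    have h2 : 4 * D * ((2 + η) ^ 2 * (1 + η) ^ 2) ≤ 4 * D * (4 + 32 * η) :=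
      mul_le_mul_of_nonneg_left h1 (by positivity)
    have h3 : 4 * D * (4 + 32 * η) ≤ 16 * D + ε / 2 := by
      have e1 : 4 * D * (4 + 32 * η) = 16 * D + (256 * (D + 1) * η) / 2 - 128 * η := by ring
      linarith
    have h4 := mul_le_mul_of_nonneg_right (h2.trans h3) hL0.le
    have h5 : 8 * (1 + D / 2 * ((2 + η) ^ 2 * L) * (1 + η) * (1 + η)) =
        8 + 4 * D * ((2 + η) ^ 2 * (1 + η) ^ 2) * L := by ring
    rw [h5]
    linarith
  have hB8 : ((d : ℝ) + 3) ^ 2 * B ≤ ε / 2 * L := by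
    rw [hBdef, hLdef]
    have h1 : ((d : ℝ) + 3) ^ 2 * (Real.exp ((C + 1) / 2) * (s ^ (-(η / 2)) / s)) =
        (((d : ℝ) + 3) ^ 2 * Real.exp ((C + 1) / 2) * s ^ (-(η / 2))) / s := by ring
    rw [h1, ← mul_div_assoc]
    apply div_le_div_of_nonneg_right _ hs0.le
    have h2 : (1 : ℝ) ≤ Real.log s ^ 2 := one_le_pow₀ hlog
    have h3 : ε / 2 * 1 ≤ ε / 2 * Real.log s ^ 2 := mul_le_mul_of_nonneg_left h2 (by linarith)
    linarith
  rw [hsum]
  calc ∑ i, ∑ j ∈ Finset.univ.erase i, (1 - inner ℝ (x i) (x j)) ^ (-(s / 2)) ≤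
      ∑ i : Fin (d + 3), ∑ j ∈ Finset.univ.erase i, ((if Sp i j then A else 0) + B) :=
        Finset.sum_le_sum fun i _ => Finset.sum_le_sum fun j hj =>
          hterm i j (Finset.ne_of_mem_erase hj).symm
    _ ≤ ∑ i : Fin (d + 3), ∑ j : Fin (d + 3), ((if Sp i j then A else 0) + B) := by
        refine Finset.sum_le_sum fun i _ => ?_
        refine Finset.sum_le_sum_of_subset_of_nonneg (Finset.erase_subset _ _) fun j _ _ => ?_
        split_ifs <;> positivity
    _ = (∑ p : Fin (d + 3) × Fin (d + 3), (if Sp p.1 p.2 then A else 0)) +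
        ((d : ℝ) + 3) ^ 2 * B := by
        rw [← Finset.sum_product', Finset.sum_add_distrib]
        congr 1
        rw [Finset.sum_const, Finset.card_product]
        simp only [Finset.card_univ, Fintype.card_fin, nsmul_eq_mul]
        push_cast
        ring
    _ ≤ 8 * A + ((d : ℝ) + 3) ^ 2 * B := by
        have h7 : (∑ p : Fin (d + 3) × Fin (d + 3), (if Sp p.1 p.2 then A else 0)) =
            (((Finset.univ : Finset (Fin (d + 3) × Fin (d + 3))).filter
              (fun p => Sp p.1 p.2)).card : ℝ) * A := by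
          rw [← Finset.sum_filter, Finset.sum_const, nsmul_eq_mul]
        rw [h7]
        have h8 : ((((Finset.univ : Finset (Fin (d + 3) × Fin (d + 3))).filter
              (fun p => Sp p.1 p.2)).card : ℕ) : ℝ) ≤ 8 := by
          have := FIN.card_Sp d hd
          exact_mod_cast this
        have h9 := mul_le_mul_of_nonneg_right h8 hA0
        linarith
    _ ≤ 8 + (16 * ((d : ℝ) - 1) + ε) * (Real.log s) ^ 2 / s := by
        rw [mul_div_assoc, ← hLdef, ← hD]
        have h5 : (16 * D + ε) * L = (16 * D + ε / 2) * L + ε / 2 * L := by ring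
        rw [h5]
        linarith

end Pool.Agent.J4.H93.D3
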