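import Pool.Agent.J4.H93.D3.Defs

/-!
# Project D3, piece LIM: the limit of almost minimisers
-/

set_option autoImplicit false

open Filter Topology

namespace Pool.Agent.J4.H93.D3

namespace LIMbAux

theorem core {N n : ℕ} (x : Fin N → E n) (s δ : ℝ) (hδ : -7 ≤ δ)
    (a b : Fin N → ℝ) (ha : ∀ i, 0 ≤ a i) (hb : ∀ i, 0 ≤ b i) (hab : ∀ i, a i * b i = 0)
    (hsa : ∑ i, a i = 1) (hsb : ∑ i, b i = 1) (Z M : ℝ) (hs : 0 < s) (hZ0 : 0 ≤ Z)
    (hZ : Z = ∑ i, ∑ j, a i * b j * inner ℝ (x i) (x j))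
    (hM : ∀ i, a i ≤ M ∧ b i ≤ M)
    (hF : ∑ i, ∑ j ∈ Finset.univ.erase i, Real.exp (s / 2 * inner ℝ (x i) (x j)) ≤ 8 + δ)
    (hF1 : ∀ i j, i ≠ j → Real.exp (s / 2 * inner ℝ (x i) (x j)) ≤ 8 + δ)
    (i j : Fin N) :
    (0 < a i * b j → (M ^ 2 - a i * b j) * Real.exp (s / 2 * inner ℝ (x i) (x j)) ≤
      M ^ 2 * (4 + δ / 2) - 1) ∧
    -Real.log (8 + δ) ≤ a i * b j * (s / 2 * inner ℝ (x i) (x j)) := by
  classical
  have hM0 : 0 ≤ M := (ha i).trans (hM i).1
  have hw : ∀ p q, a p * b q ≤ M ^ 2 := by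
    intro p q
    rw [pow_two]
    exact mul_le_mul (hM p).1 (hM q).2 (hb q) hM0
  have hw0 : ∀ p q, 0 ≤ a p * b q := fun p q => mul_nonneg (ha p) (hb q)
  have hsw : ∑ p, ∑ q, a p * b q = 1 := by
    rw [← Finset.sum_mul_sum, hsa, hsb, one_mul]
  have hL0 : 0 ≤ Real.log (8 + δ) := Real.log_nonneg (by linarith)
  constructor
  · intro hij
    -- the indicator
    obtain ⟨u, hu⟩ : ∃ u : Fin N → Fin N → ℝ, u = fun p q => if 0 < a p * b q then 1 else 0 := ⟨_, rfl⟩
    have hu0 : ∀ p q, 0 ≤ u p q := by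
      intro p q
      rw [hu]
      dsimp only
      split_ifs <;> norm_num
    have huw : ∀ p q, u p q * (a p * b q) = a p * b q := by
      intro p q
      rw [hu]
      dsimp only
      split_ifs with h
      · rw [one_mul]
      · have := hw0 p q
        have : a p * b q = 0 := le_antisymm (not_lt.1 h) this
        rw [this, mul_zero]
    have hdis : ∀ p q, u p q + u q p ≤ if p = q then 0 else 1 := by
      intro p q
      by_cases hpq : p = q
      · subst hpq
        rw [if_pos rfl, hu]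
        dsimp only
        rw [hab p, if_neg (lt_irrefl _)]
        norm_num
      · rw [if_neg hpq, hu]
        dsimp only
        by_cases h1 : 0 < a p * b q
        · by_cases h2 : 0 < a q * b p
          · exfalso
            have h3 : 0 < a p := by
              rcases (ha p).lt_or_eq with h | h
              · exact h
              · rw [← h, zero_mul] at h1
                exact absurd h1 (lt_irrefl _)
            have h4 : 0 < b p := by
              rcases (hb p).lt_or_eq with h | h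
              · exact h
              · rw [← h, mul_zero] at h2
                exact absurd h2 (lt_irrefl _)
            have := hab p
            have h5 := mul_pos h3 h4
            linarith
          · rw [if_pos h1, if_neg h2]
            norm_num
        · rw [if_neg h1]
          split_ifs <;> norm_num
    -- `2 ∑ u F ≤ 8 + δ`
    obtain ⟨F, hFd⟩ : ∃ F : Fin N → Fin N → ℝ, F = fun p q => Real.exp (s / 2 * inner ℝ (x p) (x q)) :=
      ⟨_, rfl⟩
    have hF0 : ∀ p q, 0 < F p q := by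
      intro p q
      rw [hFd]
      exact Real.exp_pos _
    have hFs : ∀ p q, F p q = F q p := by
      intro p q
      rw [hFd]
      dsimp only
      rw [real_inner_comm]
    have hF' : ∑ p, ∑ q ∈ Finset.univ.erase p, F p q ≤ 8 + δ := by
      rw [hFd]
      exact hF
    have e1 : ∑ p, ∑ q, u p q * F p q + ∑ p, ∑ q, u q p * F p q ≤ 8 + δ := by
      refine le_trans ?_ hF'
      rw [← Finset.sum_add_distrib]
      refine Finset.sum_le_sum fun p _ => ?_
      rw [← Finset.sum_add_distrib, ← Finset.add_sum_erase _ _ (Finset.mem_univ p)]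
      have h1 := hdis p p
      rw [if_pos rfl] at h1
      have h2 : u p p * F p p + u p p * F p p ≤ 0 := by
        have := hF0 p p
        nlinarith
      have h3 : ∑ q ∈ Finset.univ.erase p, (u p q * F p q + u q p * F p q) ≤
          ∑ q ∈ Finset.univ.erase p, F p q := by
        refine Finset.sum_le_sum fun q hq => ?_
        have h4 := hdis p q
        rw [if_neg (Finset.ne_of_mem_erase hq).symm] at h4
        have := hF0 p q
        nlinarith
      linarith
    have e2 : ∑ p, ∑ q, u q p * F p q = ∑ p, ∑ q, u p q * F p q := by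
      rw [Finset.sum_comm]
      refine Finset.sum_congr rfl fun p _ => Finset.sum_congr rfl fun q _ => ?_
      rw [hFs]
    -- `∑ w F ≥ 1`
    have e3 : 1 ≤ ∑ p, ∑ q, (a p * b q) * F p q := by
      have h1 : ∑ p, ∑ q, (a p * b q) * (1 + s / 2 * inner ℝ (x p) (x q)) = 1 + s / 2 * Z := by
        rw [hZ, Finset.mul_sum]
        have : ∀ p, ∑ q, (a p * b q) * (1 + s / 2 * inner ℝ (x p) (x q)) =
            ∑ q, a p * b q + s / 2 * ∑ q, a p * b q * inner ℝ (x p) (x q) := by
          intro p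
          rw [Finset.mul_sum, ← Finset.sum_add_distrib]
          refine Finset.sum_congr rfl fun q _ => ?_
          ring
        simp only [this]
        rw [Finset.sum_add_distrib, hsw]
      have h2 : 1 ≤ 1 + s / 2 * Z := by
        have : 0 ≤ s / 2 * Z := mul_nonneg (by linarith) hZ0
        linarith
      rw [← h1] at h2
      refine h2.trans (Finset.sum_le_sum fun p _ => Finset.sum_le_sum fun q _ => ?_)
      refine mul_le_mul_of_nonneg_left ?_ (hw0 p q)
      rw [hFd]
      dsimp only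
      have := Real.add_one_le_exp (s / 2 * inner ℝ (x p) (x q))
      linarith
    -- the sum of `u (M² - w) F`
    have e4 : ∑ p, ∑ q, u p q * ((M ^ 2 - a p * b q) * F p q) =
        M ^ 2 * ∑ p, ∑ q, u p q * F p q - ∑ p, ∑ q, (a p * b q) * F p q := by
      rw [Finset.mul_sum, ← Finset.sum_sub_distrib]
      refine Finset.sum_congr rfl fun p _ => ?_
      rw [Finset.mul_sum, ← Finset.sum_sub_distrib]
      refine Finset.sum_congr rfl fun q _ => ?_
      calc u p q * ((M ^ 2 - a p * b q) * F p q) =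
          M ^ 2 * (u p q * F p q) - u p q * (a p * b q) * F p q := by ring
        _ = _ := by rw [huw]
    have hnn : ∀ p q, 0 ≤ u p q * ((M ^ 2 - a p * b q) * F p q) := fun p q =>
      mul_nonneg (hu0 p q) (mul_nonneg (by linarith [hw p q]) (hF0 p q).le)
    have e5 : u i j * ((M ^ 2 - a i * b j) * F i j) ≤
        ∑ p, ∑ q, u p q * ((M ^ 2 - a p * b q) * F p q) :=
      (Finset.single_le_sum (f := fun q => u i q * ((M ^ 2 - a i * b q) * F i q))
        (fun q _ => hnn i q) (Finset.mem_univ j)).trans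
      (Finset.single_le_sum (f := fun p => ∑ q, u p q * ((M ^ 2 - a p * b q) * F p q))
        (fun p _ => Finset.sum_nonneg fun q _ => hnn p q) (Finset.mem_univ i))
    have e6 : u i j = 1 := by
      rw [hu]
      dsimp only
      rw [if_pos hij]
    rw [e6, one_mul, e4] at e5
    have e7 : ∑ p, ∑ q, u p q * F p q ≤ 4 + δ / 2 := by
      rw [e2] at e1
      linarith
    have e8 := mul_le_mul_of_nonneg_left e7 (sq_nonneg M)
    have e9 : F i j = Real.exp (s / 2 * inner ℝ (x i) (x j)) := by rw [hFd]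
    rw [← e9]
    linarith
  · have hterm : ∀ p q, 0 ≤ a p * b q * (Real.log (8 + δ) - s / 2 * inner ℝ (x p) (x q)) := by
      intro p q
      by_cases hpq : p = q
      · subst hpq
        rw [hab p, zero_mul]
      · refine mul_nonneg (hw0 p q) (sub_nonneg.2 ?_)
        rw [Real.le_log_iff_exp_le (by linarith)]
        exact hF1 p q hpq
    have e1 : ∑ p, ∑ q, a p * b q * (Real.log (8 + δ) - s / 2 * inner ℝ (x p) (x q)) =
        Real.log (8 + δ) - s / 2 * Z := by
      have : ∀ p, ∑ q, a p * b q * (Real.log (8 + δ) - s / 2 * inner ℝ (x p) (x q)) =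
          Real.log (8 + δ) * ∑ q, a p * b q - s / 2 * ∑ q, a p * b q * inner ℝ (x p) (x q) := by
        intro p
        rw [Finset.mul_sum, Finset.mul_sum, ← Finset.sum_sub_distrib]
        refine Finset.sum_congr rfl fun q _ => ?_
        ring
      simp only [this]
      rw [Finset.sum_sub_distrib, ← Finset.mul_sum, ← Finset.mul_sum, hsw, hZ, mul_one]
    have e5 : a i * b j * (Real.log (8 + δ) - s / 2 * inner ℝ (x i) (x j)) ≤
        ∑ p, ∑ q, a p * b q * (Real.log (8 + δ) - s / 2 * inner ℝ (x p) (x q)) :=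
      (Finset.single_le_sum
        (f := fun q => a i * b q * (Real.log (8 + δ) - s / 2 * inner ℝ (x i) (x q)))
        (fun q _ => hterm i q) (Finset.mem_univ j)).trans
      (Finset.single_le_sum
        (f := fun p => ∑ q, a p * b q * (Real.log (8 + δ) - s / 2 * inner ℝ (x p) (x q)))
        (fun p _ => Finset.sum_nonneg fun q _ => hterm p q) (Finset.mem_univ i))
    rw [e1] at e5
    have h1 : 0 ≤ a i * b j * Real.log (8 + δ) := mul_nonneg (hw0 i j) hL0
    have h2 : 0 ≤ s / 2 * Z := mul_nonneg (by linarith) hZ0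
    have h3 : a i * b j * (Real.log (8 + δ) - s / 2 * inner ℝ (x i) (x j)) =
      a i * b j * Real.log (8 + δ) - a i * b j * (s / 2 * inner ℝ (x i) (x j)) := by ring
    rw [h3] at e5
    linarith

theorem two_halves {N : ℕ} (c : Fin N → ℝ) (h0 : ∀ i, c i = 0 ∨ c i = 1 / 2) (hs : ∑ i, c i = 1) :
    ∃ i i' : Fin N, i ≠ i' ∧ c i = 1 / 2 ∧ c i' = 1 / 2 ∧ ∀ k, k ≠ i → k ≠ i' → c k = 0 := by
  classical
  have h1 : ∑ i, c i = ∑ i ∈ Finset.univ.filter (fun i => c i = 1 / 2), (1 / 2 : ℝ) := by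
    rw [Finset.sum_filter]
    refine Finset.sum_congr rfl fun i _ => ?_
    split_ifs with h
    · exact h
    · exact (h0 i).resolve_right h
  rw [hs, Finset.sum_const, nsmul_eq_mul] at h1
  have h2 : (Finset.univ.filter (fun i => c i = 1 / 2)).card = 2 := by
    have : (((Finset.univ.filter (fun i => c i = 1 / 2)).card : ℕ) : ℝ) = 2 := by linarith
    exact_mod_cast this
  obtain ⟨i, i', hne, hS⟩ := Finset.card_eq_two.1 h2
  refine ⟨i, i', hne, ?_, ?_, ?_⟩
  · have : i ∈ Finset.univ.filter (fun i => c i = 1 / 2) := by rw [hS]; simp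
    exact (Finset.mem_filter.1 this).2
  · have : i' ∈ Finset.univ.filter (fun i => c i = 1 / 2) := by rw [hS]; simp
    exact (Finset.mem_filter.1 this).2
  · intro k hk hk'
    refine (h0 k).resolve_right fun h => ?_
    have : k ∈ Finset.univ.filter (fun i => c i = 1 / 2) := Finset.mem_filter.2 ⟨Finset.mem_univ _, h⟩
    rw [hS] at this
    simp only [Finset.mem_insert, Finset.mem_singleton] at this
    rcases this with h | h
    · exact hk h
    · exact hk' h

theorem opp {N n : ℕ} (c : Fin N → ℝ) (x : Fin N → E n) (h0 : ∀ i, c i = 0 ∨ c i = 1 / 2)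
    (hs : ∑ i, c i = 1) (hz : ∑ i, c i • x i = 0) :
    ∃ i i' : Fin N, i ≠ i' ∧ c i = 1 / 2 ∧ c i' = 1 / 2 ∧ x i + x i' = 0 := by
  obtain ⟨i, i', hne, h1, h2, h3⟩ := two_halves c h0 hs
  refine ⟨i, i', hne, h1, h2, ?_⟩
  have h4 : ∑ k, c k • x k = c i • x i + c i' • x i' := by
    refine Finset.sum_eq_add i i' hne ?_ ?_ ?_
    · intro k _ hk
      rw [h3 k hk.1 hk.2, zero_smul]
    · intro h
      exact absurd (Finset.mem_univ _) h
    · intro h
      exact absurd (Finset.mem_univ _) h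
  rw [h4, h1, h2, ← smul_add] at hz
  exact (smul_eq_zero.1 hz).resolve_left (by norm_num)

end LIMbAux

open LIMbAux in
theorem t_LIMb (hKER : S_KER) (hZZ : S_ZZ) (hPT : S_PT) : S_LIM := by
  intro d s δ X x hs hs' hδ hX hE hlim
  have hXi : ∀ i, Tendsto (fun k => X k i) atTop (𝓝 (x i)) := fun i => (tendsto_pi_nhds.1 hlim) i
  have hx1 : ∀ i, ‖x i‖ = 1 := by
    intro i
    have h := (hXi i).norm
    have h' : (fun k => ‖X k i‖) = fun _ => (1 : ℝ) := funext fun k => (hX k).2 i
    rw [h'] at h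
    exact tendsto_nhds_unique h tendsto_const_nhds
  have hG : ∀ i j, Tendsto (fun k => inner ℝ (X k i) (X k j)) atTop (𝓝 (inner ℝ (x i) (x j))) :=
    fun i j => (hXi i).inner (hXi j)
  have hF : ∀ k, ∑ i, ∑ j ∈ Finset.univ.erase i,
      Real.exp (s k / 2 * inner ℝ (X k i) (X k j)) ≤ 8 + δ k := by
    intro k
    refine le_trans ?_ (hE k)
    unfold riesz
    rw [Finset.mul_sum]
    refine Finset.sum_le_sum fun i _ => ?_
    rw [Finset.mul_sum]
    refine Finset.sum_le_sum fun j hj => ?_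
    have hne : X k i ≠ X k j := fun h => (Finset.ne_of_mem_erase hj) ((hX k).1 h).symm
    obtain ⟨p1, -, p3⟩ := hPT _ (s k) (X k i) (X k j) (hs k) ((hX k).2 i) ((hX k).2 j) hne
    rw [p1]
    exact p3
  have hF1 : ∀ k i j, i ≠ j → Real.exp (s k / 2 * inner ℝ (X k i) (X k j)) ≤ 8 + δ k := by
    intro k i j hij
    refine le_trans ?_ (hF k)
    exact (Finset.single_le_sum (f := fun j => Real.exp (s k / 2 * inner ℝ (X k i) (X k j)))
      (fun _ _ => (Real.exp_pos _).le) (Finset.mem_erase.2 ⟨hij.symm, Finset.mem_univ j⟩)).trans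
      (Finset.single_le_sum
        (f := fun i => ∑ j ∈ Finset.univ.erase i, Real.exp (s k / 2 * inner ℝ (X k i) (X k j)))
        (fun _ _ => Finset.sum_nonneg fun _ _ => (Real.exp_pos _).le) (Finset.mem_univ i))
  have hneg : ∀ i j, i ≠ j → inner ℝ (x i) (x j) ≤ 0 := by
    intro i j hij
    have h1 : ∀ k, inner ℝ (X k i) (X k j) ≤ 2 * Real.log (8 + δ k) / s k := by
      intro k
      have h2 := hF1 k i j hij
      have h3 : s k / 2 * inner ℝ (X k i) (X k j) ≤ Real.log (8 + δ k) := by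
        rw [Real.le_log_iff_exp_le ((Real.exp_pos _).trans_le h2)]
        exact h2
      rw [le_div_iff₀ (hs k)]
      linarith
    have h4 : Tendsto (fun k => 2 * Real.log (8 + δ k) / s k) atTop (𝓝 0) := by
      have h5 : Tendsto (fun k => 2 * Real.log (8 + δ k)) atTop (𝓝 (2 * Real.log (8 + 0))) :=
        ((tendsto_const_nhds.add hδ).log (by norm_num)).const_mul 2
      exact h5.div_atTop hs'
    exact le_of_tendsto_of_tendsto' (hG i j) h4 h1
  choose a b ha hb hab hsa hsb hz using fun k => hKER d (X k)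
  have ha1 : ∀ k i, a k i ≤ 1 := fun k i => by
    rw [← hsa k]
    exact Finset.single_le_sum (fun j _ => ha k j) (Finset.mem_univ i)
  have hb1 : ∀ k i, b k i ≤ 1 := fun k i => by
    rw [← hsb k]
    exact Finset.single_le_sum (fun j _ => hb k j) (Finset.mem_univ i)
  have hK : IsCompact ((Set.univ.pi fun _ : Fin (d + 3) => Set.Icc (0 : ℝ) 1) ×ˢ
      (Set.univ.pi fun _ : Fin (d + 3) => Set.Icc (0 : ℝ) 1)) :=
    (isCompact_univ_pi fun _ => isCompact_Icc).prod (isCompact_univ_pi fun _ => isCompact_Icc)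
  obtain ⟨⟨a0, b0⟩, -, φ, hφ, hφ'⟩ := hK.tendsto_subseq (x := fun k => (a k, b k))
    (fun k => ⟨fun i _ => ⟨ha k i, ha1 k i⟩, fun i _ => ⟨hb k i, hb1 k i⟩⟩)
  have hA : ∀ i, Tendsto (fun k => a (φ k) i) atTop (𝓝 (a0 i)) := fun i =>
    tendsto_pi_nhds.1 ((continuous_fst.tendsto _).comp hφ') i
  have hB : ∀ i, Tendsto (fun k => b (φ k) i) atTop (𝓝 (b0 i)) := fun i =>
    tendsto_pi_nhds.1 ((continuous_snd.tendsto _).comp hφ') i
  have hXφ : ∀ i, Tendsto (fun k => X (φ k) i) atTop (𝓝 (x i)) := fun i =>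
    (hXi i).comp hφ.tendsto_atTop
  have ha0 : ∀ i, 0 ≤ a0 i := fun i => ge_of_tendsto' (hA i) fun k => ha _ i
  have hb0 : ∀ i, 0 ≤ b0 i := fun i => ge_of_tendsto' (hB i) fun k => hb _ i
  have hab0 : ∀ i, a0 i * b0 i = 0 := by
    intro i
    have h := (hA i).mul (hB i)
    simp only [hab] at h
    exact tendsto_nhds_unique h tendsto_const_nhds
  have hsa0 : ∑ i, a0 i = 1 := by
    have h := tendsto_finset_sum Finset.univ fun i _ => hA i
    simp only [hsa] at h
    exact tendsto_nhds_unique h tendsto_const_nhds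
  have hsb0 : ∑ i, b0 i = 1 := by
    have h := tendsto_finset_sum Finset.univ fun i _ => hB i
    simp only [hsb] at h
    exact tendsto_nhds_unique h tendsto_const_nhds
  have hza : Tendsto (fun k => ∑ i, a (φ k) i • X (φ k) i) atTop (𝓝 (∑ i, a0 i • x i)) :=
    tendsto_finset_sum Finset.univ fun i _ => (hA i).smul (hXφ i)
  have hzb : Tendsto (fun k => ∑ i, b (φ k) i • X (φ k) i) atTop (𝓝 (∑ i, b0 i • x i)) :=
    tendsto_finset_sum Finset.univ fun i _ => (hB i).smul (hXφ i)
  have hz0 : ∑ i, a0 i • x i = ∑ i, b0 i • x i := by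
    simp only [hz] at hza
    exact tendsto_nhds_unique hza hzb
  obtain ⟨q1, q2⟩ := hZZ (d + 3) (d + 1) x a0 b0 hx1 ha0 hb0 hsa0 hsb0 hz0
  have hzz : ∑ i, a0 i • x i = 0 := by
    have h1 : ‖∑ i, a0 i • x i‖ ^ 2 ≤ 0 := by
      rw [q1]
      refine Finset.sum_nonpos fun i _ => Finset.sum_nonpos fun j _ => ?_
      by_cases hij : i = j
      · subst hij
        rw [hab0 i, zero_mul]
      · exact mul_nonpos_of_nonneg_of_nonpos (mul_nonneg (ha0 i) (hb0 j)) (hneg i j hij)
    have h2 : ‖∑ i, a0 i • x i‖ = 0 := by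
      have := norm_nonneg (∑ i, a0 i • x i)
      nlinarith
    exact norm_eq_zero.1 h2
  have hzz' : ∑ i, b0 i • x i = 0 := by rw [← hz0, hzz]
  rw [hzz, norm_zero, add_zero] at q2
  -- the limit of the products
  have hMl : Tendsto (fun k => (1 + ‖∑ i, a (φ k) i • X (φ k) i‖) / 2) atTop (𝓝 (1 / 2)) := by
    have h := (hza.norm.const_add 1).div_const 2
    rw [hzz, norm_zero, add_zero] at h
    exact h
  have hδ' : Tendsto (fun k => δ (φ k)) atTop (𝓝 0) := hδ.comp hφ.tendsto_atTop
  have hq : ∀ i j, 0 < a0 i * b0 j → 1 / 4 ≤ a0 i * b0 j := by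
    intro i j hw
    obtain ⟨w, hwd⟩ : ∃ w : ℝ, w = a0 i * b0 j := ⟨_, rfl⟩
    have hwl : Tendsto (fun k => a (φ k) i * b (φ k) j) atTop (𝓝 w) := by
      rw [hwd]
      exact (hA i).mul (hB j)
    rw [← hwd] at hw ⊢
    obtain ⟨c, hc⟩ : ∃ c : ℝ, c = Real.exp (-(2 * Real.log 9 / w)) := ⟨_, rfl⟩
    have hc0 : 0 < c := hc ▸ Real.exp_pos _
    have hev : ∀ᶠ k in atTop, (((1 + ‖∑ i, a (φ k) i • X (φ k) i‖) / 2) ^ 2 -
        a (φ k) i * b (φ k) j) * c ≤
        ((1 + ‖∑ i, a (φ k) i • X (φ k) i‖) / 2) ^ 2 * (4 + δ (φ k) / 2) - 1 := by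
      filter_upwards [hwl.eventually (lt_mem_nhds (half_lt_self hw)),
        hδ'.eventually (gt_mem_nhds one_pos),
        hδ'.eventually (lt_mem_nhds (show (-1 : ℝ) < 0 by norm_num))] with k hk1 hk2 hk3
      obtain ⟨r1, r2⟩ := hZZ (d + 3) (d + 1) (X (φ k)) (a (φ k)) (b (φ k)) (hX _).2 (ha _) (hb _)
        (hsa _) (hsb _) (hz _)
      obtain ⟨c1, c2⟩ := core (X (φ k)) (s (φ k)) (δ (φ k)) (by linarith) (a (φ k)) (b (φ k))
        (ha _) (hb _) (hab _) (hsa _) (hsb _) (‖∑ i, a (φ k) i • X (φ k) i‖ ^ 2)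
        ((1 + ‖∑ i, a (φ k) i • X (φ k) i‖) / 2) (hs _) (sq_nonneg _) r1 r2 (hF _) (hF1 _) i j
      have hwk : 0 < a (φ k) i * b (φ k) j := by linarith
      have c3 := c1 hwk
      obtain ⟨y, hy⟩ : ∃ y : ℝ, y = s (φ k) / 2 * inner ℝ (X (φ k) i) (X (φ k) j) := ⟨_, rfl⟩
      rw [← hy] at c2 c3
      have hlog : Real.log (8 + δ (φ k)) ≤ Real.log 9 :=
        Real.log_le_log (by linarith) (by linarith)
      have hl9 : 0 < Real.log 9 := Real.log_pos (by norm_num)
      have hyl : -(2 * Real.log 9 / w) ≤ y := by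
        by_cases hy0 : 0 ≤ y
        · have : 0 < 2 * Real.log 9 / w := by positivity
          linarith
        · push Not at hy0
          have h1 : a (φ k) i * b (φ k) j * y ≤ w / 2 * y :=
            mul_le_mul_of_nonpos_right hk1.le hy0.le
          have h2 : -Real.log 9 ≤ w / 2 * y := by linarith
          rw [← neg_div, div_le_iff₀ hw]
          linarith
      have hcF : c ≤ Real.exp y := by
        rw [hc]
        exact Real.exp_le_exp.2 hyl
      have hnn : 0 ≤ ((1 + ‖∑ i, a (φ k) i • X (φ k) i‖) / 2) ^ 2 - a (φ k) i * b (φ k) j := by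
        have h1 := (r2 i).1
        have h2 := (r2 j).2
        have h3 := mul_le_mul h1 h2 (hb _ j) ((ha _ i).trans h1)
        rw [pow_two]
        linarith
      exact (mul_le_mul_of_nonneg_left hcF hnn).trans c3
    have hl1 : Tendsto (fun k => (((1 + ‖∑ i, a (φ k) i • X (φ k) i‖) / 2) ^ 2 -
        a (φ k) i * b (φ k) j) * c) atTop (𝓝 (((1 / 2) ^ 2 - w) * c)) :=
      ((hMl.pow 2).sub hwl).mul_const c
    have hl2 : Tendsto (fun k => ((1 + ‖∑ i, a (φ k) i • X (φ k) i‖) / 2) ^ 2 *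
        (4 + δ (φ k) / 2) - 1) atTop (𝓝 ((1 / 2) ^ 2 * (4 + 0 / 2) - 1)) :=
      ((hMl.pow 2).mul ((hδ'.div_const 2).const_add 4)).sub_const 1
    have hfin := le_of_tendsto_of_tendsto hl1 hl2 hev
    by_contra hcon
    push Not at hcon
    have : 0 < ((1 / 2) ^ 2 - w) * c := mul_pos (by norm_num; linarith) hc0
    norm_num at hfin
    norm_num at this
    linarith
  have hhalf : ∀ i j, 0 < a0 i → 0 < b0 j → a0 i = 1 / 2 ∧ b0 j = 1 / 2 := by
    intro i j hi hj
    have h1 := hq i j (mul_pos hi hj)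
    have h2 := (q2 i).1
    have h3 := (q2 j).2
    constructor
    · refine le_antisymm h2 ?_
      nlinarith
    · refine le_antisymm h3 ?_
      nlinarith
  have hposa : ∃ i, 0 < a0 i := by
    by_contra hcon
    push Not at hcon
    have : ∑ i, a0 i ≤ 0 := Finset.sum_nonpos fun i _ => hcon i
    linarith
  have hposb : ∃ i, 0 < b0 i := by
    by_contra hcon
    push Not at hcon
    have : ∑ i, b0 i ≤ 0 := Finset.sum_nonpos fun i _ => hcon i
    linarith
  obtain ⟨i1, hi1⟩ := hposa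
  obtain ⟨j1, hj1⟩ := hposb
  have hA0 : ∀ i, a0 i = 0 ∨ a0 i = 1 / 2 := by
    intro i
    rcases (ha0 i).lt_or_eq with h | h
    · exact Or.inr (hhalf i j1 h hj1).1
    · exact Or.inl h.symm
  have hB0 : ∀ i, b0 i = 0 ∨ b0 i = 1 / 2 := by
    intro i
    rcases (hb0 i).lt_or_eq with h | h
    · exact Or.inr (hhalf i1 i hi1 h).2
    · exact Or.inl h.symm
  obtain ⟨i, i', hii, hai, hai', hxi⟩ := opp a0 x hA0 hsa0 hzz
  obtain ⟨j, j', hjj, hbj, hbj', hxj⟩ := opp b0 x hB0 hsb0 hzz'
  have hne : ∀ p q, a0 p = 1 / 2 → b0 q = 1 / 2 → p ≠ q := by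
    intro p q hp hq' h
    subst h
    have := hab0 p
    rw [hp, hq'] at this
    norm_num at this
  have horth : ∀ (p p' q : Fin (d + 3)), x p + x p' = 0 → q ≠ p → q ≠ p' →
      |inner ℝ (x q) (x p)| ≤ 0 := by
    intro p p' q hpp h1 h2
    have h3 := hneg q p h1
    have h4 := hneg q p' h2
    have h5 : x p' = -x p := eq_neg_of_add_eq_zero_right hpp
    rw [h5, inner_neg_right] at h4
    have h6 : inner ℝ (x q) (x p) = 0 := le_antisymm h3 (by linarith)
    rw [h6, abs_zero]
  refine ⟨fun k l hkl => hneg k l hkl, i, i', j, j', hii, hjj, hne i j hai hbj,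
    hne i j' hai hbj', hne i' j hai' hbj, hne i' j' hai' hbj', ?_, ?_, ?_, ?_⟩
  · rw [hxi, norm_zero]
  · rw [hxj, norm_zero]
  · exact horth j j' i hxj (hne i j hai hbj) (hne i j' hai hbj')
  · intro k hk1 hk2 hk3 hk4
    exact ⟨horth i i' k hxi hk1 hk2, horth j j' k hxj hk3 hk4⟩

end Pool.Agent.J4.H93.D3
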