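import Pool.Agent.J4.H93.D3.Defs

/-!
# Piece LIM
-/

set_option autoImplicit false

open Filter Topology

namespace Pool.Agent.J4.H93.D3

theorem LIMc_sum (d : ℕ) (hPT : S_PT) {s : ℝ} (hs : 0 < s) {x : Fin (d + 3) → E (d + 1)}
    (hx : IsConf d x) :
    ∑ i, ∑ j ∈ Finset.univ.erase i, Real.exp (s / 2 * inner ℝ (x i) (x j)) ≤
      2 ^ (s / 2) * riesz s x := by
  unfold riesz
  rw [Finset.mul_sum]
  refine Finset.sum_le_sum fun i _ => ?_
  rw [Finset.mul_sum]
  refine Finset.sum_le_sum fun j hj => ?_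
  have hij : x i ≠ x j := fun h => (Finset.ne_of_mem_erase hj) (hx.1 h).symm
  obtain ⟨h1, h2, h3⟩ := hPT (d + 1) s (x i) (x j) hs (hx.2 i) (hx.2 j) hij
  rw [h1]
  exact h3

theorem LIMc_fin {N : ℕ} (F : Fin N → Fin N → ℝ) (hF : ∀ i j, 0 < F i j)
    (hs : ∀ i j, F i j = F j i)
    {K : ℝ} (hK : ∑ i, ∑ j ∈ Finset.univ.erase i, F i j ≤ K) (a b : Fin N → ℝ) (ha : ∀ i, 0 ≤ a i)
    (hb : ∀ i, 0 ≤ b i) (hab : ∀ i, a i * b i = 0) {M : ℝ} (haM : ∀ i, a i ≤ M)
    (hbM : ∀ i, b i ≤ M) (i j : Fin N) (hij : 0 < a i * b j) :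
    (M ^ 2 - a i * b j) * F i j ≤ M ^ 2 * (K / 2) - ∑ i, ∑ j, a i * b j * F i j := by
  classical
  have hM : 0 ≤ M := (ha i).trans (haM i)
  have hwM : ∀ i j, a i * b j ≤ M ^ 2 := fun i j => by
    rw [sq]; exact mul_le_mul (haM i) (hbM j) (hb j) hM
  set u : Fin N → Fin N → ℝ := fun i j => if 0 < a i * b j then 1 else 0 with hu
  have hu0 : ∀ i j, 0 ≤ u i j := fun i j => by simp only [hu]; split_ifs <;> norm_num
  have huu : ∀ i j, u i j + u j i ≤ 1 := by
    intro i j
    simp only [hu]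
    by_cases h1 : 0 < a i * b j
    · by_cases h2 : 0 < a j * b i
      · exfalso
        rcases mul_eq_zero.1 (hab i) with h | h
        · rw [h, zero_mul] at h1; exact lt_irrefl _ h1
        · rw [h, mul_zero] at h2; exact lt_irrefl _ h2
      · rw [if_pos h1, if_neg h2]; norm_num
    · by_cases h2 : 0 < a j * b i
      · rw [if_neg h1, if_pos h2]; norm_num
      · rw [if_neg h1, if_neg h2]; norm_num
  have hud : ∀ i, u i i = 0 := fun i => by simp only [hu, hab i, lt_irrefl, if_false]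
  have hS1 : ∑ i, ∑ j, (u i j + u j i) * F i j ≤ K := by
    refine le_trans (Finset.sum_le_sum fun i _ => ?_) hK
    rw [← Finset.add_sum_erase Finset.univ (fun j => (u i j + u j i) * F i j) (Finset.mem_univ i)]
    simp only [hud, add_zero, zero_mul, zero_add]
    refine Finset.sum_le_sum fun j _ => ?_
    have := mul_le_mul_of_nonneg_right (huu i j) (hF i j).le
    rwa [one_mul] at this
  have hS2 : ∑ i, ∑ j, u j i * F i j = ∑ i, ∑ j, u i j * F i j := by
    rw [Finset.sum_comm]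
    exact Finset.sum_congr rfl fun i _ => Finset.sum_congr rfl fun j _ => by rw [hs j i]
  have hS3 : 2 * ∑ i, ∑ j, u i j * F i j ≤ K := by
    have e : ∑ i, ∑ j, (u i j + u j i) * F i j =
        ∑ i, ∑ j, u i j * F i j + ∑ i, ∑ j, u j i * F i j := by
      rw [← Finset.sum_add_distrib]
      refine Finset.sum_congr rfl fun i _ => ?_
      rw [← Finset.sum_add_distrib]
      exact Finset.sum_congr rfl fun j _ => by ring
    rw [e, hS2] at hS1
    linarith
  have hS4 : ∑ i, ∑ j, u i j * (M ^ 2 - a i * b j) * F i j =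
      M ^ 2 * ∑ i, ∑ j, u i j * F i j - ∑ i, ∑ j, a i * b j * F i j := by
    rw [Finset.mul_sum, ← Finset.sum_sub_distrib]
    refine Finset.sum_congr rfl fun i _ => ?_
    rw [Finset.mul_sum, ← Finset.sum_sub_distrib]
    refine Finset.sum_congr rfl fun j _ => ?_
    simp only [hu]
    split_ifs with h
    · ring
    · have h0 : a i * b j = 0 := le_antisymm (not_lt.1 h) (mul_nonneg (ha i) (hb j))
      rw [h0]; ring
  have hpos : ∀ i j, 0 ≤ u i j * (M ^ 2 - a i * b j) * F i j := fun i j =>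
    mul_nonneg (mul_nonneg (hu0 i j) (sub_nonneg.2 (hwM i j))) (hF i j).le
  have hS5 : u i j * (M ^ 2 - a i * b j) * F i j ≤
      ∑ i, ∑ j, u i j * (M ^ 2 - a i * b j) * F i j := by
    refine le_trans ?_ (Finset.single_le_sum
      (f := fun i => ∑ j, u i j * (M ^ 2 - a i * b j) * F i j)
      (fun i _ => Finset.sum_nonneg fun j _ => hpos i j) (Finset.mem_univ i))
    exact Finset.single_le_sum (f := fun j => u i j * (M ^ 2 - a i * b j) * F i j)
      (fun j _ => hpos i j) (Finset.mem_univ j)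
  have hu1 : u i j = 1 := by simp only [hu]; rw [if_pos hij]
  rw [hu1, one_mul, hS4] at hS5
  have := mul_le_mul_of_nonneg_left hS3 (sq_nonneg M)
  linarith

theorem LIMc_two {N : ℕ} (a : Fin N → ℝ) (h : ∀ i, a i = 0 ∨ a i = 1 / 2) (hs : ∑ i, a i = 1) :
    ∃ i i', i ≠ i' ∧ a i = 1 / 2 ∧ a i' = 1 / 2 ∧ ∀ k, k ≠ i → k ≠ i' → a k = 0 := by
  classical
  have h1 : ∑ i, a i = ((Finset.univ.filter fun i => a i = 1 / 2).card : ℝ) * (1 / 2) := by
    rw [← nsmul_eq_mul, ← Finset.sum_const, Finset.sum_filter]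
    refine Finset.sum_congr rfl fun i _ => ?_
    rcases h i with h | h
    · rw [h, if_neg (by norm_num)]
    · rw [h, if_pos rfl]
  rw [hs] at h1
  have h2 : (Finset.univ.filter fun i => a i = 1 / 2).card = 2 := by
    have : ((Finset.univ.filter fun i => a i = 1 / 2).card : ℝ) = 2 := by linarith
    exact_mod_cast this
  obtain ⟨i, i', hii, he⟩ := Finset.card_eq_two.1 h2
  have hm : ∀ k, a k = 1 / 2 ↔ k = i ∨ k = i' := by
    intro k
    have : k ∈ (Finset.univ.filter fun i => a i = 1 / 2) ↔ k ∈ ({i, i'} : Finset (Fin N)) := by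
      rw [he]
    simpa using this
  refine ⟨i, i', hii, (hm i).2 (Or.inl rfl), (hm i').2 (Or.inr rfl), fun k hk hk' => ?_⟩
  rcases h k with h | h
  · exact h
  · rcases (hm k).1 h with h | h
    · exact absurd h hk
    · exact absurd h hk'

theorem t_LIMc (hKER : S_KER) (hZZ : S_ZZ) (hPT : S_PT) : S_LIM := by
  intro d s δ X x hs hst hδ hX hE hXx
  have hXi : ∀ i, Tendsto (fun k => X k i) atTop (𝓝 (x i)) := fun i => (tendsto_pi_nhds.1 hXx) i
  have hin : ∀ i j, Tendsto (fun k => inner ℝ (X k i) (X k j)) atTop (𝓝 (inner ℝ (x i) (x j))) :=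
    fun i j => (hXi i).inner (hXi j)
  have hn : ∀ i, ‖x i‖ = 1 := by
    intro i
    have h1 := (hXi i).norm
    have h2 : (fun k => ‖X k i‖) = fun _ => (1 : ℝ) := funext fun k => (hX k).2 i
    rw [h2] at h1
    exact tendsto_nhds_unique h1 tendsto_const_nhds
  have hsum := fun k => (LIMc_sum d hPT (hs k) (hX k)).trans (hE k)
  have hF : ∀ k i j, i ≠ j → Real.exp (s k / 2 * inner ℝ (X k i) (X k j)) ≤ 8 + δ k := by
    intro k i j hij
    refine le_trans ?_ (hsum k)
    refine le_trans ?_ (Finset.single_le_sum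
      (f := fun i => ∑ j ∈ Finset.univ.erase i, Real.exp (s k / 2 * inner ℝ (X k i) (X k j)))
      (fun i _ => Finset.sum_nonneg fun j _ => (Real.exp_pos _).le) (Finset.mem_univ i))
    exact Finset.single_le_sum (f := fun j => Real.exp (s k / 2 * inner ℝ (X k i) (X k j)))
      (fun j _ => (Real.exp_pos _).le) (Finset.mem_erase.2 ⟨hij.symm, Finset.mem_univ j⟩)
  have hδ1 : ∀ᶠ k in atTop, δ k < 1 := hδ.eventually_lt_const one_pos
  have hlog : 0 < Real.log 9 := Real.log_pos (by norm_num)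
  have hL9 : ∀ k, δ k < 1 → ∀ i j, i ≠ j → s k / 2 * inner ℝ (X k i) (X k j) ≤ Real.log 9 := by
    intro k hk i j hij
    rw [Real.le_log_iff_exp_le (by norm_num)]
    exact (hF k i j hij).trans (by linarith)
  have hinn : ∀ i j, i ≠ j → inner ℝ (x i) (x j) ≤ 0 := by
    intro i j hij
    have h1 : Tendsto (fun k => 2 * Real.log 9 / s k) atTop (𝓝 0) := hst.const_div_atTop _
    refine le_of_tendsto_of_tendsto (hin i j) h1 ?_
    filter_upwards [hδ1] with k hk
    have h2 := hL9 k hk i j hij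
    rw [le_div_iff₀ (hs k)]
    linarith
  choose a b ha hb hab hsa hsb hrel using fun k => hKER d (X k)
  have ha1 : ∀ k i, a k i ≤ 1 := fun k i =>
    (Finset.single_le_sum (fun i _ => ha k i) (Finset.mem_univ i)).trans (hsa k).le
  have hb1 : ∀ k i, b k i ≤ 1 := fun k i =>
    (Finset.single_le_sum (fun i _ => hb k i) (Finset.mem_univ i)).trans (hsb k).le
  have hcpt : IsCompact ((Set.Icc (0 : Fin (d + 3) → ℝ) 1) ×ˢ (Set.Icc (0 : Fin (d + 3) → ℝ) 1)) :=
    isCompact_Icc.prod isCompact_Icc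
  obtain ⟨⟨a', b'⟩, -, φ, hφ, hlim⟩ := hcpt.tendsto_subseq (x := fun k => (a k, b k))
    (fun k => ⟨⟨fun i => ha k i, fun i => ha1 k i⟩, ⟨fun i => hb k i, fun i => hb1 k i⟩⟩)
  have hφt := hφ.tendsto_atTop
  have hA : ∀ i, Tendsto (fun k => a (φ k) i) atTop (𝓝 (a' i)) := fun i =>
    (tendsto_pi_nhds.1 ((continuous_fst.tendsto _).comp hlim)) i
  have hB : ∀ i, Tendsto (fun k => b (φ k) i) atTop (𝓝 (b' i)) := fun i =>
    (tendsto_pi_nhds.1 ((continuous_snd.tendsto _).comp hlim)) i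
  have ha' : ∀ i, 0 ≤ a' i := fun i => ge_of_tendsto' (hA i) fun k => ha _ i
  have hb' : ∀ i, 0 ≤ b' i := fun i => ge_of_tendsto' (hB i) fun k => hb _ i
  have hab' : ∀ i, a' i * b' i = 0 := fun i => by
    refine tendsto_nhds_unique ((hA i).mul (hB i)) ?_
    simp only [hab]
    exact tendsto_const_nhds
  have hsa' : ∑ i, a' i = 1 := by
    refine tendsto_nhds_unique (tendsto_finset_sum _ fun i _ => hA i) ?_
    simp only [hsa]
    exact tendsto_const_nhds
  have hsb' : ∑ i, b' i = 1 := by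
    refine tendsto_nhds_unique (tendsto_finset_sum _ fun i _ => hB i) ?_
    simp only [hsb]
    exact tendsto_const_nhds
  have hzlim : Tendsto (fun k => ∑ i, a (φ k) i • X (φ k) i) atTop (𝓝 (∑ i, a' i • x i)) :=
    tendsto_finset_sum _ fun i _ => (hA i).smul ((hXi i).comp hφt)
  have hrel' : ∑ i, a' i • x i = ∑ i, b' i • x i := by
    refine tendsto_nhds_unique hzlim ?_
    simp only [hrel]
    exact tendsto_finset_sum _ fun i _ => (hB i).smul ((hXi i).comp hφt)
  obtain ⟨hz2, hz3⟩ := hZZ (d + 3) (d + 1) x a' b' hn ha' hb' hsa' hsb' hrel'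
  have hz0 : ‖∑ i, a' i • x i‖ = 0 := by
    have h1 : ‖∑ i, a' i • x i‖ ^ 2 ≤ 0 := by
      rw [hz2]
      refine Finset.sum_nonpos fun i _ => Finset.sum_nonpos fun j _ => ?_
      by_cases hij : i = j
      · subst hij
        rw [hab', zero_mul]
      · exact mul_nonpos_of_nonneg_of_nonpos (mul_nonneg (ha' i) (hb' j)) (hinn i j hij)
    exact (pow_eq_zero_iff two_ne_zero).1 (le_antisymm h1 (sq_nonneg _))
  rw [hz0] at hz3
  have key : ∀ i j, 0 < a' i * b' j → 1 / 4 ≤ a' i * b' j := by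
    intro i j hw
    have hij : i ≠ j := by
      rintro rfl
      rw [hab'] at hw
      exact lt_irrefl _ hw
    have hwl : Tendsto (fun k => a (φ k) i * b (φ k) j) atTop (𝓝 (a' i * b' j)) :=
      (hA i).mul (hB j)
    have hMl : Tendsto (fun k => (1 + ‖∑ i, a (φ k) i • X (φ k) i‖) / 2) atTop (𝓝 (1 / 2)) := by
      have := (hzlim.norm.const_add 1).div_const 2
      rwa [hz0, add_zero] at this
    obtain ⟨c, hc⟩ : ∃ c, c = Real.exp (-(2 * Real.log 9) / (a' i * b' j)) := ⟨_, rfl⟩
    have hc0 : 0 < c := hc ▸ Real.exp_pos _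
    have hev : ∀ᶠ k in atTop,
        (((1 + ‖∑ i, a (φ k) i • X (φ k) i‖) / 2) ^ 2 - a (φ k) i * b (φ k) j) * c ≤
          ((1 + ‖∑ i, a (φ k) i • X (φ k) i‖) / 2) ^ 2 * ((8 + δ (φ k)) / 2) - 1 := by
      filter_upwards [hφt.eventually hδ1, hwl.eventually_const_lt (half_lt_self hw)] with k hk1 hk2
      obtain ⟨hy2, hy3⟩ := hZZ (d + 3) (d + 1) (X (φ k)) (a (φ k)) (b (φ k)) (hX (φ k)).2
        (ha _) (hb _) (hsa _) (hsb _) (hrel _)
      have hwk : 0 < a (φ k) i * b (φ k) j := lt_trans (by positivity) hk2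
      have hfin := LIMc_fin (fun i j => Real.exp (s (φ k) / 2 * inner ℝ (X (φ k) i) (X (φ k) j)))
        (fun _ _ => Real.exp_pos _) (fun i j => by rw [real_inner_comm]) (hsum (φ k))
        (a (φ k)) (b (φ k)) (ha _) (hb _) (hab _) (fun i => (hy3 i).1) (fun i => (hy3 i).2) i j hwk
      have hw1 : ∑ i, ∑ j, a (φ k) i * b (φ k) j = 1 := by
        have : ∀ i, ∑ j, a (φ k) i * b (φ k) j = a (φ k) i := fun i => by
          rw [← Finset.mul_sum, hsb, mul_one]
        simp only [this, hsa]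
      have hwin : ∑ i, ∑ j, a (φ k) i * b (φ k) j *
          (s (φ k) / 2 * inner ℝ (X (φ k) i) (X (φ k) j)) =
          s (φ k) / 2 * ‖∑ i, a (φ k) i • X (φ k) i‖ ^ 2 := by
        rw [hy2, Finset.mul_sum]
        refine Finset.sum_congr rfl fun i _ => ?_
        rw [Finset.mul_sum]
        exact Finset.sum_congr rfl fun j _ => by ring
      have hsz : 0 ≤ s (φ k) / 2 * ‖∑ i, a (φ k) i • X (φ k) i‖ ^ 2 := by
        have := hs (φ k)
        positivity
      have h1 : 1 ≤ ∑ i, ∑ j, a (φ k) i * b (φ k) j *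
          Real.exp (s (φ k) / 2 * inner ℝ (X (φ k) i) (X (φ k) j)) := by
        have e : ∑ i, ∑ j, a (φ k) i * b (φ k) j *
            (1 + s (φ k) / 2 * inner ℝ (X (φ k) i) (X (φ k) j)) =
            1 + s (φ k) / 2 * ‖∑ i, a (φ k) i • X (φ k) i‖ ^ 2 := by
          rw [← hwin, ← hw1, ← Finset.sum_add_distrib]
          refine Finset.sum_congr rfl fun i _ => ?_
          rw [← Finset.sum_add_distrib]
          refine Finset.sum_congr rfl fun j _ => ?_
          rw [hw1]
          ring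
        have e2 : ∑ i, ∑ j, a (φ k) i * b (φ k) j *
            (1 + s (φ k) / 2 * inner ℝ (X (φ k) i) (X (φ k) j)) ≤ ∑ i, ∑ j, a (φ k) i * b (φ k) j *
            Real.exp (s (φ k) / 2 * inner ℝ (X (φ k) i) (X (φ k) j)) := by
          refine Finset.sum_le_sum fun i _ => Finset.sum_le_sum fun j _ => ?_
          refine mul_le_mul_of_nonneg_left ?_ (mul_nonneg (ha _ i) (hb _ j))
          have := Real.add_one_le_exp (s (φ k) / 2 * inner ℝ (X (φ k) i) (X (φ k) j))
          linarith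
        linarith
      have h2 : c ≤ Real.exp (s (φ k) / 2 * inner ℝ (X (φ k) i) (X (φ k) j)) := by
        rw [hc]
        refine Real.exp_le_exp.2 ?_
        rw [div_le_iff₀ hw]
        have h3 : ∀ p q, 0 ≤ a (φ k) p * b (φ k) q *
            (Real.log 9 - s (φ k) / 2 * inner ℝ (X (φ k) p) (X (φ k) q)) := by
          intro p q
          by_cases hpq : p = q
          · subst hpq
            rw [hab, zero_mul]
          · exact mul_nonneg (mul_nonneg (ha _ p) (hb _ q)) (sub_nonneg.2 (hL9 _ hk1 p q hpq))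
        have h4 : ∑ p, ∑ q, a (φ k) p * b (φ k) q *
            (Real.log 9 - s (φ k) / 2 * inner ℝ (X (φ k) p) (X (φ k) q)) =
            Real.log 9 - s (φ k) / 2 * ‖∑ i, a (φ k) i • X (φ k) i‖ ^ 2 := by
          rw [← hwin]
          have e : ∑ p, ∑ q, a (φ k) p * b (φ k) q * Real.log 9 = Real.log 9 := by
            have : ∀ p, ∑ q, a (φ k) p * b (φ k) q * Real.log 9 =
                (∑ q, a (φ k) p * b (φ k) q) * Real.log 9 := fun p => by rw [Finset.sum_mul]
            simp only [this]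
            rw [← Finset.sum_mul, hw1, one_mul]
          rw [← e, ← Finset.sum_sub_distrib]
          refine Finset.sum_congr rfl fun p _ => ?_
          rw [← Finset.sum_sub_distrib]
          refine Finset.sum_congr rfl fun q _ => ?_
          rw [e]
          ring
        have h5 : a (φ k) i * b (φ k) j *
            (Real.log 9 - s (φ k) / 2 * inner ℝ (X (φ k) i) (X (φ k) j)) ≤ Real.log 9 := by
          refine le_trans ?_ ((le_of_eq h4).trans (sub_le_self _ hsz))
          refine le_trans ?_ (Finset.single_le_sum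
            (f := fun p => ∑ q, a (φ k) p * b (φ k) q *
              (Real.log 9 - s (φ k) / 2 * inner ℝ (X (φ k) p) (X (φ k) q)))
            (fun p _ => Finset.sum_nonneg fun q _ => h3 p q) (Finset.mem_univ i))
          exact Finset.single_le_sum (f := fun q => a (φ k) i * b (φ k) q *
              (Real.log 9 - s (φ k) / 2 * inner ℝ (X (φ k) i) (X (φ k) q)))
            (fun q _ => h3 i q) (Finset.mem_univ j)
        set L := s (φ k) / 2 * inner ℝ (X (φ k) i) (X (φ k) j) with hL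
        set w := a (φ k) i * b (φ k) j with hww
        rcases le_or_gt 0 L with h | h
        · have := mul_nonneg h hw.le
          linarith
        · have h6 : L * (2 * w) ≤ L * (a' i * b' j) :=
            mul_le_mul_of_nonpos_left (by linarith) h.le
          have h7 : 0 ≤ w * Real.log 9 := mul_nonneg hwk.le hlog.le
          nlinarith
      have hM0 : 0 ≤ (1 + ‖∑ i, a (φ k) i • X (φ k) i‖) / 2 := by positivity
      have h8 : a (φ k) i * b (φ k) j ≤ ((1 + ‖∑ i, a (φ k) i • X (φ k) i‖) / 2) ^ 2 := by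
        rw [sq]
        exact mul_le_mul (hy3 i).1 (hy3 j).2 (hb _ j) hM0
      have h9 := mul_le_mul_of_nonneg_left h2 (sub_nonneg.2 h8)
      linarith
    have hL := ((hMl.pow 2).sub hwl).mul_const c
    have hR : Tendsto (fun k => ((1 + ‖∑ i, a (φ k) i • X (φ k) i‖) / 2) ^ 2 *
        ((8 + δ (φ k)) / 2) - 1) atTop (𝓝 ((1 / 2) ^ 2 * ((8 + 0) / 2) - 1)) :=
      ((hMl.pow 2).mul (((hδ.comp hφt).const_add 8).div_const 2)).sub_const 1
    have hle := le_of_tendsto_of_tendsto hL hR hev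
    by_contra hcon
    rw [not_le] at hcon
    have : 0 < ((1 / 2) ^ 2 - a' i * b' j) * c := mul_pos (by linarith) hc0
    norm_num at hle this
    linarith
  obtain ⟨j0, hj0⟩ : ∃ j, 0 < b' j := by
    by_contra hcon
    push Not at hcon
    have : ∑ i, b' i ≤ 0 := Finset.sum_nonpos fun i _ => hcon i
    linarith
  obtain ⟨i0, hi0⟩ : ∃ i, 0 < a' i := by
    by_contra hcon
    push Not at hcon
    have : ∑ i, a' i ≤ 0 := Finset.sum_nonpos fun i _ => hcon i
    linarith
  have hA2 : ∀ i, a' i = 0 ∨ a' i = 1 / 2 := by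
    intro i
    rcases (ha' i).eq_or_lt with h | h
    · exact Or.inl h.symm
    · right
      have h1 := key i j0 (mul_pos h hj0)
      have h2 := (hz3 i).1
      have h3 := (hz3 j0).2
      nlinarith
  have hB2 : ∀ i, b' i = 0 ∨ b' i = 1 / 2 := by
    intro i
    rcases (hb' i).eq_or_lt with h | h
    · exact Or.inl h.symm
    · right
      have h1 := key i0 i (mul_pos hi0 h)
      have h2 := (hz3 i0).1
      have h3 := (hz3 i).2
      nlinarith
  obtain ⟨i, i', hii, hai, hai', hao⟩ := LIMc_two a' hA2 hsa'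
  obtain ⟨j, j', hjj, hbj, hbj', hbo⟩ := LIMc_two b' hB2 hsb'
  have hz : ∑ i, a' i • x i = 0 := norm_eq_zero.1 hz0
  have hxi : x i + x i' = 0 := by
    rw [Fintype.sum_eq_add i i' hii (fun k hk => by rw [hao k hk.1 hk.2, zero_smul]), hai, hai',
      ← smul_add] at hz
    exact (smul_eq_zero.1 hz).resolve_left (by norm_num)
  have hxj : x j + x j' = 0 := by
    rw [hrel', Fintype.sum_eq_add j j' hjj (fun k hk => by rw [hbo k hk.1 hk.2, zero_smul]), hbj,
      hbj', ← smul_add] at hz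
    exact (smul_eq_zero.1 hz).resolve_left (by norm_num)
  have hne : ∀ p q, a' p = 1 / 2 → b' q = 1 / 2 → p ≠ q := by
    rintro p q hp hq rfl
    have := hab' p
    rw [hp, hq] at this
    norm_num at this
  have hi' : x i' = -x i := eq_neg_of_add_eq_zero_right hxi
  have hj' : x j' = -x j := eq_neg_of_add_eq_zero_right hxj
  have hperp_i : ∀ k, k ≠ i → k ≠ i' → |inner ℝ (x k) (x i)| ≤ 0 := by
    intro k hk hk'
    have h1 := hinn k i hk
    have h2 := hinn k i' hk'
    rw [hi', inner_neg_right] at h2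
    rw [abs_nonpos_iff]
    linarith
  have hperp_j : ∀ k, k ≠ j → k ≠ j' → |inner ℝ (x k) (x j)| ≤ 0 := by
    intro k hk hk'
    have h1 := hinn k j hk
    have h2 := hinn k j' hk'
    rw [hj', inner_neg_right] at h2
    rw [abs_nonpos_iff]
    linarith
  refine ⟨hinn, i, i', j, j', hii, hjj, hne i j hai hbj, hne i j' hai hbj', hne i' j hai' hbj,
    hne i' j' hai' hbj', ?_, ?_, ?_, ?_⟩
  · rw [hxi, norm_zero]
  · rw [hxj, norm_zero]
  · exact hperp_j i (hne i j hai hbj) (hne i j' hai hbj')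
  · intro k hk1 hk2 hk3 hk4
    exact ⟨hperp_i k hk1 hk2, hperp_j k hk3 hk4⟩

end Pool.Agent.J4.H93.D3
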