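import Pool.Agent.J4.H93.D3.Defs

set_option autoImplicit false

namespace Pool.Agent.J4.H93.D3

/-- PT: one term: `2^(s/2) |x-y|^(-s) = (1-⟨x,y⟩)^(-s/2)`. -/
theorem t_PTb : S_PT := by
  intro n s x y hs hx hy hxy
  have h1 : ‖x - y‖ ^ 2 = 2 * (1 - inner ℝ x y) := by
    rw [norm_sub_sq_real, hx, hy]; ring
  have hpos : 0 < ‖x - y‖ := norm_pos_iff.2 (sub_ne_zero.2 hxy)
  have h2 : 0 < 1 - inner ℝ x y := by
    have : 0 < ‖x - y‖ ^ 2 := by positivity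
    nlinarith
  have h3 : ‖x - y‖ ^ (-s) = (2 * (1 - inner ℝ x y)) ^ (-(s / 2)) := by
    rw [← h1, ← Real.rpow_natCast ‖x - y‖ 2, ← Real.rpow_mul hpos.le]
    congr 1
    push_cast
    ring
  refine ⟨?_, by linarith, ?_⟩
  · rw [h3, Real.mul_rpow (by norm_num) h2.le, ← mul_assoc, ← Real.rpow_add (by norm_num : (0:ℝ) < 2)]
    simp
  · rw [Real.rpow_def_of_pos h2]
    apply Real.exp_le_exp.2
    have h4 : Real.log (1 - inner ℝ x y) ≤ (1 - inner ℝ x y) - 1 := Real.log_le_sub_one_of_pos h2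
    nlinarith

end Pool.Agent.J4.H93.D3
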