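import Pool.Agent.J4.H93.D3.Defs3

/-!
# Piece TAU
-/

set_option autoImplicit false

open Filter Topology

namespace Pool.Agent.J4.H93.D3

theorem TAUc_fin {N : ℕ} (F G : Fin N → Fin N → ℝ) (hG : ∀ i j, 0 ≤ G i j)
    (hs : ∀ i j, F i j = F j i) (hFG : ∀ i j, i ≠ j → F i j ≤ G i j) (a b : Fin N → ℝ)
    (ha : ∀ i, 0 ≤ a i)
    (hb : ∀ i, 0 ≤ b i) (hab : ∀ i, a i * b i = 0) {M : ℝ} (haM : ∀ i, a i ≤ M)
    (hbM : ∀ i, b i ≤ M) (p q : Fin N) (hpq : p ≠ q) :
    (M ^ 2 - a p * b q - a q * b p) * G p q ≤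
      M ^ 2 * (∑ i, ∑ j ∈ Finset.univ.erase i, G i j) - 2 * ∑ i, ∑ j, a i * b j * F i j := by
  classical
  have hM : 0 ≤ M := (ha p).trans (haM p)
  have hwM : ∀ i j, a i * b j ≤ M ^ 2 := fun i j => by
    rw [sq]; exact mul_le_mul (haM i) (hbM j) (hb j) hM
  have hnn : ∀ i j, 0 ≤ M ^ 2 - a i * b j - a j * b i := by
    intro i j
    rcases mul_eq_zero.1 (hab i) with h | h
    · have := hwM j i
      rw [h, zero_mul]
      linarith
    · have := hwM i j
      rw [h, mul_zero]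
      linarith
  have h1 : 2 * ∑ k, ∑ l, a k * b l * F k l = ∑ k, ∑ l, (a k * b l + a l * b k) * F k l := by
    have e : ∑ k, ∑ l, a l * b k * F k l = ∑ k, ∑ l, a k * b l * F k l := by
      rw [Finset.sum_comm]
      exact Finset.sum_congr rfl fun i _ => Finset.sum_congr rfl fun j _ => by rw [hs j i]
    have e2 : ∑ k, ∑ l, (a k * b l + a l * b k) * F k l =
        ∑ k, ∑ l, a k * b l * F k l + ∑ k, ∑ l, a l * b k * F k l := by
      simp only [← Finset.sum_add_distrib]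
      exact Finset.sum_congr rfl fun i _ => Finset.sum_congr rfl fun j _ => by ring
    rw [e2, e]
    ring
  have h2 : ∑ k, ∑ l, (a k * b l + a l * b k) * F k l ≤
      ∑ k, ∑ l ∈ Finset.univ.erase k, (a k * b l + a l * b k) * G k l := by
    refine Finset.sum_le_sum fun k _ => ?_
    rw [← Finset.add_sum_erase Finset.univ (fun l => (a k * b l + a l * b k) * F k l)
      (Finset.mem_univ k)]
    simp only [hab, add_zero, zero_mul, zero_add]
    refine Finset.sum_le_sum fun l hl => ?_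
    exact mul_le_mul_of_nonneg_left (hFG k l (Finset.ne_of_mem_erase hl).symm)
      (add_nonneg (mul_nonneg (ha k) (hb l)) (mul_nonneg (ha l) (hb k)))
  have h3 : ∑ k, ∑ l ∈ Finset.univ.erase k, (M ^ 2 - a k * b l - a l * b k) * G k l =
      M ^ 2 * (∑ i, ∑ j ∈ Finset.univ.erase i, G i j) -
        ∑ k, ∑ l ∈ Finset.univ.erase k, (a k * b l + a l * b k) * G k l := by
    rw [Finset.mul_sum, ← Finset.sum_sub_distrib]
    refine Finset.sum_congr rfl fun i _ => ?_
    rw [Finset.mul_sum, ← Finset.sum_sub_distrib]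
    exact Finset.sum_congr rfl fun j _ => by ring
  have h4 : (M ^ 2 - a p * b q - a q * b p) * G p q ≤
      ∑ k, ∑ l ∈ Finset.univ.erase k, (M ^ 2 - a k * b l - a l * b k) * G k l := by
    refine le_trans ?_ (Finset.single_le_sum
      (f := fun k => ∑ l ∈ Finset.univ.erase k, (M ^ 2 - a k * b l - a l * b k) * G k l)
      (fun k _ => Finset.sum_nonneg fun l _ => mul_nonneg (hnn k l) (hG k l)) (Finset.mem_univ p))
    exact Finset.single_le_sum (f := fun l => (M ^ 2 - a p * b l - a l * b p) * G p l)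
      (fun l _ => mul_nonneg (hnn p l) (hG p l)) (Finset.mem_erase.2 ⟨hpq.symm, Finset.mem_univ q⟩)
  rw [h3] at h4
  rw [h1]
  linarith

theorem TAUc_shape {d : ℕ} {i i' j j' : Fin (d + 3)} {ε ε' : ℝ} (h : ε ≤ ε')
    {x : Fin (d + 3) → E (d + 1)} (hx : Shape d i i' j j' ε x) : Shape d i i' j j' ε' x := by
  obtain ⟨h0, h1, h2, h3, h4, h5, h6, h7, h8, h9, h10⟩ := hx
  exact ⟨fun k l hkl => (h0 k l hkl).trans h, h1, h2, h3, h4, h5, h6, h7.trans h, h8.trans h,
    h9.trans h, fun k a b c e => ⟨(h10 k a b c e).1.trans h, (h10 k a b c e).2.trans h⟩⟩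

theorem t_TAUc (hKER : S_KER) (hZZ : S_ZZ) (hPT : S_PT) (hSTR : S_STR2) : S_TAU := by
  intro d K ε hK hε
  have hlog9 : 0 < Real.log 9 := Real.log_pos (by norm_num)
  obtain ⟨ε₀, hε₀⟩ : ∃ e, e = min ε (Real.exp (-(16 * Real.log 9))) := ⟨_, rfl⟩
  have hε₀0 : 0 < ε₀ := by rw [hε₀]; exact lt_min hε (Real.exp_pos _)
  have hε₀ε : ε₀ ≤ ε := by rw [hε₀]; exact min_le_left _ _
  have hε₀9 : ε₀ ≤ Real.exp (-(16 * Real.log 9)) := by rw [hε₀]; exact min_le_right _ _
  obtain ⟨S1, δ1, hS1, hδ1, hstr⟩ := hSTR d ε₀ hε₀0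
  have hlim : Tendsto (fun s : ℝ => K * (Real.log s) ^ 2 / s) atTop (𝓝 0) := by
    have h := (Real.isLittleO_pow_log_id_atTop (n := 2)).tendsto_div_nhds_zero
    have h2 := h.const_mul K
    rw [mul_zero] at h2
    refine h2.congr fun s => ?_
    simp [mul_div_assoc]
  obtain ⟨S2, hS2⟩ := (hlim.eventually_lt_const (lt_min hδ1 one_pos)).exists_forall_of_atTop
  refine ⟨max (max S1 S2) 4, Real.log (8 * (8 + K)), lt_max_of_lt_right (by norm_num),
    fun s hs x hx hT => ?_⟩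
  have hsS1 : S1 ≤ s := (le_max_left _ _).trans ((le_max_left _ _).trans hs)
  have hsS2 : S2 ≤ s := (le_max_right _ _).trans ((le_max_left _ _).trans hs)
  have hs4 : 4 ≤ s := (le_max_right _ _).trans hs
  have hs0 : 0 < s := by linarith
  have hη := hS2 s hsS2
  have hη1 : K * (Real.log s) ^ 2 / s ≤ δ1 := (hη.trans_le (min_le_left _ _)).le
  have hη2 : K * (Real.log s) ^ 2 / s ≤ 1 := (hη.trans_le (min_le_right _ _)).le
  obtain ⟨i, i', j, j', hsh, hrest, hdist⟩ := hstr s hsS1 x hx (hT.trans (by linarith))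
  refine ⟨i, i', j, j', TAUc_shape hε₀ε hsh, hrest.trans hε₀ε, hdist, ?_⟩
  intro k l hkl hF4
  have hG0 : ∀ p q, 0 ≤ 2 ^ (s / 2) * ‖x p - x q‖ ^ (-s) := fun p q =>
    mul_nonneg (Real.rpow_nonneg (by norm_num) _) (Real.rpow_nonneg (norm_nonneg _) _)
  have hFG : ∀ p q, p ≠ q → Real.exp (s / 2 * inner ℝ (x p) (x q)) ≤
      2 ^ (s / 2) * ‖x p - x q‖ ^ (-s) := by
    intro p q hpq
    have hne : x p ≠ x q := fun h => hpq (hx.1 h)
    obtain ⟨g1, g2, g3⟩ := hPT (d + 1) s _ _ hs0 (hx.2 p) (hx.2 q) hne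
    rw [g1]
    exact g3
  have hTG : ∑ p, ∑ q ∈ Finset.univ.erase p, 2 ^ (s / 2) * ‖x p - x q‖ ^ (-s) =
      2 ^ (s / 2) * riesz s x := by
    unfold riesz
    rw [Finset.mul_sum]
    refine Finset.sum_congr rfl fun p _ => ?_
    rw [Finset.mul_sum]
  have hG9 : ∀ p q, p ≠ q → 2 ^ (s / 2) * ‖x p - x q‖ ^ (-s) ≤ 9 := by
    intro p q hpq
    refine le_trans ?_ (show 2 ^ (s / 2) * riesz s x ≤ 9 by linarith)
    rw [← hTG]
    refine le_trans ?_ (Finset.single_le_sum
      (f := fun p => ∑ q ∈ Finset.univ.erase p, 2 ^ (s / 2) * ‖x p - x q‖ ^ (-s))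
      (fun p _ => Finset.sum_nonneg fun q _ => hG0 p q) (Finset.mem_univ p))
    exact Finset.single_le_sum (f := fun q => 2 ^ (s / 2) * ‖x p - x q‖ ^ (-s))
      (fun q _ => hG0 p q) (Finset.mem_erase.2 ⟨hpq.symm, Finset.mem_univ q⟩)
  have hGr : ∀ p q, p ≠ q → ¬ Four i i' j j' p q → 2 ^ (s / 2) * ‖x p - x q‖ ^ (-s) ≤ ε₀ := by
    intro p q hpq hf
    classical
    refine le_trans ?_ hrest
    unfold rest
    refine mul_le_mul_of_nonneg_left ?_ (Real.rpow_nonneg (by norm_num) _)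
    have hnn : ∀ p q : Fin (d + 3), 0 ≤ (if Four i i' j j' p q then (0 : ℝ) else
        ‖x p - x q‖ ^ (-s)) := by
      intro p q
      split_ifs
      · exact le_rfl
      · exact Real.rpow_nonneg (norm_nonneg _) _
    refine le_trans ?_ (Finset.single_le_sum (fun p _ => Finset.sum_nonneg fun q _ => hnn p q)
      (Finset.mem_univ p))
    refine le_trans ?_ (Finset.single_le_sum (fun q _ => hnn p q)
      (Finset.mem_erase.2 ⟨hpq.symm, Finset.mem_univ q⟩))
    rw [if_neg hf]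
  obtain ⟨a, b, ha, hb, hab, hsa, hsb, hrel⟩ := hKER d x
  obtain ⟨hz2, hz3⟩ := hZZ (d + 3) (d + 1) x a b hx.2 ha hb hsa hsb hrel
  have hu1 : ‖∑ i, a i • x i‖ ≤ 1 := by
    refine (norm_sum_le _ _).trans (le_of_eq ?_)
    rw [← hsa]
    refine Finset.sum_congr rfl fun i _ => ?_
    rw [norm_smul, hx.2, mul_one, Real.norm_of_nonneg (ha i)]
  have hu0 : 0 ≤ ‖∑ i, a i • x i‖ := norm_nonneg _
  generalize ‖∑ i, a i • x i‖ = u at hz2 hz3 hu1 hu0
  have hw1 : ∑ i, ∑ j, a i * b j = 1 := by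
    have : ∀ i, ∑ j, a i * b j = a i := fun i => by rw [← Finset.mul_sum, hsb, mul_one]
    simp only [this, hsa]
  have hwin : ∑ i, ∑ j, a i * b j * (s / 2 * inner ℝ (x i) (x j)) = s / 2 * u ^ 2 := by
    rw [hz2, Finset.mul_sum]
    refine Finset.sum_congr rfl fun i _ => ?_
    rw [Finset.mul_sum]
    exact Finset.sum_congr rfl fun j _ => by ring
  have hsz : 0 ≤ s / 2 * u ^ 2 := by positivity
  have hJ : 1 + s / 2 * u ^ 2 ≤ ∑ i, ∑ j, a i * b j *
      Real.exp (s / 2 * inner ℝ (x i) (x j)) := by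
    have e : ∑ i, ∑ j, a i * b j * (1 + s / 2 * inner ℝ (x i) (x j)) = 1 + s / 2 * u ^ 2 := by
      rw [← hwin, ← hw1, ← Finset.sum_add_distrib]
      refine Finset.sum_congr rfl fun i _ => ?_
      rw [← Finset.sum_add_distrib]
      refine Finset.sum_congr rfl fun j _ => ?_
      rw [hw1]
      ring
    rw [← e]
    refine Finset.sum_le_sum fun i _ => Finset.sum_le_sum fun j _ => ?_
    refine mul_le_mul_of_nonneg_left ?_ (mul_nonneg (ha i) (hb j))
    have := Real.add_one_le_exp (s / 2 * inner ℝ (x i) (x j))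
    linarith
  have hL9 : ∀ p q, p ≠ q → s / 2 * inner ℝ (x p) (x q) ≤ Real.log 9 := by
    intro p q hpq
    rw [Real.le_log_iff_exp_le (by norm_num)]
    exact (hFG p q hpq).trans (hG9 p q hpq)
  have hLr : ∀ p q, p ≠ q → ¬ Four i i' j j' p q →
      s / 2 * inner ℝ (x p) (x q) ≤ -(16 * Real.log 9) := by
    intro p q hpq hf
    exact Real.exp_le_exp.1 ((hFG p q hpq).trans ((hGr p q hpq hf).trans hε₀9))
  have hsmall : ∀ p q, p ≠ q → ¬ Four i i' j j' p q → a p * b q ≤ 1 / 16 := by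
    intro p q hpq hf
    have h3 : ∀ p q, 0 ≤ a p * b q * (Real.log 9 - s / 2 * inner ℝ (x p) (x q)) := by
      intro p q
      by_cases hpq : p = q
      · subst hpq
        rw [hab, zero_mul]
      · exact mul_nonneg (mul_nonneg (ha p) (hb q)) (sub_nonneg.2 (hL9 p q hpq))
    have h4 : ∑ p, ∑ q, a p * b q * (Real.log 9 - s / 2 * inner ℝ (x p) (x q)) =
        Real.log 9 - s / 2 * u ^ 2 := by
      rw [← hwin]
      have e : ∑ p, ∑ q, a p * b q * Real.log 9 = Real.log 9 := by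
        have : ∀ p, ∑ q, a p * b q * Real.log 9 =
            (∑ q, a p * b q) * Real.log 9 := fun p => by rw [Finset.sum_mul]
        simp only [this]
        rw [← Finset.sum_mul, hw1, one_mul]
      rw [← e, ← Finset.sum_sub_distrib]
      refine Finset.sum_congr rfl fun p _ => ?_
      rw [← Finset.sum_sub_distrib]
      refine Finset.sum_congr rfl fun q _ => ?_
      rw [e]
      ring
    have h5 : a p * b q * (Real.log 9 - s / 2 * inner ℝ (x p) (x q)) ≤ Real.log 9 := by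
      refine le_trans ?_ ((le_of_eq h4).trans (sub_le_self _ hsz))
      refine le_trans ?_ (Finset.single_le_sum
        (f := fun p => ∑ q, a p * b q * (Real.log 9 - s / 2 * inner ℝ (x p) (x q)))
        (fun p _ => Finset.sum_nonneg fun q _ => h3 p q) (Finset.mem_univ p))
      exact Finset.single_le_sum (f := fun q => a p * b q *
          (Real.log 9 - s / 2 * inner ℝ (x p) (x q)))
        (fun q _ => h3 p q) (Finset.mem_univ q)
    have h6 := hLr p q hpq hf
    have h7 : a p * b q * (17 * Real.log 9) ≤ Real.log 9 :=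
      (mul_le_mul_of_nonneg_left (by linarith) (mul_nonneg (ha p) (hb q))).trans h5
    by_contra hcon
    rw [not_le] at hcon
    nlinarith
  have hfin := TAUc_fin (fun p q => Real.exp (s / 2 * inner ℝ (x p) (x q)))
    (fun p q => 2 ^ (s / 2) * ‖x p - x q‖ ^ (-s)) hG0 (fun p q => by rw [real_inner_comm]) hFG
    a b ha hb hab (fun i => (hz3 i).1) (fun i => (hz3 i).2) k l hkl
  rw [hTG] at hfin
  have hf' : ¬ Four i i' j j' l k := by
    rintro (⟨h1, h2⟩ | ⟨h1, h2⟩)
    · exact hF4 (Or.inr ⟨h2, h1⟩)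
    · exact hF4 (Or.inl ⟨h2, h1⟩)
  have hs1 := hsmall k l hkl hF4
  have hs2 := hsmall l k hkl.symm hf'
  have hgk := hG0 k l
  have hFk := hFG k l hkl
  have hM4 : 1 / 4 ≤ ((1 + u) / 2) ^ 2 := by nlinarith
  have hM1 : ((1 + u) / 2) ^ 2 ≤ 1 := by nlinarith
  generalize 2 ^ (s / 2) * ‖x k - x l‖ ^ (-s) = g at hfin hgk hFk
  generalize 2 ^ (s / 2) * riesz s x = T at hT hfin
  have h8 : 1 / 8 * g ≤ (((1 + u) / 2) ^ 2 - a k * b l - a l * b k) * g :=
    mul_le_mul_of_nonneg_right (by linarith) hgk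
  have h9 : ((1 + u) / 2) ^ 2 * T ≤ ((1 + u) / 2) ^ 2 * 8 + K * (Real.log s) ^ 2 / s := by
    have hη0 : 0 ≤ K * (Real.log s) ^ 2 / s := by positivity
    have := mul_le_mul_of_nonneg_left hT (sq_nonneg ((1 + u) / 2))
    have h10 := mul_le_mul_of_nonneg_right hM1 hη0
    linarith
  have h11 : 4 * u + 2 * u ^ 2 - s * u ^ 2 ≤ 8 / s := by
    rw [le_div_iff₀ hs0]
    have h12 : 0 ≤ (s * u - 4) ^ 2 := sq_nonneg _
    have h13 : 0 ≤ (s - 4) * (s * u ^ 2) := mul_nonneg (by linarith) (by positivity)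
    nlinarith
  have hlogs : 1 ≤ Real.log s := by
    rw [Real.le_log_iff_exp_le hs0]
    have := Real.exp_one_lt_d9
    linarith
  have h14 : 8 / s ≤ 8 * (Real.log s) ^ 2 / s := by
    apply div_le_div_of_nonneg_right _ hs0.le
    nlinarith
  have h15 : g ≤ 8 * (8 + K) * (Real.log s) ^ 2 / s := by
    have e : 8 * (8 + K) * (Real.log s) ^ 2 / s =
        8 * (8 * (Real.log s) ^ 2 / s + K * (Real.log s) ^ 2 / s) := by ring
    rw [e]
    nlinarith
  have h16 : s / 2 * inner ℝ (x k) (x l) ≤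
      Real.log (8 * (8 + K)) + 2 * Real.log (Real.log s) - Real.log s := by
    have h17 : Real.log (8 * (8 + K) * (Real.log s) ^ 2 / s) =
        Real.log (8 * (8 + K)) + 2 * Real.log (Real.log s) - Real.log s := by
      rw [Real.log_div (by positivity) hs0.ne', Real.log_mul (by positivity) (by positivity),
        Real.log_pow]
      norm_num
    rw [← h17, Real.le_log_iff_exp_le (by positivity)]
    exact hFk.trans h15
  unfold tau
  have h18 := mul_le_mul_of_nonneg_left h16 (show 0 ≤ 2 / s by positivity)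
  have h19 : 2 / s * (s / 2 * inner ℝ (x k) (x l)) = inner ℝ (x k) (x l) := by
    field_simp
  rw [h19] at h18
  linarith

end Pool.Agent.J4.H93.D3
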