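import Pool.Agent.J4.H93.D3.Defs

set_option autoImplicit false

namespace Pool.Agent.J4.H93.D3

theorem zzb_aux (N n : ℕ) (x : Fin N → E n) (a : Fin N → ℝ) (hx : ∀ i, ‖x i‖ = 1)
    (ha : ∀ i, 0 ≤ a i) (hs : ∑ i, a i = 1) (i : Fin N) :
    a i ≤ (1 + ‖∑ i, a i • x i‖) / 2 := by
  classical
  have h1 : a i • x i = (∑ i, a i • x i) - ∑ j ∈ Finset.univ.erase i, a j • x j := by
    rw [← Finset.add_sum_erase Finset.univ (fun j => a j • x j) (Finset.mem_univ i)]
    abel
  have h2 : ‖a i • x i‖ = a i := by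
    rw [norm_smul, hx i, Real.norm_of_nonneg (ha i), mul_one]
  have h3 : ‖∑ j ∈ Finset.univ.erase i, a j • x j‖ ≤ 1 - a i := by
    refine (norm_sum_le _ _).trans ?_
    have : ∑ j ∈ Finset.univ.erase i, ‖a j • x j‖ = ∑ j ∈ Finset.univ.erase i, a j := by
      refine Finset.sum_congr rfl (fun j _ => ?_)
      rw [norm_smul, hx j, Real.norm_of_nonneg (ha j), mul_one]
    rw [this, ← hs, ← Finset.add_sum_erase Finset.univ a (Finset.mem_univ i)]
    linarith
  have h4 := norm_sub_le (∑ i, a i • x i) (∑ j ∈ Finset.univ.erase i, a j • x j)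
  rw [← h1, h2] at h4
  linarith

theorem t_ZZb : S_ZZ := by
  intro N n x a b hx ha hb hsa hsb hab
  refine ⟨?_, fun i => ⟨zzb_aux N n x a hx ha hsa i, ?_⟩⟩
  · rw [← real_inner_self_eq_norm_sq]
    nth_rewrite 2 [hab]
    rw [sum_inner]
    refine Finset.sum_congr rfl (fun i _ => ?_)
    rw [inner_sum]
    refine Finset.sum_congr rfl (fun j _ => ?_)
    rw [real_inner_smul_left, real_inner_smul_right]
    ring
  · rw [hab]
    exact zzb_aux N n x b hx hb hsb i

end Pool.Agent.J4.H93.D3
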